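import Pool.Agent.R169.MD.Stm

/-!
# Averages over extensions of a prefix
-/

namespace Pool.Agent.R169.MD.Avg
open Finset Pool.Agent.R169.MD

def mi (A B : Finset ℕ) (n : ℕ) : ℕ := if Miss A B n then 1 else 0

/-- average of `w` over `m` further positions -/
noncomputable def ev (w : ℕ → ℝ) : ℕ → ℕ → Finset ℕ → Finset ℕ → ℕ → ℝ
  | 0, _, _, _, c => w c
  | m + 1, n, A, B, c =>
    (ev w m (n + 1) A B (c + mi A B n)
      + ev w m (n + 1) (insert n A) B (c + mi (insert n A) B n)
      + ev w m (n + 1) A (insert n B) (c + mi A (insert n B) n)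
      + ev w m (n + 1) (insert n A) (insert n B) (c + mi (insert n A) (insert n B) n)) / 4

/-- expected number of misses among the next `m` positions -/
noncomputable def fu : ℕ → ℕ → Finset ℕ → Finset ℕ → ℝ
  | 0, _, _, _ => 0
  | m + 1, n, A, B =>
    ((mi A B n + fu m (n + 1) A B)
      + (mi (insert n A) B n + fu m (n + 1) (insert n A) B)
      + (mi A (insert n B) n + fu m (n + 1) A (insert n B))
      + (mi (insert n A) (insert n B) n + fu m (n + 1) (insert n A) (insert n B))) / 4

theorem miss_comm (A B : Finset ℕ) (j : ℕ) : Miss A B j ↔ Miss B A j := by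
  unfold Miss
  constructor
  · intro h i hi hc
    rw [mem_range] at hi
    apply h (j - i) (by rw [mem_range]; omega)
    refine ⟨hc.2, ?_⟩
    have : j - (j - i) = i := by omega
    rw [this]; exact hc.1
  · intro h i hi hc
    rw [mem_range] at hi
    apply h (j - i) (by rw [mem_range]; omega)
    refine ⟨hc.2, ?_⟩
    have : j - (j - i) = i := by omega
    rw [this]; exact hc.1

theorem mi_comm (A B : Finset ℕ) (j : ℕ) : mi A B j = mi B A j := by
  unfold mi
  simp only [miss_comm A B j]

theorem ev_comm (w : ℕ → ℝ) : ∀ (m n : ℕ) (A B : Finset ℕ) (c : ℕ),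
    ev w m n A B c = ev w m n B A c := by
  intro m
  induction m with
  | zero => intro n A B c; simp [ev]
  | succ m ih =>
    intro n A B c
    simp only [ev]
    rw [mi_comm A B, mi_comm (insert n A) B, mi_comm A (insert n B),
      mi_comm (insert n A) (insert n B), ih (n+1) A B, ih (n+1) (insert n A) B,
      ih (n+1) A (insert n B), ih (n+1) (insert n A) (insert n B)]
    ring

theorem fu_nonneg : ∀ (m n : ℕ) (A B : Finset ℕ), 0 ≤ fu m n A B := by
  intro m
  induction m with
  | zero => intro n A B; simp [fu]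
  | succ m ih =>
    intro n A B
    simp only [fu]
    have h1 := ih (n+1) A B
    have h2 := ih (n+1) (insert n A) B
    have h3 := ih (n+1) A (insert n B)
    have h4 := ih (n+1) (insert n A) (insert n B)
    positivity

theorem ev_nonneg (w : ℕ → ℝ) (hw : ∀ c, 0 ≤ w c) : ∀ (m n : ℕ) (A B : Finset ℕ) (c : ℕ),
    0 ≤ ev w m n A B c := by
  intro m
  induction m with
  | zero => intro n A B c; exact hw c
  | succ m ih =>
    intro n A B c
    simp only [ev]
    have h1 := ih (n+1) A B (c + mi A B n)
    have h2 := ih (n+1) (insert n A) B (c + mi (insert n A) B n)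
    have h3 := ih (n+1) A (insert n B) (c + mi A (insert n B) n)
    have h4 := ih (n+1) (insert n A) (insert n B) (c + mi (insert n A) (insert n B) n)
    positivity

/-- linear lower bound -/
theorem ev_lower (w : ℕ → ℝ) (c : ℕ) (v σ : ℝ)
    (h : ∀ j : ℕ, v - σ * j ≤ w (c + j)) : ∀ (m n : ℕ) (A B : Finset ℕ) (i : ℕ),
    v - σ * (i + fu m n A B) ≤ ev w m n A B (c + i) := by
  intro m
  induction m with
  | zero => intro n A B i; simpa [ev, fu] using h i
  | succ m ih =>
    intro n A B i
    simp only [ev, fu]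
    have h1 := ih (n+1) A B (i + mi A B n)
    have h2 := ih (n+1) (insert n A) B (i + mi (insert n A) B n)
    have h3 := ih (n+1) A (insert n B) (i + mi A (insert n B) n)
    have h4 := ih (n+1) (insert n A) (insert n B) (i + mi (insert n A) (insert n B) n)
    push_cast at h1 h2 h3 h4
    rw [← add_assoc] at h1 h2 h3 h4
    have e : v - σ * (i + ((mi A B n + fu m (n + 1) A B)
      + (mi (insert n A) B n + fu m (n + 1) (insert n A) B)
      + (mi A (insert n B) n + fu m (n + 1) A (insert n B))
      + (mi (insert n A) (insert n B) n + fu m (n + 1) (insert n A) (insert n B))) / 4)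
      = ((v - σ * (i + mi A B n + fu m (n + 1) A B))
        + (v - σ * (i + mi (insert n A) B n + fu m (n + 1) (insert n A) B))
        + (v - σ * (i + mi A (insert n B) n + fu m (n + 1) A (insert n B)))
        + (v - σ * (i + mi (insert n A) (insert n B) n
            + fu m (n + 1) (insert n A) (insert n B)))) / 4 := by ring
    rw [e]
    gcongr

/-! ### probability weights -/

noncomputable def xv (n : ℕ) (A : Finset ℕ) (i : ℕ) : ℝ :=
  if i < n then (if i ∈ A then 1 else 0) else 1 / 2

noncomputable def bet (n : ℕ) (A B : Finset ℕ) (N : ℕ) : ℝ :=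
  ∏ i ∈ range (N + 1), (1 - xv n A i * xv n B (N - i))

theorem xv_ne {n : ℕ} (A : Finset ℕ) {i : ℕ} (h : i ≠ n) : xv (n + 1) A i = xv n A i := by
  unfold xv
  by_cases h1 : i < n
  · simp [h1, Nat.lt_succ_of_lt h1]
  · have h2 : ¬ i < n + 1 := by omega
    simp [h1, h2]

theorem xv_ins_ne {n : ℕ} (A : Finset ℕ) {i : ℕ} (h : i ≠ n) :
    xv (n + 1) (insert n A) i = xv n A i := by
  rw [xv_ne _ h]
  unfold xv
  simp [h]

theorem xv_self {n : ℕ} {A : Finset ℕ} (hA : A ⊆ range n) : xv (n + 1) A n = 0 := by
  have : n ∉ A := fun h => by simpa using hA h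
  simp [xv, this]

theorem xv_ins_self (n : ℕ) (A : Finset ℕ) : xv (n + 1) (insert n A) n = 1 := by
  simp [xv]

theorem xv_half (n : ℕ) (A : Finset ℕ) : xv n A n = 1 / 2 := by simp [xv]

theorem mart {n : ℕ} {A B : Finset ℕ} (hA : A ⊆ range n) (hB : B ⊆ range n) {N : ℕ}
    (hN : n ≤ N) :
    bet (n + 1) A B N + bet (n + 1) (insert n A) B N + bet (n + 1) A (insert n B) N
      + bet (n + 1) (insert n A) (insert n B) N = 4 * bet n A B N := by
  unfold bet
  by_cases h : N = 2 * n
  · have hmem : n ∈ range (N + 1) := by rw [mem_range]; omega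
    have hNn : N - n = n := by omega
    rw [← mul_prod_erase _ _ hmem, ← mul_prod_erase _ _ hmem, ← mul_prod_erase _ _ hmem,
      ← mul_prod_erase _ _ hmem, ← mul_prod_erase _ _ hmem]
    have key : ∀ (A' B' : Finset ℕ), (∀ i, i ≠ n → xv (n + 1) A' i = xv n A i) →
        (∀ i, i ≠ n → xv (n + 1) B' i = xv n B i) →
        ∏ i ∈ (range (N + 1)).erase n, (1 - xv (n + 1) A' i * xv (n + 1) B' (N - i))
          = ∏ i ∈ (range (N + 1)).erase n, (1 - xv n A i * xv n B (N - i)) := by
      intro A' B' h1 h2
      apply prod_congr rfl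
      intro i hi
      rw [mem_erase, mem_range] at hi
      rw [h1 i hi.1, h2 (N - i) (by omega)]
    rw [key A B (fun i hi => xv_ne _ hi) (fun i hi => xv_ne _ hi),
      key (insert n A) B (fun i hi => xv_ins_ne _ hi) (fun i hi => xv_ne _ hi),
      key A (insert n B) (fun i hi => xv_ne _ hi) (fun i hi => xv_ins_ne _ hi),
      key (insert n A) (insert n B) (fun i hi => xv_ins_ne _ hi) (fun i hi => xv_ins_ne _ hi),
      hNn, xv_self hA, xv_self hB, xv_ins_self, xv_ins_self, xv_half, xv_half]
    ring
  · have hmem : n ∈ range (N + 1) := by rw [mem_range]; omega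
    have hmem2 : N - n ∈ (range (N + 1)).erase n := by
      rw [mem_erase, mem_range]; omega
    have hNN : N - (N - n) = n := by omega
    have hne : N - n ≠ n := by omega
    rw [← mul_prod_erase _ _ hmem, ← mul_prod_erase _ _ hmem, ← mul_prod_erase _ _ hmem,
      ← mul_prod_erase _ _ hmem, ← mul_prod_erase _ _ hmem,
      ← mul_prod_erase _ _ hmem2, ← mul_prod_erase _ _ hmem2, ← mul_prod_erase _ _ hmem2,
      ← mul_prod_erase _ _ hmem2, ← mul_prod_erase _ _ hmem2]
    have key : ∀ (A' B' : Finset ℕ), (∀ i, i ≠ n → xv (n + 1) A' i = xv n A i) →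
        (∀ i, i ≠ n → xv (n + 1) B' i = xv n B i) →
        ∏ i ∈ ((range (N + 1)).erase n).erase (N - n),
            (1 - xv (n + 1) A' i * xv (n + 1) B' (N - i))
          = ∏ i ∈ ((range (N + 1)).erase n).erase (N - n),
            (1 - xv n A i * xv n B (N - i)) := by
      intro A' B' h1 h2
      apply prod_congr rfl
      intro i hi
      rw [mem_erase, mem_erase, mem_range] at hi
      rw [h1 i hi.2.1, h2 (N - i) (by omega)]
    rw [key A B (fun i hi => xv_ne _ hi) (fun i hi => xv_ne _ hi),
      key (insert n A) B (fun i hi => xv_ins_ne _ hi) (fun i hi => xv_ne _ hi),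
      key A (insert n B) (fun i hi => xv_ne _ hi) (fun i hi => xv_ins_ne _ hi),
      key (insert n A) (insert n B) (fun i hi => xv_ins_ne _ hi) (fun i hi => xv_ins_ne _ hi),
      hNN, xv_self hA, xv_self hB, xv_ins_self, xv_ins_self, xv_half, xv_half,
      xv_ne A hne, xv_ne B hne, xv_ins_ne A hne, xv_ins_ne B hne]
    ring

theorem bet_mi {n : ℕ} (A B : Finset ℕ) : bet (n + 1) A B n = mi A B n := by
  unfold bet mi
  by_cases h : Miss A B n
  · simp only [h, if_true, Nat.cast_one]
    apply prod_eq_one
    intro i hi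
    have h2 := h i hi
    rw [mem_range] at hi
    have h3 : n - i < n + 1 := by omega
    simp only [xv, hi, h3, if_true]
    by_cases ha : i ∈ A
    · have hb : n - i ∉ B := fun hb => h2 ⟨ha, hb⟩
      simp [hb]
    · simp [ha]
  · simp only [h, if_false, Nat.cast_zero]
    unfold Miss at h
    push Not at h
    obtain ⟨i, hi, ha, hb⟩ := h
    apply prod_eq_zero hi
    rw [mem_range] at hi
    have h3 : n - i < n + 1 := by omega
    simp [xv, hi, h3, ha, hb]

theorem fu_eq : ∀ (m n : ℕ) (A B : Finset ℕ), A ⊆ range n → B ⊆ range n →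
    fu m n A B = ∑ t ∈ range m, bet n A B (n + t) := by
  intro m
  induction m with
  | zero => intro n A B _ _; simp [fu]
  | succ m ih =>
    intro n A B hA hB
    have hs : ∀ {A : Finset ℕ}, A ⊆ range n → A ⊆ range (n + 1) :=
      fun h => h.trans (range_subset_range.2 (Nat.le_succ n))
    have hi : ∀ {A : Finset ℕ}, A ⊆ range n → insert n A ⊆ range (n + 1) := by
      intro A h
      apply insert_subset
      · simp
      · exact hs h
    simp only [fu]
    rw [ih _ _ _ (hs hA) (hs hB), ih _ _ _ (hi hA) (hs hB), ih _ _ _ (hs hA) (hi hB),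
      ih _ _ _ (hi hA) (hi hB), sum_range_succ']
    rw [← bet_mi, ← bet_mi, ← bet_mi, ← bet_mi]
    have e1 : bet n A B (n + 0) = (bet (n + 1) A B n + bet (n + 1) (insert n A) B n
      + bet (n + 1) A (insert n B) n + bet (n + 1) (insert n A) (insert n B) n) / 4 := by
      rw [mart hA hB (le_refl n)]; simp
    have e2 : ∀ t, bet n A B (n + (t + 1)) = (bet (n + 1) A B (n + 1 + t)
      + bet (n + 1) (insert n A) B (n + 1 + t)
      + bet (n + 1) A (insert n B) (n + 1 + t)
      + bet (n + 1) (insert n A) (insert n B) (n + 1 + t)) / 4 := by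
      intro t
      rw [mart hA hB (by omega : n ≤ n + 1 + t)]
      have : n + (t + 1) = n + 1 + t := by omega
      rw [this]; ring
    rw [e1, sum_congr rfl (fun t _ => e2 t), ← sum_div, sum_add_distrib, sum_add_distrib,
      sum_add_distrib]
    ring

end Pool.Agent.R169.MD.Avg
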