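import Pool.Agent.R169.MD.Stm

/-! MD-CAU (MP_7c207a_co): `q` is Cauchy. -/

namespace Pool.Agent.R169.MD.Cau

open Finset Pool.Agent.R169.MD

lemma not_mem_of {M : ℕ} {A : Finset ℕ} (h : A ⊆ range M) : M ∉ A := fun h' => by
  have := mem_range.1 (h h'); omega

/-- adding `M` does not change `Miss` below `M` -/
lemma miss_insert_left (M : ℕ) (A B : Finset ℕ) (j : ℕ) (hj : j < M) :
    Miss (insert M A) B j ↔ Miss A B j := by
  unfold Miss
  refine forall₂_congr fun i hi => ?_
  have : i ≠ M := by have := mem_range.1 hi; omega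
  rw [mem_insert]
  tauto

lemma miss_insert_right (M : ℕ) (A B : Finset ℕ) (j : ℕ) (hj : j < M) :
    Miss A (insert M B) j ↔ Miss A B j := by
  unfold Miss
  refine forall₂_congr fun i hi => ?_
  have : j - i ≠ M := by omega
  rw [mem_insert]
  tauto

lemma X_insert_left (M : ℕ) (A B : Finset ℕ) : X M (insert M A) B = X M A B := by
  unfold X
  congr 1
  exact filter_congr fun j hj => miss_insert_left M A B j (mem_range.1 hj)

lemma X_insert_right (M : ℕ) (A B : Finset ℕ) : X M A (insert M B) = X M A B := by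
  unfold X
  congr 1
  exact filter_congr fun j hj => miss_insert_right M A B j (mem_range.1 hj)

lemma X_succ (M : ℕ) (A B : Finset ℕ) :
    X (M + 1) A B = X M A B + (if Miss A B M then 1 else 0) := by
  unfold X
  rw [range_add_one, filter_insert]
  split_ifs with h
  · rw [card_insert_of_notMem (by simp)]
  · simp

/-- the indicator -/
def ind (M k : ℕ) (A B : Finset ℕ) : ℤ := if 0 ∈ A ∧ 0 ∈ B ∧ X M A B = k then 1 else 0

lemma cq_eq (M k : ℕ) : (cq M k : ℤ) =
    ∑ A ∈ (range M).powerset, ∑ B ∈ (range M).powerset, ind M k A B := by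
  unfold cq Om ind
  rw [card_filter, sum_product]
  push_cast
  rfl

lemma cq_succ (M k : ℕ) (hM : 1 ≤ M) : (cq (M + 1) k : ℤ) =
    ∑ A ∈ (range M).powerset, ∑ B ∈ (range M).powerset,
      (3 * ind M k A B + ind (M + 1) k A B) := by
  rw [cq_eq]
  rw [range_add_one, sum_powerset_insert (by simp)]
  rw [← sum_add_distrib]
  refine sum_congr rfl fun A hA => ?_
  rw [sum_powerset_insert (by simp), sum_powerset_insert (by simp), ← sum_add_distrib,
    ← sum_add_distrib, ← sum_add_distrib]
  refine sum_congr rfl fun B hB => ?_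
  have h0 : (0 : ℕ) ≠ M := by omega
  have key : ∀ A' B' : Finset ℕ, (0 ∈ A' ↔ 0 ∈ A) → (0 ∈ B' ↔ 0 ∈ B) → (M ∈ A' ∨ M ∈ B') →
      X M A' B' = X M A B → ind (M + 1) k A' B' = ind M k A B := by
    intro A' B' h1 h2 h3 h4
    unfold ind
    rw [X_succ, h4]
    simp only [h1, h2]
    by_cases hA0 : 0 ∈ A
    · by_cases hB0 : 0 ∈ B
      · have : ¬ Miss A' B' M := by
          intro hm
          rcases h3 with h3 | h3
          · exact hm M (by simp) ⟨h3, by simpa using h2.2 hB0⟩
          · exact hm 0 (by simp) ⟨h1.2 hA0, by simpa using h3⟩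
        simp [this]
      · simp [hB0]
    · simp [hA0]
  have hi : ∀ C : Finset ℕ, (0 ∈ insert M C ↔ 0 ∈ C) := by
    intro C
    rw [mem_insert]
    simp [h0]
  rw [key (insert M A) B (hi A) Iff.rfl (Or.inl (mem_insert_self _ _)) (X_insert_left M A B),
    key A (insert M B) Iff.rfl (hi B) (Or.inr (mem_insert_self _ _)) (X_insert_right M A B),
    key (insert M A) (insert M B) (hi A) (hi B) (Or.inl (mem_insert_self _ _))
      (by rw [X_insert_left, X_insert_right])]
  ring

def bad (M : ℕ) : Finset (Finset ℕ × Finset ℕ) :=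
  (Om M).filter (fun c => 0 ∈ c.1 ∧ 0 ∈ c.2 ∧ Miss c.1 c.2 M)

def phi (M : ℕ) (c : Finset ℕ × Finset ℕ) : Fin (M - 1) → Fin 3 := fun i =>
  if (i : ℕ) + 1 ∈ c.1 then 1 else if M - 1 - (i : ℕ) ∈ c.2 then 2 else 0

lemma mem1 {M : ℕ} {c : Finset ℕ × Finset ℕ} (x : ℕ) (hx : x < M) (h1 : 1 ≤ x) :
    x ∈ c.1 ↔ phi M c ⟨x - 1, by omega⟩ = 1 := by
  unfold phi
  simp only
  rw [Nat.sub_add_cancel h1]
  by_cases h : x ∈ c.1
  · simp [h]
  · simp only [h, if_false, false_iff]
    split_ifs <;> decide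

lemma mem2 {M : ℕ} {c : Finset ℕ × Finset ℕ} (hc : c ∈ bad M) (x : ℕ) (hx : x < M) (h1 : 1 ≤ x) :
    x ∈ c.2 ↔ phi M c ⟨M - 1 - x, by omega⟩ = 2 := by
  unfold phi
  simp only
  have e : M - 1 - (M - 1 - x) = x := by omega
  rw [e]
  have hm := (mem_filter.1 hc).2.2.2
  by_cases h : M - 1 - x + 1 ∈ c.1
  · have h2 : x ∉ c.2 := by
      intro h2
      refine hm (M - 1 - x + 1) (by simp; omega) ⟨h, ?_⟩
      have : M - (M - 1 - x + 1) = x := by omega
      rwa [this]
    simp only [h, if_true, h2, false_iff]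
    decide
  · by_cases h2 : x ∈ c.2
    · simp [h, h2]
    · simp only [h, if_false, h2, false_iff]
      decide

lemma bad_card (M : ℕ) : (bad M).card ≤ 3 ^ (M - 1) := by
  have : (bad M).card ≤ (univ : Finset (Fin (M - 1) → Fin 3)).card := by
    refine card_le_card_of_injOn (phi M) (fun _ _ => mem_univ _) ?_
    intro c hc d hd h
    have hc' := hc
    have hd' := hd
    rw [mem_coe] at hc' hd'
    have hc1 := mem_filter.1 hc'
    have hd1 := mem_filter.1 hd'
    have hcs := mem_product.1 hc1.1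
    have hds := mem_product.1 hd1.1
    have h1 := mem_powerset.1 hcs.1
    have h2 := mem_powerset.1 hcs.2
    have h3 := mem_powerset.1 hds.1
    have h4 := mem_powerset.1 hds.2
    refine Prod.ext ?_ ?_
    · ext x
      by_cases hx : x < M
      · rcases Nat.eq_zero_or_pos x with rfl | hx0
        · exact iff_of_true hc1.2.1 hd1.2.1
        · rw [mem1 x hx hx0, mem1 x hx hx0, h]
      · exact iff_of_false (fun h' => hx (mem_range.1 (h1 h'))) (fun h' => hx (mem_range.1 (h3 h')))
    · ext x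
      by_cases hx : x < M
      · rcases Nat.eq_zero_or_pos x with rfl | hx0
        · exact iff_of_true hc1.2.2.1 hd1.2.2.1
        · rw [mem2 hc' x hx hx0, mem2 hd' x hx hx0, h]
      · exact iff_of_false (fun h' => hx (mem_range.1 (h2 h'))) (fun h' => hx (mem_range.1 (h4 h')))
  simpa using this

lemma diff_le (M k : ℕ) (hM : 1 ≤ M) :
    |(cq (M + 1) k : ℤ) - 4 * (cq M k : ℤ)| ≤ 3 ^ (M - 1) := by
  rw [cq_succ M k hM, cq_eq M k, mul_sum, ← sum_sub_distrib]
  have h1 : ∀ A ∈ (range M).powerset,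
      ∑ B ∈ (range M).powerset, (3 * ind M k A B + ind (M + 1) k A B) -
        4 * ∑ B ∈ (range M).powerset, ind M k A B =
      ∑ B ∈ (range M).powerset, (ind (M + 1) k A B - ind M k A B) := by
    intro A _
    rw [mul_sum, ← sum_sub_distrib]
    exact sum_congr rfl fun B _ => by ring
  rw [sum_congr rfl h1]
  have h2 : |∑ A ∈ (range M).powerset, ∑ B ∈ (range M).powerset,
      (ind (M + 1) k A B - ind M k A B)| ≤ ((bad M).card : ℤ) := by
    rw [bad, Om, card_filter, sum_product]
    push_cast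
    refine (abs_sum_le_sum_abs _ _).trans (sum_le_sum fun A _ => ?_)
    refine (abs_sum_le_sum_abs _ _).trans (sum_le_sum fun B _ => ?_)
    unfold ind
    rw [X_succ]
    by_cases hm : Miss A B M
    · by_cases hA : 0 ∈ A
      · by_cases hB : 0 ∈ B
        · simp only [hA, hB, hm, true_and, if_true]
          split_ifs <;> simp
        · simp [hB]
      · simp [hA]
    · simp [hm]
  refine h2.trans ?_
  exact_mod_cast bad_card M

theorem main : S_CAU := by
  intro M k hM
  have h := diff_le M k hM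
  have h' : |(cq (M + 1) k : ℝ) - 4 * (cq M k : ℝ)| ≤ 3 ^ (M - 1) := by exact_mod_cast h
  have e : q (M + 1) k - q M k = ((cq (M + 1) k : ℝ) - 4 * (cq M k : ℝ)) / 4 ^ M := by
    unfold q
    rw [pow_succ]
    field_simp
  rw [e, abs_div, abs_of_pos (by positivity : (0 : ℝ) < 4 ^ M), div_pow]
  refine div_le_div_of_nonneg_right (h'.trans ?_) (by positivity)
  exact pow_le_pow_right₀ (by norm_num) (by omega)

end Pool.Agent.R169.MD.Cau
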