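import Pool.Agent.R169.MD.Stm

/-!
# Certified lower bounds for averages of functions of the number of missed integers
-/

namespace Pool.Agent.R169.MD.Cert
open Finset Pool.Agent.R169.MD

/-! ### the computation -/

/-- expected number of future misses, scaled by `4^n` -/
def eloop (f : ℕ) : ℕ → ℕ → ℕ → ℕ → ℕ → ℕ :=
  Nat.rec (motive := fun _ => ℕ → ℕ → ℕ → ℕ → ℕ → ℕ)
   (fun _ _ _ W acc => Nat.add acc (Nat.mul 3 W))
   (fun _ ih A B R W acc =>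
    bif Nat.beq (Nat.land (Nat.shiftRight A 1) R) 0 then
     ih (Nat.shiftRight A 1) (Nat.shiftRight B 1) R
      (Nat.shiftRight W (Nat.add (Nat.land A 1) (Nat.land B 1)))
      (Nat.add acc (Nat.shiftRight W (Nat.add (Nat.land A 1) (Nat.land B 1))))
    else ih (Nat.shiftRight A 1) (Nat.shiftRight B 1) R
      (Nat.shiftRight W (Nat.add (Nat.land A 1) (Nat.land B 1))) acc) f

def cd (w c : ℕ) : ℕ := Nat.land (Nat.shiftRight w (Nat.mul 6 c)) 63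

def leaf (w s D n e c : ℕ) : ℕ :=
  Nat.sub (Nat.shiftLeft (cd w c) (Nat.mul 2 (Nat.sub (Nat.mul 2 D) n)))
    (Nat.shiftLeft (Nat.mul (cd s c) e) (Nat.mul 4 (Nat.sub D n)))

def st (ih : ℕ → ℕ → ℕ → ℕ → ℕ → ℕ) (n A B R c : ℕ) : ℕ :=
  bif Nat.beq (Nat.land A R) 0 then ih (Nat.succ n) A B R (Nat.succ c)
  else ih (Nat.succ n) A B R c

def stop (r T D n e c : ℕ) : Bool :=
  or (Nat.ble (Nat.shiftLeft (Nat.mul (cd r c) e) (Nat.mul 4 (Nat.sub D n))) T) (Nat.ble D n)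

def go (w s r T D : ℕ) (f : ℕ) : ℕ → ℕ → ℕ → ℕ → ℕ → ℕ :=
  Nat.rec (motive := fun _ => ℕ → ℕ → ℕ → ℕ → ℕ → ℕ)
  (fun _ _ _ _ _ => 0)
  (fun _ ih n A B R c =>
    bif Nat.beq (cd r c) 0 then
      Nat.shiftLeft (cd w c) (Nat.mul 2 (Nat.sub (Nat.mul 2 D) n)) else
    bif stop r T D n (eloop n A B R (Nat.shiftLeft 1 (Nat.mul 2 n)) 0) c then
      leaf w s D n (eloop n A B R (Nat.shiftLeft 1 (Nat.mul 2 n)) 0) c
    else
      Nat.add
      (Nat.add (st ih n A B (Nat.mul 2 R) c) (st ih n (Nat.lor A (Nat.shiftLeft 1 n)) B (Nat.mul 2 R) c))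
      (Nat.add (st ih n A (Nat.lor B (Nat.shiftLeft 1 n)) (Nat.succ (Nat.mul 2 R)) c)
        (st ih n (Nat.lor A (Nat.shiftLeft 1 n)) (Nat.lor B (Nat.shiftLeft 1 n))
          (Nat.succ (Nat.mul 2 R)) c))) f

/-- the symmetric start, `B = A` -/
def goS (w s r T D : ℕ) (f : ℕ) : ℕ → ℕ → ℕ → ℕ → ℕ :=
  Nat.rec (motive := fun _ => ℕ → ℕ → ℕ → ℕ → ℕ)
  (fun _ _ _ _ => 0)
  (fun m ih n A R c =>
    bif Nat.beq (cd r c) 0 then
      Nat.shiftLeft (cd w c) (Nat.mul 2 (Nat.sub (Nat.mul 2 D) n)) else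
    bif stop r T D n (eloop n A A R (Nat.shiftLeft 1 (Nat.mul 2 n)) 0) c then
      leaf w s D n (eloop n A A R (Nat.shiftLeft 1 (Nat.mul 2 n)) 0) c
    else
      Nat.add
      (Nat.add (st (fun n A _ R c => ih n A R c) n A A (Nat.mul 2 R) c)
        (st (fun n A _ R c => ih n A R c) n (Nat.lor A (Nat.shiftLeft 1 n)) A (Nat.succ (Nat.mul 2 R)) c))
      (Nat.mul 2 (st (go w s r T D m) n (Nat.lor A (Nat.shiftLeft 1 n)) A (Nat.mul 2 R) c))) f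

end Pool.Agent.R169.MD.Cert
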