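import Pool.Agent.R169.MD.Stm

namespace Pool.Agent.R169.MD.Diff
open Finset Pool.Agent.R169.MD

/-- positive differences -/
def Pos (n : ℕ) (S : Finset ℕ) : Finset ℕ := (Icc 1 (n - 1)).filter (fun d => ∃ i ∈ S, i + d ∈ S)

lemma diffs_eq (n : ℕ) (S : Finset ℕ) (hS : S ⊆ range n) (hne : S.Nonempty) :
    diffs S = insert 0 ((Pos n S).image (fun d : ℕ => (d : ℤ)) ∪
      (Pos n S).image (fun d : ℕ => -(d : ℤ))) := by
  obtain ⟨x0, hx0⟩ := hne
  ext z
  simp only [diffs, Pos, mem_image, mem_product, mem_insert, mem_union, mem_filter, mem_Icc,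
    Prod.exists]
  constructor
  · rintro ⟨x, y, ⟨hx, hy⟩, rfl⟩
    have hxn := mem_range.1 (hS hx)
    have hyn := mem_range.1 (hS hy)
    rcases lt_trichotomy x y with h | h | h
    · right; right
      refine ⟨y - x, ⟨⟨by omega, by omega⟩, x, hx, ?_⟩, by omega⟩
      rwa [show x + (y - x) = y by omega]
    · left; omega
    · right; left
      refine ⟨x - y, ⟨⟨by omega, by omega⟩, y, hy, ?_⟩, by omega⟩
      rwa [show y + (x - y) = x by omega]
  · rintro (rfl | ⟨d, ⟨_, i, hi, hid⟩, rfl⟩ | ⟨d, ⟨_, i, hi, hid⟩, rfl⟩)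
    · exact ⟨x0, x0, ⟨hx0, hx0⟩, by omega⟩
    · exact ⟨i + d, i, ⟨hid, hi⟩, by omega⟩
    · exact ⟨i, i + d, ⟨hi, hid⟩, by omega⟩

lemma card_diffs (n : ℕ) (S : Finset ℕ) (hS : S ⊆ range n) (hne : S.Nonempty) :
    (diffs S).card = 1 + 2 * (Pos n S).card := by
  rw [diffs_eq n S hS hne, card_insert_of_notMem, card_union_of_disjoint, card_image_of_injective,
    card_image_of_injective]
  · ring
  · intro x y h
    simp only at h
    omega
  · intro x y h
    simp only at h
    omega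
  · rw [disjoint_left]
    intro z hz hz'
    simp only [Pos, mem_image, mem_filter, mem_Icc] at hz hz'
    obtain ⟨d, ⟨⟨h1, _⟩, _⟩, rfl⟩ := hz
    obtain ⟨e, ⟨⟨h2, _⟩, _⟩, h⟩ := hz'
    omega
  · intro h
    simp only [Pos, mem_union, mem_image, mem_filter, mem_Icc] at h
    rcases h with ⟨d, ⟨⟨h1, _⟩, _⟩, h⟩ | ⟨d, ⟨⟨h1, _⟩, _⟩, h⟩ <;> omega

lemma card_not (n : ℕ) (S : Finset ℕ) (hS : S ⊆ range n) :
    ((range (n - 1)).filter (fun j => ¬ Md n S j)).card = (Pos n S).card := by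
  refine card_bij (fun j _ => n - 1 - j) ?_ ?_ ?_
  · intro j hj
    simp only [mem_filter, mem_range, Md, Pos, mem_Icc] at hj ⊢
    obtain ⟨hj, hm⟩ := hj
    push Not at hm
    obtain ⟨i, hi, hiS, hi2⟩ := hm
    have : i ≤ j := by omega
    refine ⟨⟨by omega, by omega⟩, i, hiS, ?_⟩
    rwa [show i + (n - 1 - j) = n - 1 - (j - i) by omega]
  · intro a ha b hb h
    simp only [mem_filter, mem_range] at ha hb h
    omega
  · intro d hd
    simp only [mem_filter, mem_range, Pos, mem_Icc] at hd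
    obtain ⟨⟨h1, h2⟩, i, hi, hid⟩ := hd
    have hidn := mem_range.1 (hS hid)
    refine ⟨n - 1 - d, ?_, by omega⟩
    simp only [mem_filter, mem_range, Md]
    refine ⟨by omega, ?_⟩
    intro hall
    refine hall i (by omega) ⟨hi, ?_⟩
    rwa [show n - 1 - (n - 1 - d - i) = i + d by omega]

theorem main : S_DIFF := by
  intro n S hS hne
  have h1 := card_diffs n S hS hne
  have h2 := card_not n S hS
  have h3 := card_filter_add_card_filter_not (s := range (n - 1)) (fun j => Md n S j)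
  rw [card_range] at h3
  obtain ⟨x0, hx0⟩ := hne
  have hn := mem_range.1 (hS hx0)
  omega

end Pool.Agent.R169.MD.Diff
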