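import Pool.Agent.R169.MD.Stm

namespace Pool.Agent.R169.MD.Odd
open Finset Filter Topology Pool.Agent.R169.MD

theorem main : S_DIFF → S_ODD := by
  intro hD k
  have hc : ∀ n, cP n (2 * k + 1) ≤ 1 := by
    intro n
    have hsub : ((range n).powerset.filter (fun S => 2 * n - 1 - (diffs S).card = 2 * k + 1)) ⊆
        {∅} := by
      intro S hS
      simp only [mem_filter, mem_powerset, mem_singleton] at hS ⊢
      by_contra hne
      have := hD n S hS.1 (nonempty_iff_ne_empty.2 hne)
      omega
    have := card_le_card hsub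
    simpa [cP] using this
  have hle : ∀ n, P n (2 * k + 1) ≤ (1 / 2 : ℝ) ^ n := by
    intro n
    unfold P
    rw [one_div, inv_pow, ← one_div]
    gcongr
    exact_mod_cast hc n
  have h0 : ∀ n, 0 ≤ P n (2 * k + 1) := by
    intro n
    unfold P
    positivity
  exact squeeze_zero h0 hle (tendsto_pow_atTop_nhds_zero_of_lt_one (by norm_num) (by norm_num))

end Pool.Agent.R169.MD.Odd
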