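import Pool.Agent.R169.MD.Stm

/-!
Project MD, piece RA: weighted union bound.
-/

set_option autoImplicit false

namespace Pool.Agent.R169.MD.RA
open Finset Pool.Agent.R169.MD

/-! ### restriction -/

theorem sum_one (h : Finset ℕ → ℝ) (m : ℕ) (hh : ∀ A, h (A ∩ range m) = h A) {M : ℕ} (hM : m ≤ M) :
    ∑ A ∈ (range M).powerset, h A = 2 ^ (M - m) * ∑ A ∈ (range m).powerset, h A := by
  induction M, hM using Nat.le_induction with
  | base => simp
  | succ M hM ih =>
    rw [range_add_one, sum_powerset_insert notMem_range_self]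
    have h1 : ∑ t ∈ (range M).powerset, h (insert M t) = ∑ t ∈ (range M).powerset, h t := by
      refine sum_congr rfl fun t _ => ?_
      rw [← hh (insert M t), ← hh t]
      congr 1
      ext i
      simp only [mem_inter, mem_insert, mem_range]
      constructor
      · rintro ⟨h1 | h1, h2⟩
        · omega
        · exact ⟨h1, h2⟩
      · rintro ⟨h1, h2⟩
        exact ⟨Or.inr h1, h2⟩
    rw [h1, ih, Nat.succ_sub hM, pow_succ]
    ring

theorem sum_two (F : Finset ℕ × Finset ℕ → ℝ) (m : ℕ)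
    (hF : ∀ A B, F (A ∩ range m, B ∩ range m) = F (A, B)) {M : ℕ} (hM : m ≤ M) :
    ∑ c ∈ Om M, F c = 4 ^ (M - m) * ∑ c ∈ Om m, F c := by
  have h1 : ∀ A B, F (A, B ∩ range m) = F (A, B) := by
    intro A B
    rw [← hF A (B ∩ range m), inter_assoc, inter_self, hF]
  have h2 : ∀ A B, F (A ∩ range m, B) = F (A, B) := by
    intro A B
    rw [← hF (A ∩ range m) B, inter_assoc, inter_self, hF]
  unfold Om
  rw [sum_product, sum_product]
  rw [sum_one (fun A => ∑ B ∈ (range M).powerset, F (A, B)) m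
    (fun A => sum_congr rfl fun B _ => h2 A B) hM]
  have h3 : ∀ A, ∑ B ∈ (range M).powerset, F (A, B)
      = 2 ^ (M - m) * ∑ B ∈ (range m).powerset, F (A, B) :=
    fun A => sum_one (fun B => F (A, B)) m (fun B => h1 A B) hM
  simp only [h3]
  rw [← mul_sum, ← mul_assoc, ← mul_pow]
  norm_num

theorem Miss_res (A B : Finset ℕ) {j m : ℕ} (hj : j < m) :
    Miss (A ∩ range m) (B ∩ range m) j ↔ Miss A B j := by
  unfold Miss
  refine forall₂_congr fun i hi => ?_
  rw [mem_range] at hi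
  simp only [mem_inter, mem_range]
  constructor
  · rintro h ⟨h1, h2⟩
    exact h ⟨⟨h1, by omega⟩, h2, by omega⟩
  · rintro h ⟨⟨h1, -⟩, h2, -⟩
    exact h ⟨h1, h2⟩

theorem X_res (A B : Finset ℕ) {n m : ℕ} (hn : n ≤ m) :
    X n (A ∩ range m) (B ∩ range m) = X n A B := by
  unfold X
  congr 1
  refine filter_congr fun j hj => ?_
  rw [mem_range] at hj
  exact Miss_res A B (by omega)

theorem Miss_comm (A B : Finset ℕ) (j : ℕ) : Miss A B j ↔ Miss B A j := by
  have key : ∀ A B : Finset ℕ, Miss A B j → Miss B A j := by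
    intro A B h i hi ⟨h1, h2⟩
    rw [mem_range] at hi
    refine h (j - i) (by rw [mem_range]; omega) ⟨h2, ?_⟩
    rwa [show j - (j - i) = i by omega]
  exact ⟨key A B, key B A⟩

theorem X_comm (n : ℕ) (A B : Finset ℕ) : X n A B = X n B A := by
  unfold X
  congr 1
  exact filter_congr fun j _ => Miss_comm A B j

theorem not_miss_zero {A B : Finset ℕ} (h0 : 0 ∈ A) (h1 : 0 ∈ B) : ¬ Miss A B 0 := by
  intro h
  exact h 0 (by simp) ⟨h0, by simpa using h1⟩

theorem X_le {A B : Finset ℕ} (h0 : 0 ∈ A) (h1 : 0 ∈ B) (n : ℕ) : X n A B ≤ n - 1 := by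
  unfold X
  have h2 : (range n).filter (fun j => Miss A B j) ⊆ Ico 1 n := by
    intro j hj
    rw [mem_filter, mem_range] at hj
    rw [mem_Ico]
    refine ⟨?_, hj.1⟩
    rcases Nat.eq_zero_or_pos j with h | h
    · exact absurd (h ▸ hj.2) (not_miss_zero h0 h1)
    · exact h
  have := card_le_card h2
  simpa using this

/-! ### the pieces -/

/-- the summand of `E_n` -/
noncomputable def e (n : ℕ) (c : Finset ℕ × Finset ℕ) : ℝ :=
  if 0 ∈ c.1 ∧ 0 ∈ c.2 ∧ Miss c.1 c.2 n then (2 : ℝ) ^ (X n c.1 c.2) else 0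

/-- the summand of `G` -/
noncomputable def g (n s : ℕ) (c : Finset ℕ × Finset ℕ) : ℝ :=
  if 0 ∈ c.1 ∧ 0 ∈ c.2 ∧ (∀ i ∈ Ico 1 s, i ∉ c.1 ∧ i ∉ c.2) ∧ s ∈ c.1 ∧ Miss c.1 c.2 n
  then (2 : ℝ) ^ (X n c.1 c.2) else 0

theorem G_eq (n s : ℕ) : G n s = ∑ c ∈ Om (n + 1), g n s c := rfl

theorem g_nonneg (n s : ℕ) (c : Finset ℕ × Finset ℕ) : 0 ≤ g n s c := by
  unfold g
  split_ifs <;> positivity

theorem e_nonneg (n : ℕ) (c : Finset ℕ × Finset ℕ) : 0 ≤ e n c := by
  unfold e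
  split_ifs <;> positivity

theorem e_res (n : ℕ) (A B : Finset ℕ) :
    e n (A ∩ range (n + 1), B ∩ range (n + 1)) = e n (A, B) := by
  unfold e
  simp only [mem_inter, mem_range, Nat.zero_lt_succ, and_true,
    Miss_res A B (Nat.lt_succ_self n), X_res A B (Nat.le_succ n)]

theorem G_swap (n s : ℕ) : ∑ c ∈ Om (n + 1), g n s c.swap = G n s := by
  rw [G_eq]
  refine sum_nbij' Prod.swap Prod.swap ?_ ?_ (by simp) (by simp) (by simp)
  · intro c hc
    unfold Om at *
    rw [mem_product] at *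
    exact ⟨hc.2, hc.1⟩
  · intro c hc
    unfold Om at *
    rw [mem_product] at *
    exact ⟨hc.2, hc.1⟩

theorem point {n : ℕ} {c : Finset ℕ × Finset ℕ} (hc : c ∈ Om (n + 1)) :
    e n c ≤ (if c = ({0}, {0}) then (2 : ℝ) ^ (n - 1) else 0)
      + ∑ s ∈ Ico 1 n, (g n s c + g n s c.swap) := by
  obtain ⟨A, B⟩ := c
  have hsum : 0 ≤ ∑ s ∈ Ico 1 n, (g n s (A, B) + g n s (A, B).swap) :=
    sum_nonneg fun s _ => add_nonneg (g_nonneg _ _ _) (g_nonneg _ _ _)
  have hite : 0 ≤ (if (A, B) = (({0} : Finset ℕ), ({0} : Finset ℕ)) then (2 : ℝ) ^ (n - 1) else 0) := by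
    split_ifs <;> positivity
  by_cases h : 0 ∈ A ∧ 0 ∈ B ∧ Miss A B n
  swap
  · have : e n (A, B) = 0 := if_neg h
    rw [this]
    exact add_nonneg hite hsum
  obtain ⟨h0, h1, hm⟩ := h
  have he : e n (A, B) = (2 : ℝ) ^ (X n A B) := if_pos ⟨h0, h1, hm⟩
  rw [he]
  have hnA : n ∉ A := fun hh => hm n (by simp) ⟨hh, by simpa using h1⟩
  have hnB : n ∉ B := fun hh => hm 0 (by simp) ⟨h0, by simpa using hh⟩
  unfold Om at hc
  rw [mem_product, mem_powerset, mem_powerset] at hc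
  by_cases hex : ∃ s, s ∈ Ico 1 n ∧ (s ∈ A ∨ s ∈ B)
  · classical
    set s := Nat.find hex with hs
    obtain ⟨hs1, hs2⟩ := Nat.find_spec hex
    rw [← hs] at hs1 hs2
    have hmin : ∀ i ∈ Ico 1 s, i ∉ A ∧ i ∉ B := by
      intro i hi
      rw [mem_Ico] at hi hs1
      have h3 := Nat.find_min hex hi.2
      by_contra hcon
      apply h3
      refine ⟨by rw [mem_Ico]; omega, ?_⟩
      tauto
    have hge : (2 : ℝ) ^ (X n A B) ≤ g n s (A, B) + g n s (A, B).swap := by
      rcases hs2 with h2 | h2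
      · have : g n s (A, B) = (2 : ℝ) ^ (X n A B) := if_pos ⟨h0, h1, hmin, h2, hm⟩
        rw [this]
        linarith [g_nonneg n s (A, B).swap]
      · have : g n s (A, B).swap = (2 : ℝ) ^ (X n B A) :=
          if_pos ⟨h1, h0, fun i hi => (hmin i hi).symm, h2, (Miss_comm A B n).1 hm⟩
        rw [this, X_comm n A B]
        linarith [g_nonneg n s (A, B)]
    have h4 := single_le_sum (f := fun s => g n s (A, B) + g n s (A, B).swap)
      (fun s _ => add_nonneg (g_nonneg _ _ _) (g_nonneg _ _ _)) hs1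
    linarith
  · have hA : A = {0} := by
      ext i
      rw [mem_singleton]
      constructor
      · intro hi
        by_contra hne
        have h3 := mem_range.1 (hc.1 hi)
        have h4 : i ≠ n := fun hh => hnA (hh ▸ hi)
        exact hex ⟨i, by rw [mem_Ico]; omega, Or.inl hi⟩
      · intro hi
        rw [hi]; exact h0
    have hB : B = {0} := by
      ext i
      rw [mem_singleton]
      constructor
      · intro hi
        by_contra hne
        have h3 := mem_range.1 (hc.2 hi)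
        have h4 : i ≠ n := fun hh => hnB (hh ▸ hi)
        exact hex ⟨i, by rw [mem_Ico]; omega, Or.inr hi⟩
      · intro hi
        rw [hi]; exact h1
    have h5 : (2 : ℝ) ^ (X n A B) ≤ 2 ^ (n - 1) :=
      pow_le_pow_right₀ (by norm_num) (X_le h0 h1 n)
    rw [if_pos (by rw [hA, hB])]
    linarith

theorem E_le (n : ℕ) : ∑ c ∈ Om (n + 1), e n c ≤ 2 ^ (n - 1) + 2 * ∑ s ∈ Ico 1 n, G n s := by
  refine (sum_le_sum fun c hc => point hc).trans ?_
  rw [sum_add_distrib]
  have h1 : ∑ c ∈ Om (n + 1), (if c = (({0} : Finset ℕ), ({0} : Finset ℕ)) then (2 : ℝ) ^ (n - 1) else 0)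
      ≤ 2 ^ (n - 1) := by
    rw [sum_ite_eq']
    split_ifs <;> [exact le_rfl; positivity]
  have h2 : ∑ c ∈ Om (n + 1), ∑ s ∈ Ico 1 n, (g n s c + g n s c.swap) = 2 * ∑ s ∈ Ico 1 n, G n s := by
    rw [sum_comm, mul_sum]
    refine sum_congr rfl fun s _ => ?_
    rw [sum_add_distrib, ← G_eq, G_swap]
    ring
  linarith

theorem last {M k : ℕ} (hk : 1 ≤ k) (c : Finset ℕ × Finset ℕ) :
    (if 0 ∈ c.1 ∧ 0 ∈ c.2 ∧ X M c.1 c.2 = k then (2 : ℝ) ^ k else 0)
      ≤ ∑ n ∈ Ico 1 M, 2 * e n c := by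
  split_ifs with h
  swap
  · exact sum_nonneg fun n _ => mul_nonneg (by norm_num) (e_nonneg n c)
  obtain ⟨h0, h1, hX⟩ := h
  have hne : ((range M).filter (fun j => Miss c.1 c.2 j)).Nonempty := by
    rw [← card_pos]
    have : X M c.1 c.2 = ((range M).filter (fun j => Miss c.1 c.2 j)).card := rfl
    omega
  set n := ((range M).filter (fun j => Miss c.1 c.2 j)).max' hne with hn
  have hmem := max'_mem _ hne
  rw [← hn, mem_filter, mem_range] at hmem
  have hn1 : 1 ≤ n := by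
    rcases Nat.eq_zero_or_pos n with h | h
    · exact absurd (h ▸ hmem.2) (not_miss_zero h0 h1)
    · exact h
  have heq : (range M).filter (fun j => Miss c.1 c.2 j)
      = insert n ((range n).filter (fun j => Miss c.1 c.2 j)) := by
    ext j
    rw [mem_insert, mem_filter, mem_filter, mem_range, mem_range]
    constructor
    · intro hj
      have h3 : j ≤ n := le_max' _ j (by rw [mem_filter, mem_range]; exact hj)
      rcases Nat.lt_or_ge j n with h4 | h4
      · exact Or.inr ⟨h4, hj.2⟩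
      · exact Or.inl (le_antisymm h3 h4)
    · rintro (h3 | h3)
      · rw [h3]; exact hmem
      · exact ⟨by omega, h3.2⟩
  have hXX : X M c.1 c.2 = X n c.1 c.2 + 1 := by
    unfold X
    rw [heq, card_insert_of_notMem (by simp)]
  have he : e n c = (2 : ℝ) ^ (X n c.1 c.2) := if_pos ⟨h0, h1, hmem.2⟩
  have h4 := single_le_sum (f := fun n => 2 * e n c)
    (fun n _ => mul_nonneg (by norm_num) (e_nonneg n c)) (mem_Ico.2 ⟨hn1, hmem.1⟩ : n ∈ Ico 1 M)
  rw [he, ← pow_succ', ← hXX, hX] at h4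
  exact h4

theorem main : S_RA := by
  intro M k hk
  have h1 : q M k * 2 ^ k = 4 / 4 ^ M *
      ∑ c ∈ Om M, (if 0 ∈ c.1 ∧ 0 ∈ c.2 ∧ X M c.1 c.2 = k then (2 : ℝ) ^ k else 0) := by
    unfold q cq
    rw [← sum_filter, sum_const, nsmul_eq_mul]
    ring
  rw [h1]
  have h2 : ∑ c ∈ Om M, (if 0 ∈ c.1 ∧ 0 ∈ c.2 ∧ X M c.1 c.2 = k then (2 : ℝ) ^ k else 0)
      ≤ ∑ n ∈ Ico 1 M, 2 * (4 ^ (M - (n + 1)) * (2 ^ (n - 1) + 2 * ∑ s ∈ Ico 1 n, G n s)) := by
    refine (sum_le_sum fun c _ => last hk c).trans ?_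
    rw [sum_comm]
    refine sum_le_sum fun n hn => ?_
    rw [mem_Ico] at hn
    rw [← mul_sum, sum_two (e n) (n + 1) (e_res n) (by omega)]
    have := mul_le_mul_of_nonneg_left (E_le n) (by positivity : (0 : ℝ) ≤ 4 ^ (M - (n + 1)))
    linarith
  refine (mul_le_mul_of_nonneg_left h2 (by positivity)).trans (le_of_eq ?_)
  rw [mul_sum]
  refine sum_congr rfl fun n hn => ?_
  rw [mem_Ico] at hn
  have h3 : (4 : ℝ) ^ M = 4 ^ (M - (n + 1)) * 4 ^ n * 4 := by
    rw [← pow_add, ← pow_succ]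
    congr 1
    omega
  rw [h3]
  have h4 : (4 : ℝ) ^ (M - (n + 1)) ≠ 0 := by positivity
  have h5 : (4 : ℝ) ^ n ≠ 0 := by positivity
  field_simp

end Pool.Agent.R169.MD.RA
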