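import Pool.Agent.R169.MD.Stm
/-!
MD-RB: bound for `G n s` when `s < n ≤ 2 s` (MP_7c207a_co).
-/
namespace Pool.Agent.R169.MD.RB
open Finset Pool.Agent.R169.MD

/-- product formula for sums over pairs of subsets -/
theorem prodlem (w : ℕ → Prop → Prop → ℝ) (U : Finset ℕ) :
    ∑ A ∈ U.powerset, ∑ B ∈ U.powerset, ∏ j ∈ U, w j (j ∈ A) (j ∈ B)
      = ∏ j ∈ U, ((w j False False + w j False True) + (w j True False + w j True True)) := by
  induction U using Finset.induction_on with
  | empty => simp
  | insert x U hx ih =>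
    rw [sum_powerset_insert hx, prod_insert hx, ← ih]
    have h1 : ∀ A : Finset ℕ, ∑ B ∈ (insert x U).powerset, ∏ j ∈ insert x U, w j (j ∈ A) (j ∈ B)
        = ∑ B ∈ U.powerset, ((∏ j ∈ insert x U, w j (j ∈ A) (j ∈ B))
          + ∏ j ∈ insert x U, w j (j ∈ A) (j ∈ insert x B)) := by
      intro A
      rw [sum_powerset_insert hx, ← sum_add_distrib]
    simp_rw [h1]
    rw [← sum_add_distrib, mul_sum]
    refine sum_congr rfl (fun A hA => ?_)
    rw [← sum_add_distrib, mul_sum]
    refine sum_congr rfl (fun B hB => ?_)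
    rw [mem_powerset] at hA hB
    have hxA : x ∉ A := fun h => hx (hA h)
    have hxB : x ∉ B := fun h => hx (hB h)
    have e1 : ∀ (C : Finset ℕ), ∀ i ∈ U, (i ∈ insert x C) = (i ∈ C) := by
      intro C i hi
      have : i ≠ x := fun h => hx (h ▸ hi)
      simp [this]
    rw [prod_insert hx, prod_insert hx, prod_insert hx, prod_insert hx]
    rw [prod_congr rfl (fun i hi => by rw [e1 B i hi] : ∀ i ∈ U, w i (i ∈ A) (i ∈ insert x B)
      = w i (i ∈ A) (i ∈ B)),
      prod_congr rfl (fun i hi => by rw [e1 A i hi] : ∀ i ∈ U, w i (i ∈ insert x A) (i ∈ B)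
      = w i (i ∈ A) (i ∈ B)),
      prod_congr rfl (fun i hi => by rw [e1 A i hi, e1 B i hi] :
        ∀ i ∈ U, w i (i ∈ insert x A) (i ∈ insert x B) = w i (i ∈ A) (i ∈ B))]
    simp only [hxA, hxB, mem_insert_self]
    ring

open Classical in
/-- the weights -/
noncomputable def wt (n s j : ℕ) (a b : Prop) : ℝ :=
  if j = 0 then (if a ∧ b then 1 else 0)
  else if j < s then (if ¬ a ∧ ¬ b then 2 else 0)
  else if j = s then (if a then 1 else 0)
  else if j < n then (if ¬ a ∧ ¬ b then 2 else 1)
  else (if ¬ a ∧ ¬ b then 1 else 0)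

theorem wt_nonneg (n s j : ℕ) (a b : Prop) : 0 ≤ wt n s j a b := by
  unfold wt
  split_ifs <;> norm_num

theorem main : S_RB := by
  intro n s hs hsn _
  have hG : G n s ≤ ∑ A ∈ (range (n + 1)).powerset, ∑ B ∈ (range (n + 1)).powerset,
      ∏ j ∈ range (n + 1), wt n s j (j ∈ A) (j ∈ B) := by
    unfold G Om
    rw [sum_product]
    refine sum_le_sum (fun A _ => sum_le_sum (fun B _ => ?_))
    simp only
    split_ifs with h
    · obtain ⟨h0A, h0B, h1, hsA, hM⟩ := h
      have hX : (2 : ℝ) ^ (X n A B) = ∏ j ∈ range n, (if Miss A B j then 2 else 1) := by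
        unfold X
        rw [← prod_filter, prod_const]
      have hnA : n ∉ A := fun hh => hM n (by simp) ⟨hh, by simpa using h0B⟩
      have hnB : n ∉ B := fun hh => hM 0 (by simp) ⟨h0A, by simpa using hh⟩
      rw [hX, prod_range_succ]
      have hlast : wt n s n (n ∈ A) (n ∈ B) = 1 := by
        unfold wt
        rw [if_neg (by omega), if_neg (by omega), if_neg (by omega), if_neg (by omega),
          if_pos ⟨hnA, hnB⟩]
      rw [hlast, mul_one]
      refine prod_le_prod (fun j _ => by split_ifs <;> norm_num) (fun j hj => ?_)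
      rw [mem_range] at hj
      rcases Nat.eq_zero_or_pos j with rfl | hj0
      · have hw : wt n s 0 (0 ∈ A) (0 ∈ B) = 1 := by
          unfold wt
          rw [if_pos rfl, if_pos ⟨h0A, h0B⟩]
        rw [hw, if_neg]
        intro hm
        exact hm 0 (by simp) ⟨h0A, by simpa using h0B⟩
      rcases lt_trichotomy j s with hjs | hjs | hjs
      · have hw : wt n s j (j ∈ A) (j ∈ B) = 2 := by
          unfold wt
          rw [if_neg hj0.ne', if_pos hjs, if_pos (h1 j (by rw [mem_Ico]; omega))]
        rw [hw]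
        split_ifs <;> norm_num
      · have hw : wt n s j (j ∈ A) (j ∈ B) = 1 := by
          unfold wt
          rw [if_neg hj0.ne', if_neg (by omega), if_pos hjs, hjs, if_pos hsA]
        rw [hw, if_neg]
        intro hm
        rw [hjs] at hm
        exact hm s (by simp) ⟨hsA, by simpa using h0B⟩
      · have hw : wt n s j (j ∈ A) (j ∈ B) = if j ∉ A ∧ j ∉ B then 2 else 1 := by
          unfold wt
          rw [if_neg hj0.ne', if_neg (by omega), if_neg (by omega), if_pos hj]
          congr
        rw [hw]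
        by_cases hm : Miss A B j
        · rw [if_pos hm, if_pos]
          refine ⟨fun hh => hm j (by simp) ⟨hh, by simpa using h0B⟩,
            fun hh => hm 0 (by simp) ⟨h0A, by simpa using hh⟩⟩
        · rw [if_neg hm]
          split_ifs <;> norm_num
    · exact prod_nonneg (fun j _ => wt_nonneg _ _ _ _ _)
  refine hG.trans ?_
  rw [prodlem]
  -- evaluate the product
  have hval : ∀ j, (wt n s j False False + wt n s j False True)
      + (wt n s j True False + wt n s j True True)
      = if j = 0 then 1 else if j < s then 2 else if j = s then 2 else if j < n then 5 else 1 := by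
    intro j
    unfold wt
    split_ifs <;> norm_num at *
  rw [prod_congr rfl (fun j _ => hval j)]
  obtain ⟨a, rfl⟩ : ∃ a, s = a + 1 := ⟨s - 1, by omega⟩
  obtain ⟨b, rfl⟩ : ∃ b, n = (a + 1) + 1 + b := ⟨n - (a + 2), by omega⟩
  have hp : ∏ j ∈ range ((a + 1) + 1 + b + 1), (if j = 0 then (1 : ℝ) else if j < a + 1 then 2
      else if j = a + 1 then 2 else if j < (a + 1) + 1 + b then 5 else 1) = 2 ^ a * 2 * 5 ^ b := by
    have hf : ∀ f : ℕ → ℝ, f 0 = 1 → (∀ k < a, f (k + 1) = 2) → f (a + 1) = 2 →
        (∀ k < b, f (a + 1 + 1 + k) = 5) → f (a + 1 + 1 + b) = 1 →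
        ∏ j ∈ range ((a + 1) + 1 + b + 1), f j = 2 ^ a * 2 * 5 ^ b := by
      intro f f0 f1 f2 f3 f4
      rw [prod_range_succ, prod_range_add, prod_range_succ, prod_range_succ', f0, f2, f4,
        prod_congr rfl (fun k hk => f1 k (mem_range.1 hk)),
        prod_congr rfl (fun k hk => f3 k (mem_range.1 hk))]
      simp
    apply hf
    · rw [if_pos rfl]
    · intro k hk
      rw [if_neg (by omega), if_pos (by omega)]
    · rw [if_neg (by omega), if_neg (by omega), if_pos rfl]
    · intro k hk
      rw [if_neg (by omega), if_neg (by omega), if_neg (by omega), if_pos (by omega)]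
    · rw [if_neg (by omega), if_neg (by omega), if_neg (by omega), if_neg (by omega)]
  rw [hp, show a + 1 + 1 + b - 1 - (a + 1) = b by omega, show a + 1 - 1 = a by omega,
    pow_add, pow_succ, pow_succ, div_pow, div_pow, one_pow,
    show (4 : ℝ) ^ a = 2 ^ a * 2 ^ a by rw [← mul_pow]; norm_num]
  have h2 : (2 : ℝ) ^ a ≠ 0 := by positivity
  have h4 : (4 : ℝ) ^ b ≠ 0 := by positivity
  apply le_of_eq
  field_simp
  norm_num

end Pool.Agent.R169.MD.RB
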