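import Pool.Agent.R169.MD.Stm

/-! Piece MD-RC: the transfer potential bound for `G n s` when `2 s < n`. -/

set_option autoImplicit false

namespace Pool.Agent.R169.MD.RC
open Finset

/-! ### toggling -/

/-- put `x` into `A` or remove it -/
def upd (A : Finset ℕ) (x : ℕ) (a : Bool) : Finset ℕ := if a then insert x A else A.erase x

lemma mem_upd_self {A : Finset ℕ} {x : ℕ} {a : Bool} : x ∈ upd A x a ↔ a = true := by
  unfold upd
  cases a <;> simp

lemma mem_upd_ne {A : Finset ℕ} {x j : ℕ} {a : Bool} (h : j ≠ x) :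
    j ∈ upd A x a ↔ j ∈ A := by
  unfold upd
  cases a <;> simp [h]

lemma sum_upd (N x : ℕ) (hx : x < N) (F : Finset ℕ → ℝ) :
    ∑ A ∈ (range N).powerset, F A =
      (1 / 2) * ∑ A ∈ (range N).powerset, (F (upd A x true) + F (upd A x false)) := by
  have hr : range N = insert x ((range N).erase x) := (insert_erase (mem_range.2 hx)).symm
  rw [hr, sum_powerset_insert (notMem_erase x _), sum_powerset_insert (notMem_erase x _),
    ← sum_add_distrib, ← sum_add_distrib, mul_sum]
  refine sum_congr rfl fun A hA => ?_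
  have hxA : x ∉ A := fun h => notMem_erase x _ (mem_powerset.1 hA h)
  have e1 : upd A x true = insert x A := rfl
  have e2 : upd A x false = A := erase_eq_of_notMem hxA
  have e3 : upd (insert x A) x true = insert x A := insert_eq_of_mem (mem_insert_self _ _)
  have e4 : upd (insert x A) x false = A := erase_insert hxA
  rw [e1, e2, e3, e4]
  ring

lemma sum_pair (N x : ℕ) (hx : x < N) (F : Finset ℕ × Finset ℕ → ℝ) :
    ∑ c ∈ Om N, F c =
      (1 / 4) * ∑ c ∈ Om N, ∑ t : Bool × Bool, F (upd c.1 x t.1, upd c.2 x t.2) := by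
  unfold Om
  rw [sum_product, sum_product]
  have h1 : ∀ A, ∑ B ∈ (range N).powerset, F (A, B) =
      (1 / 2) * ∑ B ∈ (range N).powerset, (F (A, upd B x true) + F (A, upd B x false)) :=
    fun A => sum_upd N x hx (fun B => F (A, B))
  rw [sum_upd N x hx (fun A => ∑ B ∈ (range N).powerset, F (A, B)), mul_sum, mul_sum]
  refine sum_congr rfl fun A _ => ?_
  rw [h1, h1, ← mul_add, ← sum_add_distrib, ← mul_assoc]
  norm_num
  refine sum_congr rfl fun B _ => ?_
  rw [Fintype.sum_prod_type]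
  simp only [Fintype.sum_bool]

/-- states of a pair of positions -/
abbrev St := Bool × Bool × Bool × Bool

/-- set the memberships of `i` and `n - i` -/
def T (n i : ℕ) (t : St) (c : Finset ℕ × Finset ℕ) : Finset ℕ × Finset ℕ :=
  (upd (upd c.1 i t.1) (n - i) t.2.2.1, upd (upd c.2 i t.2.1) (n - i) t.2.2.2)

lemma sum_T (n i : ℕ) (hi : i ≤ n) (F : Finset ℕ × Finset ℕ → ℝ) :
    ∑ c ∈ Om (n + 1), F c = (1 / 16) * ∑ c ∈ Om (n + 1), ∑ t : St, F (T n i t c) := by
  rw [sum_pair (n + 1) (n - i) (by omega) F,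
    sum_pair (n + 1) i (by omega) (fun c => ∑ t : Bool × Bool,
      F (upd c.1 (n - i) t.1, upd c.2 (n - i) t.2)), ← mul_assoc]
  norm_num
  simp only [Fintype.sum_prod_type, Fintype.sum_bool, T]

/-- the states of a configuration -/
def sg (n : ℕ) (c : Finset ℕ × Finset ℕ) (j : ℕ) : St :=
  (decide (j ∈ c.1), decide (j ∈ c.2), decide (n - j ∈ c.1), decide (n - j ∈ c.2))

lemma sg_T_self {n i : ℕ} (t : St) (c : Finset ℕ × Finset ℕ) (h : i ≠ n - i) :
    sg n (T n i t c) i = t := by
  obtain ⟨a, b, e, f⟩ := t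
  unfold sg T
  simp only [mem_upd_self, mem_upd_ne h, Bool.decide_eq_true]

lemma sg_T_ne {n i j : ℕ} (t : St) (c : Finset ℕ × Finset ℕ) (h1 : j ≠ i) (h2 : j ≠ n - i)
    (h3 : n - j ≠ i) (h4 : n - j ≠ n - i) : sg n (T n i t c) j = sg n c j := by
  unfold sg T
  simp only [mem_upd_ne h1, mem_upd_ne h2, mem_upd_ne h3, mem_upd_ne h4]

/-! ### weights -/

def zb (t : St) : Bool := !t.2.2.1 && !t.2.2.2

noncomputable def w (t : St) : ℝ :=
  if t.2.1 then (if zb t then 3 / 2 else 17 / 20) else (if zb t then 203 / 100 else 6 / 5)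

noncomputable def facLow (t : St) : ℝ := if !t.1 && !t.2.1 then 2 else 0

noncomputable def facS (t : St) : ℝ :=
  if t.1 && !t.2.2.2 && !(t.2.1 && t.2.2.1) then 1 else 0

noncomputable def facGen (t u : St) : ℝ :=
  if (t.1 && t.2.2.2) || (t.2.1 && t.2.2.1) then 0
  else (if !t.1 && !t.2.1 && !u.2.1 then 2 else 1) *
    (if !u.2.2.1 && !u.2.2.2 && !t.2.2.2 then 2 else 1)

noncomputable def fac (s j : ℕ) (t u : St) : ℝ :=
  if j < s then facLow t else if j = s then facS t else facGen t u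

noncomputable def pot (m s j : ℕ) (t : St) : ℝ :=
  if j + s ≤ m then w t else (if zb t then 2 else 1)

noncomputable def lam (s i : ℕ) : ℝ :=
  if i < s then 563 / 800 else if i = s then 5 / 16 else 24 / 25

lemma w_pos (t : St) : 0 < w t := by
  unfold w
  split_ifs <;> norm_num

lemma fac_nonneg (s j : ℕ) (t u : St) : 0 ≤ fac s j t u := by
  unfold fac facLow facS facGen
  split_ifs <;> norm_num

lemma pot_nonneg (m s j : ℕ) (t : St) : 0 ≤ pot m s j t := by
  unfold pot
  split_ifs
  · exact (w_pos t).le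
  · norm_num
  · norm_num

lemma lam_nonneg (s i : ℕ) : 0 ≤ lam s i := by
  unfold lam
  split_ifs <;> norm_num

lemma step_low (m s i : ℕ) : ∑ t : St, facLow t * pot m s i t ≤ 16 * (563 / 800) := by
  unfold pot facLow w zb
  simp only [Fintype.sum_prod_type, Fintype.sum_bool]
  by_cases h : i + s ≤ m
  · simp only [h, if_true]
    norm_num
  · simp only [h, if_false]
    norm_num

lemma step_s (m s i : ℕ) : ∑ t : St, facS t * pot m s i t ≤ 16 * (5 / 16) := by
  unfold pot facS w zb
  simp only [Fintype.sum_prod_type, Fintype.sum_bool]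
  by_cases h : i + s ≤ m
  · simp only [h, if_true]
    norm_num
  · simp only [h, if_false]
    norm_num

lemma step_gen (m s i : ℕ) (u : St) :
    ∑ t : St, facGen t u * pot m s i t ≤ 16 * (24 / 25) * w u := by
  obtain ⟨a, b, e, f⟩ := u
  unfold pot facGen w zb
  simp only [Fintype.sum_prod_type, Fintype.sum_bool]
  by_cases h : i + s ≤ m
  · simp only [h, if_true]
    cases a <;> cases b <;> cases e <;> cases f <;> norm_num
  · simp only [h, if_false]
    cases a <;> cases b <;> cases e <;> cases f <;> norm_num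

lemma step (m s i : ℕ) (hi : i ≤ m) (u : St) :
    ∑ t : St, fac s i t u * pot m s i t ≤
      16 * lam s i * (if s < i then pot m s (i - s) u else 1) := by
  unfold fac lam
  by_cases h1 : i < s
  · simp only [h1, if_true, if_neg (not_lt.2 h1.le), mul_one]
    exact step_low m s i
  · by_cases h2 : i = s
    · subst h2
      simp only [lt_irrefl, if_true, if_false, mul_one]
      exact step_s m i i
    · have h3 : s < i := lt_of_le_of_ne (not_lt.1 h1) (Ne.symm h2)
      simp only [h1, h2, h3, if_true, if_false]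
      have h4 : pot m s (i - s) u = w u := by
        unfold pot
        rw [if_pos (by omega)]
      rw [h4]
      exact step_gen m s i u

/-! ### the chain -/

noncomputable def k0 (t : St) : ℝ := if t = (true, true, false, false) then 1 else 0

noncomputable def kmid (t : St) : ℝ :=
  if t.1 && t.2.1 then 0 else if !t.1 && !t.2.1 then 2 else 1

noncomputable def K (n : ℕ) (σ : ℕ → St) : ℝ :=
  k0 (σ 0) * (if n % 2 = 0 then kmid (σ (n / 2)) else 1)

noncomputable def R (m s i : ℕ) (σ : ℕ → St) : ℝ :=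
  (∏ j ∈ Ico 1 i, fac s j (σ j) (σ (j - s))) *
    ∏ j ∈ Ico (max 1 (i + 1 - s)) i, pot m s j (σ j)

noncomputable def Phi (m s i : ℕ) (σ : ℕ → St) : ℝ :=
  (∏ j ∈ Ico 1 (i + 1), fac s j (σ j) (σ (j - s))) *
    ∏ j ∈ Ico (max 1 (i + 1 - s)) (i + 1), pot m s j (σ j)

lemma k0_nonneg (t : St) : 0 ≤ k0 t := by unfold k0; split_ifs <;> norm_num
lemma kmid_nonneg (t : St) : 0 ≤ kmid t := by unfold kmid; split_ifs <;> norm_num

lemma K_nonneg (n : ℕ) (σ : ℕ → St) : 0 ≤ K n σ := by
  unfold K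
  refine mul_nonneg (k0_nonneg _) ?_
  split_ifs
  · exact kmid_nonneg _
  · norm_num

lemma R_nonneg (m s i : ℕ) (σ : ℕ → St) : 0 ≤ R m s i σ :=
  mul_nonneg (prod_nonneg fun _ _ => fac_nonneg _ _ _ _) (prod_nonneg fun _ _ => pot_nonneg _ _ _ _)

lemma Phi_nonneg (m s i : ℕ) (σ : ℕ → St) : 0 ≤ Phi m s i σ :=
  mul_nonneg (prod_nonneg fun _ _ => fac_nonneg _ _ _ _) (prod_nonneg fun _ _ => pot_nonneg _ _ _ _)

lemma Phi_succ (m s i : ℕ) (hs : 1 ≤ s) (hi : 1 ≤ i) (σ : ℕ → St) :
    Phi m s i σ = R m s i σ * (fac s i (σ i) (σ (i - s)) * pot m s i (σ i)) := by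
  unfold Phi R
  rw [prod_Ico_succ_top hi, prod_Ico_succ_top (by omega : max 1 (i + 1 - s) ≤ i)]
  ring

lemma Phi_pred (m s i : ℕ) (hs : 1 ≤ s) (hi : 1 ≤ i) (σ : ℕ → St) :
    Phi m s (i - 1) σ = R m s i σ * (if s < i then pot m s (i - s) (σ (i - s)) else 1) := by
  unfold Phi R
  have e : i - 1 + 1 = i := by omega
  rw [e]
  by_cases h : s < i
  · rw [if_pos h]
    have e1 : max 1 (i - s) = i - s := by omega
    have e2 : max 1 (i + 1 - s) = i - s + 1 := by omega
    rw [e1, e2, prod_eq_prod_Ico_succ_bot (by omega : i - s < i)]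
    ring
  · rw [if_neg h, mul_one]
    have e1 : max 1 (i - s) = 1 := by omega
    have e2 : max 1 (i + 1 - s) = 1 := by omega
    rw [e1, e2]

lemma R_congr (m s i : ℕ) {σ τ : ℕ → St} (h : ∀ j < i, σ j = τ j) :
    R m s i σ = R m s i τ := by
  unfold R
  congr 1
  · refine prod_congr rfl fun j hj => ?_
    rw [mem_Ico] at hj
    rw [h j hj.2, h (j - s) (by omega)]
  · refine prod_congr rfl fun j hj => ?_
    rw [mem_Ico] at hj
    rw [h j hj.2]

lemma chain (n s i : ℕ) (hs : 1 ≤ s) (hi : 1 ≤ i) (him : i ≤ (n - 1) / 2) :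
    ∑ c ∈ Om (n + 1), K n (sg n c) * Phi ((n - 1) / 2) s i (sg n c) ≤
      lam s i * ∑ c ∈ Om (n + 1), K n (sg n c) * Phi ((n - 1) / 2) s (i - 1) (sg n c) := by
  set m := (n - 1) / 2 with hm
  rw [sum_T n i (by omega), mul_sum, mul_sum]
  refine sum_le_sum fun c _ => ?_
  have hT : ∀ t : St, ∀ j, j < i → sg n (T n i t c) j = sg n c j := fun t j hj =>
    sg_T_ne t c (by omega) (by omega) (by omega) (by omega)
  have hK : ∀ t : St, K n (sg n (T n i t c)) = K n (sg n c) := by
    intro t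
    unfold K
    rw [hT t 0 (by omega)]
    by_cases h : n % 2 = 0
    · rw [if_pos h, if_pos h, sg_T_ne t c (by omega) (by omega) (by omega) (by omega)]
    · rw [if_neg h, if_neg h]
  have hsum : ∑ t : St, K n (sg n (T n i t c)) * Phi m s i (sg n (T n i t c)) =
      K n (sg n c) * R m s i (sg n c) *
        ∑ t : St, fac s i t (sg n c (i - s)) * pot m s i t := by
    rw [mul_sum]
    refine sum_congr rfl fun t _ => ?_
    rw [hK t, Phi_succ m s i hs hi, R_congr m s i (hT t), sg_T_self t c (by omega),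
      hT t (i - s) (by omega)]
    ring
  rw [hsum, Phi_pred m s i hs hi]
  have h1 := step m s i him (sg n c (i - s))
  have h2 : 0 ≤ K n (sg n c) * R m s i (sg n c) := mul_nonneg (K_nonneg _ _) (R_nonneg _ _ _ _)
  calc 1 / 16 * (K n (sg n c) * R m s i (sg n c) *
        ∑ t : St, fac s i t (sg n c (i - s)) * pot m s i t) ≤
      1 / 16 * (K n (sg n c) * R m s i (sg n c) *
        (16 * lam s i * (if s < i then pot m s (i - s) (sg n c (i - s)) else 1))) := by
        have := mul_le_mul_of_nonneg_left h1 h2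
        linarith
    _ = _ := by ring

lemma chain_all (n s i : ℕ) (hs : 1 ≤ s) (him : i ≤ (n - 1) / 2) :
    ∑ c ∈ Om (n + 1), K n (sg n c) * Phi ((n - 1) / 2) s i (sg n c) ≤
      (∏ j ∈ Ico 1 (i + 1), lam s j) *
        ∑ c ∈ Om (n + 1), K n (sg n c) * Phi ((n - 1) / 2) s 0 (sg n c) := by
  induction i with
  | zero => simp
  | succ i ih =>
    have h1 := chain n s (i + 1) hs (by omega) him
    have h2 := ih (by omega)
    rw [prod_Ico_succ_top (by omega : 1 ≤ i + 1)]
    calc _ ≤ _ := h1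
      _ ≤ lam s (i + 1) * ((∏ j ∈ Ico 1 (i + 1), lam s j) *
        ∑ c ∈ Om (n + 1), K n (sg n c) * Phi ((n - 1) / 2) s 0 (sg n c)) :=
          mul_le_mul_of_nonneg_left h2 (lam_nonneg _ _)
      _ = _ := by ring

lemma prod_lam (s m : ℕ) (hs : 1 ≤ s) (hsm : s ≤ m) :
    ∏ j ∈ Ico 1 (m + 1), lam s j = (563 / 800) ^ (s - 1) * (5 / 16) * (24 / 25) ^ (m - s) := by
  rw [← prod_Ico_consecutive _ hs (by omega : s ≤ m + 1),
    prod_eq_prod_Ico_succ_bot (by omega : s < m + 1)]
  have h1 : ∏ j ∈ Ico 1 s, lam s j = (563 / 800) ^ (s - 1) := by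
    have h0 : ∀ j ∈ Ico 1 s, lam s j = 563 / 800 := by
      intro j hj
      rw [mem_Ico] at hj
      unfold lam
      rw [if_pos hj.2]
    rw [prod_congr rfl h0, prod_const, Nat.card_Ico]
  have h2 : lam s s = 5 / 16 := by
    unfold lam
    simp
  have h3 : ∏ j ∈ Ico (s + 1) (m + 1), lam s j = (24 / 25) ^ (m - s) := by
    have : ∀ j ∈ Ico (s + 1) (m + 1), lam s j = 24 / 25 := by
      intro j hj
      rw [mem_Ico] at hj
      unfold lam
      rw [if_neg (by omega), if_neg (by omega)]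
    rw [prod_congr rfl this, prod_const, Nat.card_Ico]
    congr 1
    omega
  rw [h1, h2, h3]
  ring

lemma card_Om (N : ℕ) : ((Om N).card : ℝ) = 4 ^ N := by
  unfold Om
  rw [card_product, card_powerset, card_range]
  push_cast
  rw [← mul_pow]
  norm_num

lemma base (n s m : ℕ) (hn : 1 ≤ n) :
    ∑ c ∈ Om (n + 1), K n (sg n c) * Phi m s 0 (sg n c) ≤ 4 ^ n * (1 / 4) := by
  have hPhi : ∀ σ, Phi m s 0 σ = 1 := by
    intro σ
    unfold Phi
    have : Ico (max 1 (0 + 1 - s)) (0 + 1) = ∅ := by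
      rw [Ico_eq_empty_iff]
      omega
    rw [this]
    simp
  simp only [hPhi, mul_one]
  rw [sum_T n 0 (by omega)]
  have hk0 : ∑ t : St, k0 t = 1 := by
    unfold k0
    rw [Finset.sum_ite_eq' univ (true, true, false, false) (fun _ => (1 : ℝ))]
    simp
  have h1 : ∀ c, ∑ t : St, K n (sg n (T n 0 t c)) =
      if n % 2 = 0 then kmid (sg n c (n / 2)) else 1 := by
    intro c
    have : ∀ t : St, K n (sg n (T n 0 t c)) =
        k0 t * (if n % 2 = 0 then kmid (sg n c (n / 2)) else 1) := by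
      intro t
      unfold K
      rw [sg_T_self t c (by omega)]
      by_cases h : n % 2 = 0
      · rw [if_pos h, if_pos h, sg_T_ne t c (by omega) (by omega) (by omega) (by omega)]
      · rw [if_neg h, if_neg h]
    rw [sum_congr rfl (fun t _ => this t), ← sum_mul, hk0, one_mul]
  simp only [h1]
  by_cases h : n % 2 = 0
  · simp only [if_pos h]
    rw [sum_pair (n + 1) (n / 2) (by omega)]
    have h2 : ∀ c : Finset ℕ × Finset ℕ, ∑ t : Bool × Bool,
        kmid (sg n (upd c.1 (n / 2) t.1, upd c.2 (n / 2) t.2) (n / 2)) = 4 := by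
      intro c
      unfold kmid sg
      simp only [mem_upd_self, Bool.decide_eq_true, Fintype.sum_prod_type, Fintype.sum_bool]
      norm_num
    simp only [h2, sum_const, nsmul_eq_mul, card_Om]
    rw [pow_succ]
    linarith
  · simp only [if_neg h, sum_const, nsmul_eq_mul, card_Om]
    rw [pow_succ]
    linarith

/-! ### the pointwise bound -/

/-- the factor of a missed number -/
noncomputable def mu (A B : Finset ℕ) (j : ℕ) : ℝ := if Miss A B j then 2 else 1

lemma mu_nonneg (A B : Finset ℕ) (j : ℕ) : 0 ≤ mu A B j := by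
  unfold mu
  split_ifs <;> norm_num

lemma mu_le_two (A B : Finset ℕ) (j : ℕ) : mu A B j ≤ 2 := by
  unfold mu
  split_ifs <;> norm_num

lemma pow_X (n : ℕ) (A B : Finset ℕ) : (2 : ℝ) ^ (X n A B) = ∏ j ∈ range n, mu A B j := by
  unfold X mu
  rw [prod_ite, prod_const, prod_const_one, mul_one]

lemma split_range (n : ℕ) (hn : 1 ≤ n) (f : ℕ → ℝ) :
    ∏ j ∈ range n, f j = f 0 * (∏ j ∈ Ico 1 ((n - 1) / 2 + 1), f j) *
      (if n % 2 = 0 then f (n / 2) else 1) * ∏ j ∈ Ico 1 ((n - 1) / 2 + 1), f (n - j) := by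
  rw [prod_Ico_reflect f 1 (by omega : (n - 1) / 2 + 1 ≤ n + 1), range_eq_Ico,
    prod_eq_prod_Ico_succ_bot (by omega : 0 < n)]
  have e : n + 1 - 1 = n := by omega
  rw [e, zero_add]
  by_cases h : n % 2 = 0
  · rw [if_pos h, ← prod_Ico_consecutive f (by omega : 1 ≤ (n - 1) / 2 + 1)
      (by omega : (n - 1) / 2 + 1 ≤ n), prod_eq_prod_Ico_succ_bot
      (by omega : (n - 1) / 2 + 1 < n)]
    have e1 : (n - 1) / 2 + 1 = n / 2 := by omega
    have e2 : n + 1 - ((n - 1) / 2 + 1) = (n - 1) / 2 + 1 + 1 := by omega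
    rw [e2, e1]
    ring
  · rw [if_neg h, ← prod_Ico_consecutive f (by omega : 1 ≤ (n - 1) / 2 + 1)
      (by omega : (n - 1) / 2 + 1 ≤ n)]
    have e2 : n + 1 - ((n - 1) / 2 + 1) = (n - 1) / 2 + 1 := by omega
    rw [e2]
    ring

lemma miss_iff {A B : Finset ℕ} {j : ℕ} :
    Miss A B j ↔ ∀ i, i ≤ j → i ∈ A → j - i ∉ B := by
  unfold Miss
  constructor
  · intro h i hi hA hB
    exact h i (mem_range.2 (by omega)) ⟨hA, hB⟩
  · intro h i hi hAB
    exact h i (by rw [mem_range] at hi; omega) hAB.1 hAB.2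

lemma pointwise (n s : ℕ) (hs : 1 ≤ s) (hn : 2 * s < n) (A B : Finset ℕ)
    (h0A : 0 ∈ A) (h0B : 0 ∈ B) (hlow : ∀ i ∈ Ico 1 s, i ∉ A ∧ i ∉ B) (hsA : s ∈ A)
    (hmiss : Miss A B n) :
    (2 : ℝ) ^ (X n A B) ≤
      K n (sg n (A, B)) * Phi ((n - 1) / 2) s ((n - 1) / 2) (sg n (A, B)) := by
  set m := (n - 1) / 2 with hm
  have hM := miss_iff.1 hmiss
  -- consequences of being missed
  have c1 : ∀ j, Miss A B j → j ∉ A ∧ j ∉ B := by
    intro j hj
    have hj' := miss_iff.1 hj
    constructor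
    · intro h
      have := hj' j le_rfl h
      rw [Nat.sub_self] at this
      exact this h0B
    · have := hj' 0 (Nat.zero_le _) h0A
      rwa [Nat.sub_zero] at this
  have c2 : ∀ j, s ≤ j → Miss A B j → j - s ∉ B := fun j hj hj' => miss_iff.1 hj' s hj hsA
  have hnA : n ∉ A := (c1 n hmiss).1
  have hnB : n ∉ B := (c1 n hmiss).2
  have hpair1 : ∀ j, j ≤ n → ¬ (j ∈ A ∧ n - j ∈ B) := fun j hj h => hM j hj h.1 h.2
  have hpair2 : ∀ j, j ≤ n → ¬ (j ∈ B ∧ n - j ∈ A) := by
    intro j hj h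
    refine hM (n - j) (by omega) h.2 ?_
    have : n - (n - j) = j := by omega
    rw [this]
    exact h.1
  rw [pow_X, split_range n (by omega) (mu A B)]
  -- the number 0
  have f0 : mu A B 0 = 1 := by
    unfold mu
    rw [if_neg]
    intro h
    exact (c1 0 h).1 h0A
  -- K
  have fK : (if n % 2 = 0 then mu A B (n / 2) else 1) ≤ K n (sg n (A, B)) := by
    unfold K
    have e0 : k0 (sg n (A, B) 0) = 1 := by
      unfold k0 sg
      rw [if_pos]
      simp only [h0A, h0B, Nat.sub_zero, hnA, hnB, decide_true, decide_false]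
    rw [e0, one_mul]
    by_cases h : n % 2 = 0
    · rw [if_pos h, if_pos h]
      have e1 := hpair1 (n / 2) (by omega)
      have e2 : n - n / 2 = n / 2 := by omega
      rw [e2] at e1
      unfold kmid sg
      simp only
      rw [if_neg (by simpa using e1)]
      by_cases hmi : Miss A B (n / 2)
      · have e3 := c1 _ hmi
        rw [if_pos (by simpa using e3)]
        exact mu_le_two _ _ _
      · have e4 : mu A B (n / 2) = 1 := if_neg hmi
        rw [e4]
        split_ifs <;> norm_num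
    · rw [if_neg h, if_neg h]
  -- the factors
  have fA : ∀ j ∈ Ico 1 (m + 1), mu A B j * (if s < j then mu A B (n - (j - s)) else 1) ≤
      fac s j (sg n (A, B) j) (sg n (A, B) (j - s)) := by
    intro j hj
    rw [mem_Ico] at hj
    unfold fac
    by_cases h1 : j < s
    · rw [if_pos h1, if_neg (by omega), mul_one]
      have e1 := hlow j (mem_Ico.2 ⟨hj.1, h1⟩)
      unfold facLow sg
      simp only
      rw [if_pos (by simpa using e1)]
      exact mu_le_two _ _ _
    · rw [if_neg h1]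
      by_cases h2 : j = s
      · subst h2
        rw [if_pos rfl, if_neg (lt_irrefl _), mul_one]
        have e1 : mu A B j = 1 := by
          unfold mu
          rw [if_neg]
          intro h
          exact (c1 j h).1 hsA
        rw [e1]
        have e2 : n - j ∉ B := fun h => hpair1 j (by omega) ⟨hsA, h⟩
        have e3 := hpair2 j (by omega)
        unfold facS sg
        simp only
        rw [if_pos]
        simp only [hsA, e2, decide_true, decide_false, Bool.not_false, Bool.and_true,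
          Bool.true_and, Bool.not_eq_true', Bool.and_eq_false_iff, decide_eq_false_iff_not]
        tauto
      · rw [if_neg h2, if_pos (by omega)]
        have e1 := hpair1 j (by omega)
        have e2 := hpair2 j (by omega)
        unfold facGen sg
        simp only
        rw [if_neg (by
          simp only [Bool.or_eq_true, Bool.and_eq_true, decide_eq_true_eq]
          tauto)]
        refine mul_le_mul ?_ ?_ (mu_nonneg _ _ _) (by split_ifs <;> norm_num)
        · by_cases hmi : Miss A B j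
          · have e3 := c1 j hmi
            have e4 := c2 j (by omega) hmi
            rw [if_pos (by simpa using ⟨e3, e4⟩)]
            exact mu_le_two _ _ _
          · have e4 : mu A B j = 1 := if_neg hmi
            rw [e4]
            split_ifs <;> norm_num
        · by_cases hmi : Miss A B (n - (j - s))
          · have e3 := c1 _ hmi
            have e4 := c2 _ (by omega) hmi
            have e5 : n - (j - s) - s = n - j := by omega
            rw [e5] at e4
            rw [if_pos (by simpa using ⟨e3, e4⟩)]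
            exact mu_le_two _ _ _
          · have e4 : mu A B (n - (j - s)) = 1 := if_neg hmi
            rw [e4]
            split_ifs <;> norm_num
  have fB : ∀ j ∈ Ico (m + 1 - s) (m + 1), mu A B (n - j) ≤ pot m s j (sg n (A, B) j) := by
    intro j hj
    rw [mem_Ico] at hj
    unfold pot
    rw [if_neg (by omega)]
    by_cases hmi : Miss A B (n - j)
    · have e3 := c1 _ hmi
      unfold zb sg
      simp only
      rw [if_pos (by simpa using e3)]
      exact mu_le_two _ _ _
    · have e4 : mu A B (n - j) = 1 := if_neg hmi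
      rw [e4]
      split_ifs <;> norm_num
  -- reindexing
  have hre : ∏ j ∈ Ico 1 (m + 1), (if s < j then mu A B (n - (j - s)) else 1) =
      ∏ j ∈ Ico 1 (m + 1 - s), mu A B (n - j) := by
    rw [← prod_Ico_consecutive _ (by omega : 1 ≤ s + 1) (by omega : s + 1 ≤ m + 1)]
    have e1 : ∏ j ∈ Ico 1 (s + 1), (if s < j then mu A B (n - (j - s)) else 1) = 1 := by
      refine prod_eq_one fun j hj => ?_
      rw [mem_Ico] at hj
      rw [if_neg (by omega)]
    rw [e1, one_mul]
    have e2 : Ico (s + 1) (m + 1) = Ico (1 + s) (m + 1 - s + s) := by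
      congr 1 <;> omega
    rw [e2, ← prod_Ico_add' (fun j => if s < j then mu A B (n - (j - s)) else 1) 1 (m + 1 - s) s]
    refine prod_congr rfl fun j hj => ?_
    rw [mem_Ico] at hj
    rw [if_pos (by omega), Nat.add_sub_cancel]
  have hA : (∏ j ∈ Ico 1 (m + 1), mu A B j) * ∏ j ∈ Ico 1 (m + 1 - s), mu A B (n - j) ≤
      ∏ j ∈ Ico 1 (m + 1), fac s j (sg n (A, B) j) (sg n (A, B) (j - s)) := by
    rw [← hre, ← prod_mul_distrib]
    refine prod_le_prod (fun j _ => mul_nonneg (mu_nonneg _ _ _) ?_) fA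
    split_ifs
    · exact mu_nonneg _ _ _
    · norm_num
  have hB : ∏ j ∈ Ico (m + 1 - s) (m + 1), mu A B (n - j) ≤
      ∏ j ∈ Ico (m + 1 - s) (m + 1), pot m s j (sg n (A, B) j) :=
    prod_le_prod (fun j _ => mu_nonneg _ _ _) fB
  have hPhi : Phi m s m (sg n (A, B)) =
      (∏ j ∈ Ico 1 (m + 1), fac s j (sg n (A, B) j) (sg n (A, B) (j - s))) *
        ∏ j ∈ Ico (m + 1 - s) (m + 1), pot m s j (sg n (A, B) j) := by
    unfold Phi
    have : max 1 (m + 1 - s) = m + 1 - s := by omega
    rw [this]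
  rw [hPhi, f0, one_mul]
  have hsplit : ∏ j ∈ Ico 1 (m + 1), mu A B (n - j) =
      (∏ j ∈ Ico 1 (m + 1 - s), mu A B (n - j)) *
        ∏ j ∈ Ico (m + 1 - s) (m + 1), mu A B (n - j) :=
    (prod_Ico_consecutive _ (by omega) (by omega)).symm
  rw [hsplit]
  have hP1 : 0 ≤ (∏ j ∈ Ico 1 (m + 1), mu A B j) * ∏ j ∈ Ico 1 (m + 1 - s), mu A B (n - j) :=
    mul_nonneg (prod_nonneg fun _ _ => mu_nonneg _ _ _) (prod_nonneg fun _ _ => mu_nonneg _ _ _)
  have hP2 : 0 ≤ ∏ j ∈ Ico (m + 1 - s) (m + 1), mu A B (n - j) :=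
    prod_nonneg fun _ _ => mu_nonneg _ _ _
  have hP3 := mul_le_mul hA hB hP2 (hP1.trans hA)
  have hP4 := mul_le_mul fK hP3 (mul_nonneg hP1 hP2) (K_nonneg _ _)
  calc _ = (if n % 2 = 0 then mu A B (n / 2) else 1) *
        ((∏ j ∈ Ico 1 (m + 1), mu A B j) * (∏ j ∈ Ico 1 (m + 1 - s), mu A B (n - j)) *
          ∏ j ∈ Ico (m + 1 - s) (m + 1), mu A B (n - j)) := by ring
    _ ≤ _ := hP4

/-- Piece MD-RC. -/
theorem main : S_RC := by
  intro n s hs hn
  have h1 : G n s ≤ ∑ c ∈ Om (n + 1),
      K n (sg n c) * Phi ((n - 1) / 2) s ((n - 1) / 2) (sg n c) := by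
    unfold G
    refine sum_le_sum fun c _ => ?_
    split_ifs with h
    · exact pointwise n s hs hn c.1 c.2 h.1 h.2.1 h.2.2.1 h.2.2.2.1 h.2.2.2.2
    · exact mul_nonneg (K_nonneg _ _) (Phi_nonneg _ _ _ _)
  have h2 := chain_all n s ((n - 1) / 2) hs le_rfl
  rw [prod_lam s _ hs (by omega)] at h2
  have h3 := base n s ((n - 1) / 2) (by omega)
  have h4 : (0 : ℝ) ≤ (563 / 800) ^ (s - 1) * (5 / 16) * (24 / 25) ^ ((n - 1) / 2 - s) := by
    positivity
  calc G n s ≤ _ := h1
    _ ≤ _ := h2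
    _ ≤ (563 / 800) ^ (s - 1) * (5 / 16) * (24 / 25) ^ ((n - 1) / 2 - s) *
        (4 ^ n * (1 / 4)) := mul_le_mul_of_nonneg_left h3 h4
    _ = _ := by ring

end Pool.Agent.R169.MD.RC
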