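import Pool.Agent.R169.MD.Stm

/-! MD-RD (MP_7c207a_co): the numerical double sum. -/

namespace Pool.Agent.R169.MD.RD

open Finset Pool.Agent.R169.MD

lemma geo_le (x : ℝ) (h0 : 0 ≤ x) (h1 : x < 1) (m : ℕ) : ∑ t ∈ range m, x ^ t ≤ 1 / (1 - x) := by
  rw [one_div, ← tsum_geometric_of_lt_one h0 h1]
  exact (summable_geometric_of_lt_one h0 h1).sum_le_tsum _ (fun _ _ => pow_nonneg h0 _)

lemma geo_Ico (x : ℝ) (h0 : 0 ≤ x) (h1 : x < 1) (M : ℕ) :
    ∑ s ∈ Ico 1 M, x ^ (s - 1) ≤ 1 / (1 - x) := by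
  rw [sum_Ico_eq_sum_range]
  have : ∀ t ∈ range (M - 1), x ^ (1 + t - 1) = x ^ t := by
    intro t _; congr 1; omega
  rw [sum_congr rfl this]
  exact geo_le x h0 h1 _

lemma half_geo (J : ℕ) : ∑ j ∈ range J, (24 / 25 : ℝ) ^ (j / 2) ≤ 50 := by
  have h2 : ∀ m : ℕ, ∑ j ∈ range (2 * m), (24 / 25 : ℝ) ^ (j / 2) =
      2 * ∑ t ∈ range m, (24 / 25 : ℝ) ^ t := by
    intro m
    induction m with
    | zero => simp
    | succ m ih =>
      have e : 2 * (m + 1) = 2 * m + 1 + 1 := by ring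
      rw [e, sum_range_succ, sum_range_succ, ih, sum_range_succ]
      have e1 : 2 * m / 2 = m := by omega
      have e2 : (2 * m + 1) / 2 = m := by omega
      rw [e1, e2]
      ring
  calc ∑ j ∈ range J, (24 / 25 : ℝ) ^ (j / 2) ≤ ∑ j ∈ range (2 * J), (24 / 25 : ℝ) ^ (j / 2) := by
        refine sum_le_sum_of_subset_of_nonneg ?_ fun _ _ _ => by positivity
        intro j hj
        have := mem_range.1 hj
        exact mem_range.2 (by omega)
    _ = 2 * ∑ t ∈ range J, (24 / 25 : ℝ) ^ t := h2 J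
    _ ≤ 2 * (1 / (1 - 24 / 25)) := by
        have := geo_le (24 / 25) (by norm_num) (by norm_num) J
        linarith
    _ = 50 := by norm_num

/-- the bound for `4 * G n s / 4 ^ n` -/
noncomputable def bd (n s : ℕ) : ℝ :=
  if n ≤ 2 * s then (1 / 2) ^ s * (5 / 4) ^ (n - 1 - s)
  else (5 / 16) * (563 / 800) ^ (s - 1) * (24 / 25) ^ ((n - 1) / 2 - s)

lemma bd_nonneg (n s : ℕ) : 0 ≤ bd n s := by
  unfold bd; split_ifs <;> positivity

lemma G_le (hB : S_RB) (hC : S_RC) (n s : ℕ) (hs : 1 ≤ s) (hn : s < n) :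
    4 / (4 : ℝ) ^ n * G n s ≤ bd n s := by
  have h4 : (0 : ℝ) < 4 ^ n := by positivity
  unfold bd
  split_ifs with h
  · have := hB n s hs hn h
    calc 4 / (4 : ℝ) ^ n * G n s ≤ 4 / (4 : ℝ) ^ n *
          (4 ^ n * ((1 / 8) * (1 / 2) ^ (s - 1) * (5 / 4) ^ (n - 1 - s))) :=
          mul_le_mul_of_nonneg_left this (by positivity)
      _ = (1 / 2) * (1 / 2) ^ (s - 1) * (5 / 4) ^ (n - 1 - s) := by
          field_simp; ring
      _ = (1 / 2) ^ s * (5 / 4) ^ (n - 1 - s) := by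
          obtain ⟨t, rfl⟩ : ∃ t, s = t + 1 := ⟨s - 1, by omega⟩
          rw [Nat.add_sub_cancel, pow_succ]; ring
  · have := hC n s hs (by omega)
    calc 4 / (4 : ℝ) ^ n * G n s ≤ 4 / (4 : ℝ) ^ n *
          (4 ^ n * ((1 / 4) * (563 / 800) ^ (s - 1) * (5 / 16) * (24 / 25) ^ ((n - 1) / 2 - s))) :=
          mul_le_mul_of_nonneg_left this (by positivity)
      _ = _ := by field_simp

lemma inner (s M : ℕ) (hs : 1 ≤ s) : ∑ n ∈ Ico (s + 1) M, bd n s ≤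
    4 * (5 / 8) ^ s + (125 / 8) * (563 / 800) ^ (s - 1) := by
  have h1 : ∑ n ∈ Ico (s + 1) M, bd n s ≤ ∑ n ∈ Ico (s + 1) (2 * s + 1 + M), bd n s := by
    refine sum_le_sum_of_subset_of_nonneg ?_ fun _ _ _ => bd_nonneg _ _
    intro n hn
    have := mem_Ico.1 hn
    exact mem_Ico.2 ⟨this.1, by omega⟩
  rw [← sum_Ico_consecutive _ (by omega : s + 1 ≤ 2 * s + 1) (by omega : 2 * s + 1 ≤ 2 * s + 1 + M)]
    at h1
  have h2 : ∑ n ∈ Ico (s + 1) (2 * s + 1), bd n s ≤ 4 * (5 / 8) ^ s := by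
    rw [sum_Ico_eq_sum_range]
    have e : 2 * s + 1 - (s + 1) = s := by omega
    rw [e]
    have h3 : ∀ t ∈ range s, bd (s + 1 + t) s = (1 / 2) ^ s * (5 / 4) ^ t := by
      intro t ht
      have := mem_range.1 ht
      unfold bd
      rw [if_pos (by omega)]
      congr 2
      omega
    rw [sum_congr rfl h3, ← mul_sum, geom_sum_eq (by norm_num)]
    have h4 : (5 / 8 : ℝ) ^ s = (1 / 2) ^ s * (5 / 4) ^ s := by rw [← mul_pow]; norm_num
    rw [h4]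
    have h5 : (0 : ℝ) < (1 / 2) ^ s := by positivity
    have h6 : ((5 / 4 : ℝ) ^ s - 1) / (5 / 4 - 1) = 4 * (5 / 4) ^ s - 4 := by
      rw [show (5 / 4 - 1 : ℝ) = 1 / 4 by norm_num]; ring
    rw [h6]
    nlinarith
  have h3 : ∑ n ∈ Ico (2 * s + 1) (2 * s + 1 + M), bd n s ≤ (125 / 8) * (563 / 800) ^ (s - 1) := by
    rw [sum_Ico_eq_sum_range]
    have e : 2 * s + 1 + M - (2 * s + 1) = M := by omega
    rw [e]
    have h4 : ∀ j ∈ range M, bd (2 * s + 1 + j) s =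
        (5 / 16) * (563 / 800) ^ (s - 1) * (24 / 25) ^ (j / 2) := by
      intro j _
      unfold bd
      rw [if_neg (by omega)]
      congr 2
      omega
    rw [sum_congr rfl h4, ← mul_sum]
    have h5 := half_geo M
    have h6 : (0 : ℝ) < (563 / 800) ^ (s - 1) := by positivity
    calc (5 / 16 : ℝ) * (563 / 800) ^ (s - 1) * ∑ j ∈ range M, (24 / 25 : ℝ) ^ (j / 2)
        ≤ (5 / 16) * (563 / 800) ^ (s - 1) * 50 := mul_le_mul_of_nonneg_left h5 (by positivity)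
      _ = _ := by ring
  linarith

theorem main : S_RD := by
  intro hB hC M
  have h1 : ∀ n ∈ Ico 1 M, 2 / (4 : ℝ) ^ n * (2 ^ (n - 1) + 2 * ∑ s ∈ Ico 1 n, G n s) ≤
      (1 / 2) * (1 / 2) ^ (n - 1) + ∑ s ∈ Ico 1 n, bd n s := by
    intro n hn
    have hn1 := (mem_Ico.1 hn).1
    have e1 : 2 / (4 : ℝ) ^ n * (2 ^ (n - 1) + 2 * ∑ s ∈ Ico 1 n, G n s) =
        2 / (4 : ℝ) ^ n * 2 ^ (n - 1) + ∑ s ∈ Ico 1 n, 4 / (4 : ℝ) ^ n * G n s := by
      rw [← mul_sum]; ring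
    rw [e1]
    refine add_le_add (le_of_eq ?_) (sum_le_sum fun s hs => ?_)
    · obtain ⟨t, rfl⟩ : ∃ t, n = t + 1 := ⟨n - 1, by omega⟩
      rw [Nat.add_sub_cancel, pow_succ, div_pow, one_pow]
      have : (4 : ℝ) ^ t = 2 ^ t * 2 ^ t := by rw [← mul_pow]; norm_num
      rw [this]
      field_simp
      norm_num
    · have := mem_Ico.1 hs
      exact G_le hB hC n s this.1 this.2
  refine (sum_le_sum h1).trans ?_
  rw [sum_add_distrib]
  have h2 : ∑ n ∈ Ico 1 M, (1 / 2 : ℝ) * (1 / 2) ^ (n - 1) ≤ 1 := by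
    rw [← mul_sum]
    have := geo_Ico (1 / 2) (by norm_num) (by norm_num) M
    linarith
  have h3 : ∑ n ∈ Ico 1 M, ∑ s ∈ Ico 1 n, bd n s = ∑ s ∈ Ico 1 M, ∑ n ∈ Ico (s + 1) M, bd n s := by
    apply sum_comm'
    intro n s
    simp only [mem_Ico]
    omega
  have h4 : ∑ s ∈ Ico 1 M, ∑ n ∈ Ico (s + 1) M, bd n s ≤
      ∑ s ∈ Ico 1 M, (4 * (5 / 8) ^ s + (125 / 8) * (563 / 800) ^ (s - 1)) :=
    sum_le_sum fun s hs => inner s M (mem_Ico.1 hs).1
  have h5 : ∑ s ∈ Ico 1 M, (4 * (5 / 8 : ℝ) ^ s + (125 / 8) * (563 / 800) ^ (s - 1)) =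
      (5 / 2) * ∑ s ∈ Ico 1 M, (5 / 8 : ℝ) ^ (s - 1) +
        (125 / 8) * ∑ s ∈ Ico 1 M, (563 / 800 : ℝ) ^ (s - 1) := by
    rw [mul_sum, mul_sum, ← sum_add_distrib]
    refine sum_congr rfl fun s hs => ?_
    obtain ⟨t, rfl⟩ : ∃ t, s = t + 1 := ⟨s - 1, by have := (mem_Ico.1 hs).1; omega⟩
    rw [Nat.add_sub_cancel, pow_succ]
    ring
  have h6 := geo_Ico (5 / 8) (by norm_num) (by norm_num) M
  have h7 := geo_Ico (563 / 800) (by norm_num) (by norm_num) M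
  norm_num at h6 h7
  rw [h3]
  linarith

end Pool.Agent.R169.MD.RD
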