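import Pool.Agent.R169.MD.Cert

/-!
# Certificate run C
-/

namespace Pool.Agent.R169.MD.RunC
open Pool.Agent.R169.MD.Cert

set_option maxRecDepth 100000

theorem run : Nat.ble 154115188075855872
    (goS 2456230236677341819536640 4227328 4260632 72057594037927 14 20 1 1 1 0) = true := by
  decide +kernel

end Pool.Agent.R169.MD.RunC
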