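import Pool.Agent.R169.MD.Cert

/-!
# Certificate run D
-/

namespace Pool.Agent.R169.MD.RunD
open Pool.Agent.R169.MD.Cert

set_option maxRecDepth 100000

theorem run : Nat.ble 288330376151711744
    (goS 4912460473354683357872667 16659 272679451 360287970189 14 20 1 1 1 0) = true := by
  decide +kernel

end Pool.Agent.R169.MD.RunD
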