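import Pool.Agent.R169.MD.Cert

/-!
# Certificate run S
-/

namespace Pool.Agent.R169.MD.RunS
open Pool.Agent.R169.MD.Cert

set_option maxRecDepth 100000

theorem run : Nat.ble 118000000000000000
    (goS 811647363 808468609 811748013 10808639105689 14 20 1 1 1 0) = true := by
  decide +kernel

end Pool.Agent.R169.MD.RunS
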