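import Pool.Agent.R169.MD.Stm

/-!
MD-SA (helper141): union bound over the last missing number.
-/

namespace Pool.Agent.R169.MD.SA
open Finset Pool.Agent.R169.MD

theorem miss_zero {A B : Finset ℕ} (hA : 0 ∈ A) (hB : 0 ∈ B) : ¬ Miss A B 0 := by
  intro h
  exact h 0 (by simp) ⟨hA, by simpa using hB⟩

theorem miss_not {A B : Finset ℕ} (hA : 0 ∈ A) (hB : 0 ∈ B) {j : ℕ} (h : Miss A B j) :
    j ∉ A ∧ j ∉ B := by
  refine ⟨fun hj => h j (by simp) ⟨hj, by simpa using hB⟩, fun hj => h 0 (by simp) ⟨hA, ?_⟩⟩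
  simpa using hj

/-- the event that `n` is the last missed number (the part which is used) -/
def Fn (M n k : ℕ) : Finset (Finset ℕ × Finset ℕ) :=
  (Om M).filter (fun c => 0 ∈ c.1 ∧ 0 ∈ c.2 ∧ Miss c.1 c.2 n ∧
    k ≤ ((Ico 1 n).filter (fun j => j ∉ c.1 ∧ j ∉ c.2)).card)

theorem cover (M k : ℕ) : ((Om M).filter (fun c => 0 ∈ c.1 ∧ 0 ∈ c.2 ∧ X M c.1 c.2 = k + 1)) ⊆
    (Ico 1 M).biUnion fun n => Fn M n k := by
  rintro ⟨A, B⟩ hc
  rw [mem_filter] at hc
  obtain ⟨hO, hA, hB, hX⟩ := hc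
  simp only at hA hB hX
  set T := (range M).filter (fun j => Miss A B j) with hT
  have hTc : T.card = k + 1 := hX
  have hne : T.Nonempty := by
    rw [← card_pos]
    omega
  set n := T.max' hne with hn
  have hnT : n ∈ T := max'_mem _ _
  have hnT' := hnT
  rw [hT, mem_filter, mem_range] at hnT'
  have hn1 : 1 ≤ n := by
    rcases Nat.eq_zero_or_pos n with h0 | h0
    · rw [h0] at hnT'
      exact absurd hnT'.2 (miss_zero hA hB)
    · exact h0
  rw [mem_biUnion]
  refine ⟨n, mem_Ico.2 ⟨hn1, hnT'.1⟩, ?_⟩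
  rw [Fn, mem_filter]
  refine ⟨hO, hA, hB, hnT'.2, ?_⟩
  have hsub : T.erase n ⊆ (Ico 1 n).filter (fun j => j ∉ A ∧ j ∉ B) := by
    intro j hj
    rw [mem_erase] at hj
    have hj2 := hj.2
    rw [hT, mem_filter] at hj2
    have hle : j ≤ n := le_max' T j hj.2
    rw [mem_filter, mem_Ico]
    refine ⟨⟨?_, lt_of_le_of_ne hle hj.1⟩, miss_not hA hB hj2.2⟩
    rcases Nat.eq_zero_or_pos j with h0 | h0
    · rw [h0] at hj2
      exact absurd hj2.2 (miss_zero hA hB)
    · exact h0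
  have h1 := card_le_card hsub
  rw [card_erase_of_mem hnT, hTc] at h1
  simpa using h1

theorem card_Fn (M n k : ℕ) (_hn : n < M) : (Fn M n k).card ≤ cD n k * 4 ^ (M - n - 1) := by
  set W := ((Om (n + 1)).filter (fun c => 0 ∈ c.1 ∧ 0 ∈ c.2 ∧ Miss c.1 c.2 n ∧
    k ≤ ((Ico 1 n).filter (fun j => j ∉ c.1 ∧ j ∉ c.2)).card)) with hW
  have h4 : (4 : ℕ) ^ (M - n - 1) = ((Ico (n + 1) M).powerset ×ˢ (Ico (n + 1) M).powerset).card := by
    rw [card_product, card_powerset, Nat.card_Ico, ← mul_pow]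
    congr 1
  have hcD : cD n k = W.card := rfl
  rw [hcD, h4, ← card_product]
  refine card_le_card_of_injOn (fun c => ((c.1.filter (· < n + 1), c.2.filter (· < n + 1)),
    (c.1.filter (fun i => ¬ i < n + 1), c.2.filter (fun i => ¬ i < n + 1)))) ?_ ?_
  · rintro ⟨A, B⟩ hc
    rw [mem_coe, Fn, mem_filter, Om, mem_product, mem_powerset, mem_powerset] at hc
    obtain ⟨⟨hAM, hBM⟩, hA, hB, hm, hk⟩ := hc
    simp only at hAM hBM hA hB hm hk
    rw [mem_coe, mem_product, mem_product]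
    simp only [mem_powerset]
    refine ⟨?_, ?_, ?_⟩
    · rw [hW, mem_filter, Om, mem_product, mem_powerset, mem_powerset]
      refine ⟨⟨fun i hi => ?_, fun i hi => ?_⟩, ?_, ?_, ?_, ?_⟩
      · rw [mem_filter] at hi
        exact mem_range.2 hi.2
      · rw [mem_filter] at hi
        exact mem_range.2 hi.2
      · exact mem_filter.2 ⟨hA, by omega⟩
      · exact mem_filter.2 ⟨hB, by omega⟩
      · intro i hi h
        rw [mem_filter, mem_filter] at h
        exact hm i hi ⟨h.1.1, h.2.1⟩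
      · refine hk.trans (card_le_card fun j hj => ?_)
        rw [mem_filter] at hj ⊢
        exact ⟨hj.1, fun h => hj.2.1 (mem_filter.1 h).1, fun h => hj.2.2 (mem_filter.1 h).1⟩
    · intro i hi
      rw [mem_filter] at hi
      exact mem_Ico.2 ⟨by omega, mem_range.1 (hAM hi.1)⟩
    · intro i hi
      rw [mem_filter] at hi
      exact mem_Ico.2 ⟨by omega, mem_range.1 (hBM hi.1)⟩
  · rintro ⟨A, B⟩ - ⟨A', B'⟩ - h
    simp only [Prod.mk.injEq] at h
    obtain ⟨⟨h1, h2⟩, h3, h4⟩ := h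
    rw [Prod.mk.injEq]
    constructor
    · rw [← filter_union_filter_not_eq (fun i => i < n + 1) A, h1, h3,
        filter_union_filter_not_eq]
    · rw [← filter_union_filter_not_eq (fun i => i < n + 1) B, h2, h4,
        filter_union_filter_not_eq]

theorem main : S_SA := by
  intro M k
  have h1 : cq M (k + 1) ≤ ∑ n ∈ Ico 1 M, cD n k * 4 ^ (M - n - 1) := by
    refine (card_le_card (cover M k)).trans (card_biUnion_le.trans (sum_le_sum fun n hn => ?_))
    exact card_Fn M n k (mem_Ico.1 hn).2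
  have h2 : (cq M (k + 1) : ℝ) ≤ ∑ n ∈ Ico 1 M, (cD n k : ℝ) * 4 ^ (M - n - 1) := by
    exact_mod_cast h1
  have h4M : (0 : ℝ) < 4 ^ M := by positivity
  rw [q, div_le_iff₀ h4M, sum_mul]
  calc 4 * (cq M (k + 1) : ℝ) ≤ 4 * ∑ n ∈ Ico 1 M, (cD n k : ℝ) * 4 ^ (M - n - 1) := by linarith
    _ = ∑ n ∈ Ico 1 M, D n k * 4 ^ M := by
        rw [mul_sum]
        refine sum_congr rfl fun n hn => ?_
        have hn' := (mem_Ico.1 hn).2
        have e : (4 : ℝ) ^ M = 4 * 4 ^ (M - n - 1) * 4 ^ n := by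
          rw [← pow_succ', ← pow_add]
          congr 1
          omega
        rw [D, e]
        field_simp

end Pool.Agent.R169.MD.SA
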