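import Pool.Agent.R169.MD.Stm
/-!
MD-SB: exact count (MP_7c207a_co).
-/
namespace Pool.Agent.R169.MD.SB
open Finset Pool.Agent.R169.MD

/-- no `i` in the interval with `i ∈ A` and the mirror image of `i` in `B` -/
def Cd (l m : ℕ) (A B : Finset ℕ) : Prop := ∀ i ∈ Ico l (l + m), ¬ (i ∈ A ∧ 2 * l + m - 1 - i ∈ B)

/-- number of positions in neither set -/
def Z (l m : ℕ) (A B : Finset ℕ) : ℕ := ((Ico l (l + m)).filter (fun j => j ∉ A ∧ j ∉ B)).card

open Classical in
noncomputable def W (l m k : ℕ) (A B : Finset ℕ) : ℝ := if Cd l m A B ∧ k ≤ Z l m A B then 1 else 0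

noncomputable def N (l m k : ℕ) : ℝ :=
  ∑ A ∈ (Ico l (l + m)).powerset, ∑ B ∈ (Ico l (l + m)).powerset, W l m k A B

theorem sum4 {U : Finset ℕ} {x y : ℕ} (hx : x ∉ insert y U) (hy : y ∉ U)
    (F : Finset ℕ → Finset ℕ → ℝ) :
    ∑ A ∈ (insert x (insert y U)).powerset, ∑ B ∈ (insert x (insert y U)).powerset, F A B
    = ∑ A ∈ U.powerset, ∑ B ∈ U.powerset,
      (((F A B + F A (insert y B)) + (F A (insert x B) + F A (insert x (insert y B))))
      + ((F (insert y A) B + F (insert y A) (insert y B))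
        + (F (insert y A) (insert x B) + F (insert y A) (insert x (insert y B))))
      + (((F (insert x A) B + F (insert x A) (insert y B))
        + (F (insert x A) (insert x B) + F (insert x A) (insert x (insert y B))))
      + ((F (insert x (insert y A)) B + F (insert x (insert y A)) (insert y B))
        + (F (insert x (insert y A)) (insert x B)
          + F (insert x (insert y A)) (insert x (insert y B)))))) := by
  have h1 : ∀ A, ∑ B ∈ (insert x (insert y U)).powerset, F A B
      = ∑ B ∈ U.powerset, ((F A B + F A (insert y B))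
        + (F A (insert x B) + F A (insert x (insert y B)))) := by
    intro A
    rw [sum_powerset_insert hx, sum_powerset_insert hy, sum_powerset_insert hy, ← sum_add_distrib,
      ← sum_add_distrib, ← sum_add_distrib]
  simp_rw [h1]
  rw [sum_powerset_insert hx, sum_powerset_insert hy, sum_powerset_insert hy]
  simp only [← sum_add_distrib]

theorem Cd_step (l m : ℕ) (A B : Finset ℕ) : Cd l (m + 2) A B ↔
    ¬ (l ∈ A ∧ l + m + 1 ∈ B) ∧ ¬ (l + m + 1 ∈ A ∧ l ∈ B) ∧ Cd (l + 1) m A B := by
  unfold Cd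
  constructor
  · intro h
    refine ⟨?_, ?_, ?_⟩
    · have := h l (by rw [mem_Ico]; omega)
      rwa [show 2 * l + (m + 2) - 1 - l = l + m + 1 by omega] at this
    · have := h (l + m + 1) (by rw [mem_Ico]; omega)
      rwa [show 2 * l + (m + 2) - 1 - (l + m + 1) = l by omega] at this
    · intro i hi
      rw [mem_Ico] at hi
      have := h i (by rw [mem_Ico]; omega)
      rwa [show 2 * l + (m + 2) - 1 - i = 2 * (l + 1) + m - 1 - i by omega] at this
  · rintro ⟨h1, h2, h3⟩ i hi
    rw [mem_Ico] at hi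
    rcases eq_or_ne i l with rfl | hil
    · rwa [show 2 * i + (m + 2) - 1 - i = i + m + 1 by omega]
    rcases eq_or_ne i (l + m + 1) with rfl | hil2
    · rwa [show 2 * l + (m + 2) - 1 - (l + m + 1) = l by omega]
    rw [show 2 * l + (m + 2) - 1 - i = 2 * (l + 1) + m - 1 - i by omega]
    exact h3 i (by rw [mem_Ico]; omega)

theorem Ico_split (l m : ℕ) : Ico l (l + (m + 2))
    = insert l (insert (l + m + 1) (Ico (l + 1) (l + 1 + m))) := by
  ext i
  simp only [mem_Ico, mem_insert]
  omega

open Classical in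
theorem Z_step (l m : ℕ) (A B : Finset ℕ) : Z l (m + 2) A B
    = (if l ∉ A ∧ l ∉ B then 1 else 0) + (if l + m + 1 ∉ A ∧ l + m + 1 ∉ B then 1 else 0)
      + Z (l + 1) m A B := by
  unfold Z
  rw [Ico_split, card_filter, sum_insert, sum_insert, ← card_filter]
  · rw [← add_assoc]
  · simp only [mem_Ico]; omega
  · simp only [mem_Ico, mem_insert]; omega

open Classical in
theorem W_step (l m k : ℕ) (A B : Finset ℕ) : W l (m + 2) k A B
    = if (l ∈ A ∧ l + m + 1 ∈ B) ∨ (l + m + 1 ∈ A ∧ l ∈ B) then 0 else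
      W (l + 1) m (k - ((if l ∉ A ∧ l ∉ B then 1 else 0)
        + (if l + m + 1 ∉ A ∧ l + m + 1 ∉ B then 1 else 0))) A B := by
  unfold W
  rw [Cd_step, Z_step]
  by_cases h1 : (l ∈ A ∧ l + m + 1 ∈ B)
  · rw [if_neg (by tauto), if_pos (Or.inl h1)]
  by_cases h2 : (l + m + 1 ∈ A ∧ l ∈ B)
  · rw [if_neg (by tauto), if_pos (Or.inr h2)]
  rw [if_neg (show ¬ ((l ∈ A ∧ l + m + 1 ∈ B) ∨ (l + m + 1 ∈ A ∧ l ∈ B)) by tauto)]
  congr 1
  rw [tsub_le_iff_left]
  simp only [h1, h2, not_false_eq_true, true_and]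

theorem W_congr {l m k : ℕ} {A B A' B' : Finset ℕ} (hA : ∀ i ∈ Ico l (l + m), i ∈ A ↔ i ∈ A')
    (hB : ∀ i ∈ Ico l (l + m), i ∈ B ↔ i ∈ B') : W l m k A B = W l m k A' B' := by
  unfold W
  have h1 : Cd l m A B ↔ Cd l m A' B' := by
    unfold Cd
    refine forall₂_congr (fun i hi => ?_)
    rw [hA i hi, hB]
    rw [mem_Ico] at hi ⊢
    omega
  have h2 : Z l m A B = Z l m A' B' := by
    unfold Z
    congr 1
    refine filter_congr (fun i hi => ?_)
    rw [hA i hi, hB i hi]
  rw [h1, h2]

theorem N_step (l m k : ℕ) :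
    N l (m + 2) k = 2 * N (l + 1) m k + 6 * N (l + 1) m (k - 1) + N (l + 1) m (k - 2) := by
  unfold N
  rw [Ico_split, sum4 (by simp only [mem_Ico, mem_insert]; omega) (by simp only [mem_Ico]; omega),
    mul_sum, mul_sum, ← sum_add_distrib, ← sum_add_distrib]
  refine sum_congr rfl (fun A hA => ?_)
  rw [mul_sum, mul_sum, ← sum_add_distrib, ← sum_add_distrib]
  refine sum_congr rfl (fun B hB => ?_)
  rw [mem_powerset] at hA hB
  have hlA : l ∉ A := fun h => by have := hA h; rw [mem_Ico] at this; omega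
  have hlB : l ∉ B := fun h => by have := hB h; rw [mem_Ico] at this; omega
  have hyA : l + m + 1 ∉ A := fun h => by have := hA h; rw [mem_Ico] at this; omega
  have hyB : l + m + 1 ∉ B := fun h => by have := hB h; rw [mem_Ico] at this; omega
  have e1 : ∀ (C : Finset ℕ), ∀ i ∈ Ico (l + 1) (l + 1 + m), i ∈ insert l C ↔ i ∈ C := by
    intro C i hi
    rw [mem_Ico] at hi
    rw [mem_insert]
    constructor
    · rintro (h | h)
      · omega
      · exact h
    · exact Or.inr
  have e2 : ∀ (C : Finset ℕ), ∀ i ∈ Ico (l + 1) (l + 1 + m), i ∈ insert (l + m + 1) C ↔ i ∈ C := by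
    intro C i hi
    rw [mem_Ico] at hi
    rw [mem_insert]
    constructor
    · rintro (h | h)
      · omega
      · exact h
    · exact Or.inr
  have f1 : ∀ (C D : Finset ℕ) (k : ℕ), W (l + 1) m k (insert l C) D = W (l + 1) m k C D :=
    fun C D k => W_congr (e1 C) (fun _ _ => Iff.rfl)
  have f2 : ∀ (C D : Finset ℕ) (k : ℕ), W (l + 1) m k C (insert l D) = W (l + 1) m k C D :=
    fun C D k => W_congr (fun _ _ => Iff.rfl) (e1 D)
  have f3 : ∀ (C D : Finset ℕ) (k : ℕ), W (l + 1) m k (insert (l + m + 1) C) D = W (l + 1) m k C D :=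
    fun C D k => W_congr (e2 C) (fun _ _ => Iff.rfl)
  have f4 : ∀ (C D : Finset ℕ) (k : ℕ), W (l + 1) m k C (insert (l + m + 1) D) = W (l + 1) m k C D :=
    fun C D k => W_congr (fun _ _ => Iff.rfl) (e2 D)
  have hne : ¬ (l = l + m + 1) := by omega
  have hne' : ¬ (l + m + 1 = l) := by omega
  simp only [W_step, f1, f2, f3, f4, mem_insert, hlA, hlB, hyA, hyB, hne, hne', or_false, or_true,
    true_or, false_or, and_true, true_and, false_and, and_false, if_true, if_false, not_true,
    not_false_eq_true, add_zero, zero_add, tsub_zero, or_self, and_self]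
  norm_num
  ring

theorem N_zero (l k : ℕ) : N l 0 k = if k = 0 then 1 else 0 := by
  unfold N W Cd Z
  simp

theorem N_one (l k : ℕ) : N l 1 k = 2 * (if k = 0 then 1 else 0) + (if k - 1 = 0 then 1 else 0) := by
  unfold N
  have hI : Ico l (l + 1) = insert l ∅ := by
    ext i; simp only [mem_Ico, mem_insert, notMem_empty, or_false]; omega
  rw [hI, sum_powerset_insert (notMem_empty _), powerset_empty, sum_singleton, sum_singleton,
    sum_powerset_insert (notMem_empty _), powerset_empty, sum_singleton, sum_singleton,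
    sum_powerset_insert (notMem_empty _), powerset_empty, sum_singleton, sum_singleton]
  have w1 : W l 1 k ∅ ∅ = if k - 1 = 0 then 1 else 0 := by
    unfold W Cd Z
    rw [hI]
    simp [Nat.sub_eq_zero_iff_le]
  have w2 : W l 1 k ∅ (insert l ∅) = if k = 0 then 1 else 0 := by
    unfold W Cd Z
    rw [hI]
    simp [filter_singleton]
  have w3 : W l 1 k (insert l ∅) ∅ = if k = 0 then 1 else 0 := by
    unfold W Cd Z
    rw [hI]
    simp [filter_singleton]
  have w4 : W l 1 k (insert l ∅) (insert l ∅) = 0 := by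
    unfold W Cd Z
    rw [hI, if_neg]
    rintro ⟨h, -⟩
    have := h l (by simp)
    apply this
    constructor
    · simp
    · rw [show 2 * l + 1 - 1 - l = l by omega]; simp
  rw [w1, w2, w3, w4]
  ring

theorem N_even (t : ℕ) : ∀ l k : ℕ, N l (2 * t) k = 16 ^ t * tau t k := by
  induction t with
  | zero => intro l k; rw [mul_zero, N_zero]; simp [tau]
  | succ t ih =>
    intro l k
    rw [show 2 * (t + 1) = 2 * t + 2 by ring, N_step, ih, ih, ih, tau]
    ring

theorem N_odd (t : ℕ) : ∀ l k : ℕ,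
    N l (2 * t + 1) k = 16 ^ t * (2 * tau t k + tau t (k - 1)) := by
  induction t with
  | zero =>
    intro l k
    rw [mul_zero, zero_add, N_one]
    simp only [tau, pow_zero, one_mul]
  | succ t ih =>
    intro l k
    rw [show 2 * (t + 1) + 1 = (2 * t + 1) + 2 by ring, N_step, ih, ih, ih, tau, tau,
      Nat.sub_sub, Nat.sub_sub, Nat.sub_sub]
    norm_num
    ring

open Classical in
theorem cD_eq (m k : ℕ) : (cD (m + 1) k : ℝ) = N 1 m k := by
  unfold cD Om
  rw [card_filter, Nat.cast_sum, sum_product, show range (m + 1 + 1)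
    = insert 0 (insert (0 + m + 1) (Ico (0 + 1) (0 + 1 + m))) by
      rw [← Ico_split]; ext i; simp only [mem_range, mem_Ico]; omega,
    sum4 (by simp only [mem_Ico, mem_insert]; omega) (by simp only [mem_Ico]; omega)]
  unfold N
  simp only [zero_add]
  refine sum_congr rfl (fun A hA => sum_congr rfl (fun B hB => ?_))
  rw [mem_powerset] at hA hB
  have hlA : 0 ∉ A := fun h => by have := hA h; rw [mem_Ico] at this; omega
  have hlB : 0 ∉ B := fun h => by have := hB h; rw [mem_Ico] at this; omega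
  have hyA : m + 1 ∉ A := fun h => by have := hA h; rw [mem_Ico] at this; omega
  have hyB : m + 1 ∉ B := fun h => by have := hB h; rw [mem_Ico] at this; omega
  have hMiss : ∀ C D : Finset ℕ, Miss C D (m + 1) ↔
      ¬ (0 ∈ C ∧ m + 1 ∈ D) ∧ ¬ (m + 1 ∈ C ∧ 0 ∈ D) ∧ Cd 1 m C D := by
    intro C D
    have := Cd_step 0 m C D
    simp only [zero_add] at this
    rw [← this]
    unfold Miss Cd
    constructor
    · intro h i hi
      rw [mem_Ico] at hi
      have := h i (by rw [mem_range]; omega)
      rwa [show 2 * 0 + (m + 2) - 1 - i = m + 1 - i by omega]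
    · intro h i hi
      rw [mem_range] at hi
      have := h i (by rw [mem_Ico]; omega)
      rwa [show 2 * 0 + (m + 2) - 1 - i = m + 1 - i by omega] at this
  have hne' : ¬ (m + 1 = 0) := by omega
  have hne : ¬ (0 = m + 1) := by omega
  have key : Cd 1 m (insert 0 A) (insert 0 B) ∧
      k ≤ ((Ico 1 (m + 1)).filter (fun j => j ∉ insert 0 A ∧ j ∉ insert 0 B)).card ↔
      Cd 1 m A B ∧ k ≤ Z 1 m A B := by
    have e1 : ∀ (C : Finset ℕ), ∀ i ∈ Ico 1 (1 + m), i ∈ insert 0 C ↔ i ∈ C := by
      intro C i hi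
      rw [mem_Ico] at hi
      rw [mem_insert]
      constructor
      · rintro (h | h)
        · omega
        · exact h
      · exact Or.inr
    have h1 : Cd 1 m (insert 0 A) (insert 0 B) ↔ Cd 1 m A B := by
      unfold Cd
      refine forall₂_congr (fun i hi => ?_)
      rw [e1 A i hi, e1 B]
      rw [mem_Ico] at hi ⊢
      omega
    have h2 : ((Ico 1 (m + 1)).filter (fun j => j ∉ insert 0 A ∧ j ∉ insert 0 B)).card
        = Z 1 m A B := by
      unfold Z
      rw [add_comm m 1]
      congr 1
      refine filter_congr (fun i hi => ?_)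
      rw [e1 A i hi, e1 B i hi]
    rw [h1, h2]
  simp only [hMiss, mem_insert, hlA, hlB, hyA, hyB, hne, hne', or_false, or_true,
    true_or, false_or, and_true, true_and, false_and, and_false, if_true, if_false, not_true,
    not_false_eq_true, Nat.cast_zero, zero_add, add_zero]
  unfold W
  rw [Nat.cast_ite, Nat.cast_one, Nat.cast_zero]
  simp only [mem_insert] at key
  simp only [key]

theorem main : S_SB := by
  intro t k
  constructor
  · unfold D
    rw [cD_eq, N_even, pow_succ, pow_mul]
    norm_num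
    field_simp
  · unfold D
    rw [show 2 * t + 2 = (2 * t + 1) + 1 by ring, cD_eq, N_odd, pow_succ, pow_succ, pow_mul]
    norm_num
    field_simp
    norm_num

end Pool.Agent.R169.MD.SB
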