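import Pool.Agent.R169.MD.Stm

/-! MD-SC (MP_7c207a_co): summing the recursion. -/

namespace Pool.Agent.R169.MD.SC

open Finset Pool.Agent.R169.MD

noncomputable def sv : ℕ → ℝ
  | 0 => 16 / 7
  | 1 => 8 / 7
  | (k + 2) => (6 * sv (k + 1) + sv k) / 14

lemma tau_nonneg (t : ℕ) : ∀ k, 0 ≤ tau t k := by
  induction t with
  | zero => intro k; unfold tau; split_ifs <;> norm_num
  | succ t ih =>
    intro k
    unfold tau
    have h1 := ih k
    have h2 := ih (k - 1)
    have h3 := ih (k - 2)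
    linarith

lemma sum_rec (T k : ℕ) : ∑ t ∈ range T, tau t k ≤ tau 0 k +
    (2 * ∑ t ∈ range T, tau t k + 6 * ∑ t ∈ range T, tau t (k - 1) +
      ∑ t ∈ range T, tau t (k - 2)) / 16 := by
  have h1 : ∑ t ∈ range T, tau t k ≤ ∑ t ∈ range (T + 1), tau t k := by
    rw [sum_range_succ]
    linarith [tau_nonneg T k]
  have h2 : ∑ t ∈ range (T + 1), tau t k = tau 0 k + ∑ t ∈ range T, tau (t + 1) k := by
    rw [sum_range_succ', add_comm]
  have h3 : ∑ t ∈ range T, tau (t + 1) k =
      (2 * ∑ t ∈ range T, tau t k + 6 * ∑ t ∈ range T, tau t (k - 1) +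
      ∑ t ∈ range T, tau t (k - 2)) / 16 := by
    rw [mul_sum, mul_sum, ← sum_add_distrib, ← sum_add_distrib, sum_div]
    exact sum_congr rfl fun t _ => rfl
  linarith

lemma tau_zero_succ (k : ℕ) : tau 0 (k + 1) = 0 := by simp [tau]

lemma bound (T : ℕ) (k : ℕ) : ∑ t ∈ range T, tau t k ≤ sv k := by
  induction k using Nat.strong_induction_on with
  | _ k ih =>
    have h := sum_rec T k
    match k with
    | 0 =>
      have e : tau 0 0 = 1 := by simp [tau]
      simp only [Nat.zero_sub] at h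
      rw [e] at h
      show _ ≤ (16 / 7 : ℝ)
      linarith
    | 1 =>
      have h0 := ih 0 (by omega)
      rw [tau_zero_succ 0] at h
      norm_num at h
      show _ ≤ (8 / 7 : ℝ)
      have e0 : sv 0 = 16 / 7 := rfl
      rw [e0] at h0
      linarith
    | (k + 2) =>
      have h0 := ih k (by omega)
      have h1 := ih (k + 1) (by omega)
      rw [tau_zero_succ (k + 1)] at h
      have e1 : k + 2 - 1 = k + 1 := by omega
      have e2 : k + 2 - 2 = k := by omega
      rw [e1, e2] at h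
      show _ ≤ (6 * sv (k + 1) + sv k) / 14
      linarith

lemma V_eq (k : ℕ) : V k = 7 / 8 * sv (k + 1) ∧ V (k + 1) = 7 / 8 * sv (k + 2) := by
  induction k with
  | zero =>
    constructor
    · show (1 : ℝ) = 7 / 8 * (8 / 7)
      norm_num
    · show (4 / 7 : ℝ) = 7 / 8 * ((6 * (8 / 7) + 16 / 7) / 14)
      norm_num
  | succ k ih =>
    refine ⟨ih.2, ?_⟩
    have e1 : V (k + 1 + 1) = (6 * V (k + 1) + V k) / 14 := rfl
    have e2 : sv (k + 1 + 2) = (6 * sv (k + 2) + sv (k + 1)) / 14 := rfl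
    rw [e1, e2, ih.1, ih.2]
    ring

lemma V_eq' (k : ℕ) : V k = (6 * sv k + sv (k - 1)) / 16 := by
  cases k with
  | zero =>
    show (1 : ℝ) = (6 * (16 / 7) + 16 / 7) / 16
    norm_num
  | succ k =>
    rw [(V_eq (k + 1)).1]
    have e2 : sv (k + 1 + 1) = (6 * sv (k + 1) + sv k) / 14 := rfl
    rw [e2, Nat.add_sub_cancel]
    ring

lemma D_nonneg (n k : ℕ) : 0 ≤ D n k := by unfold D; positivity

lemma sum_pairs (k : ℕ) (M : ℕ) : ∑ n ∈ Ico 1 (2 * M + 1), D n k =
    ∑ t ∈ range M, (D (2 * t + 1) k + D (2 * t + 2) k) := by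
  induction M with
  | zero => simp
  | succ M ih =>
    rw [sum_range_succ, ← ih]
    have e : 2 * (M + 1) + 1 = 2 * M + 1 + 1 + 1 := by ring
    rw [e, sum_Ico_succ_top (by omega), sum_Ico_succ_top (by omega)]
    ring

theorem main : S_SC := by
  intro hSB M k
  calc ∑ n ∈ Ico 1 M, D n k ≤ ∑ n ∈ Ico 1 (2 * M + 1), D n k := by
        refine sum_le_sum_of_subset_of_nonneg ?_ fun _ _ _ => D_nonneg _ _
        intro n hn
        have := mem_Ico.1 hn
        exact mem_Ico.2 ⟨this.1, by omega⟩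
    _ = ∑ t ∈ range M, (D (2 * t + 1) k + D (2 * t + 2) k) := sum_pairs k M
    _ = (6 * ∑ t ∈ range M, tau t k + ∑ t ∈ range M, tau t (k - 1)) / 16 := by
        rw [mul_sum, ← sum_add_distrib, sum_div]
        refine sum_congr rfl fun t _ => ?_
        obtain ⟨h1, h2⟩ := hSB t k
        rw [h1, h2]
        ring
    _ ≤ (6 * sv k + sv (k - 1)) / 16 := by
        have h1 := bound M k
        have h2 := bound M (k - 1)
        linarith
    _ = V k := (V_eq' k).symm

end Pool.Agent.R169.MD.SC
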