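import Pool.Agent.R169.MD.Stm

namespace Pool.Agent.R169.MD.Tail
open Finset Pool.Agent.R169.MD

lemma gen (a b : ℕ → ℕ) (T : Finset ℕ) : ∀ U : Finset ℕ, (∀ t ∈ T, a t ∈ U ∧ b t ∈ U) →
    (∀ t ∈ T, a t ≠ b t) →
    (∀ t ∈ T, ∀ t' ∈ T, t ≠ t' → a t ≠ a t' ∧ a t ≠ b t' ∧ b t ≠ b t') →
    (U.powerset.filter (fun S => ∀ t ∈ T, ¬ (a t ∈ S ∧ b t ∈ S))).card * 4 ^ T.card
      ≤ 3 ^ T.card * 2 ^ U.card := by
  induction T using Finset.induction_on with
  | empty =>
    intro U _ _ _
    simp
  | insert t T ht ih =>
    intro U hU hab hd
    set U' := (U.erase (a t)).erase (b t) with hU'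
    have hat : a t ∈ U := (hU t (mem_insert_self _ _)).1
    have hbt : b t ∈ U := (hU t (mem_insert_self _ _)).2
    have hne : a t ≠ b t := hab t (mem_insert_self _ _)
    have hcU : U'.card + 2 = U.card := by
      have h1 : b t ∈ U.erase (a t) := mem_erase.2 ⟨hne.symm, hbt⟩
      have h2 := card_erase_add_one hat
      have h3 := card_erase_add_one h1
      rw [hU']
      omega
    have hI := ih U' (by
        intro s hs
        have hst : s ≠ t := fun h => ht (h ▸ hs)
        have h1 := hU s (mem_insert_of_mem hs)
        have h2 := hd s (mem_insert_of_mem hs) t (mem_insert_self _ _) hst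
        have h3 := hd t (mem_insert_self _ _) s (mem_insert_of_mem hs) hst.symm
        simp only [hU', mem_erase]
        exact ⟨⟨h2.2.1, h2.1, h1.1⟩, ⟨h2.2.2, h3.2.1.symm, h1.2⟩⟩)
      (fun s hs => hab s (mem_insert_of_mem hs))
      (fun s hs s' hs' h => hd s (mem_insert_of_mem hs) s' (mem_insert_of_mem hs') h)
    have hsub : (U.powerset.filter (fun S => ∀ s ∈ insert t T, ¬ (a s ∈ S ∧ b s ∈ S))) ⊆
        ((({∅, {a t}, {b t}} : Finset (Finset ℕ)) ×ˢ
          (U'.powerset.filter (fun S => ∀ s ∈ T, ¬ (a s ∈ S ∧ b s ∈ S)))).image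
            (fun x => x.1 ∪ x.2)) := by
      intro S hS
      simp only [mem_filter, mem_powerset] at hS
      rw [mem_image]
      refine ⟨(S ∩ {a t, b t}, (S.erase (a t)).erase (b t)), ?_, ?_⟩
      · rw [mem_product]
        constructor
        · have h := hS.2 t (mem_insert_self _ _)
          simp only [mem_insert, mem_singleton]
          by_cases h1 : a t ∈ S
          · have h2 : b t ∉ S := fun h2 => h ⟨h1, h2⟩
            right; left
            ext x
            simp only [mem_inter, mem_insert, mem_singleton]
            constructor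
            · rintro ⟨hx, rfl | rfl⟩
              · rfl
              · exact absurd hx h2
            · rintro rfl
              exact ⟨h1, Or.inl rfl⟩
          · by_cases h2 : b t ∈ S
            · right; right
              ext x
              simp only [mem_inter, mem_insert, mem_singleton]
              constructor
              · rintro ⟨hx, rfl | rfl⟩
                · exact absurd hx h1
                · rfl
              · rintro rfl
                exact ⟨h2, Or.inr rfl⟩
            · left
              ext x
              simp only [mem_inter, mem_insert, mem_singleton, notMem_empty, iff_false]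
              rintro ⟨hx, rfl | rfl⟩
              · exact h1 hx
              · exact h2 hx
        · simp only [mem_filter, mem_powerset]
          constructor
          · intro x hx
            simp only [mem_erase] at hx
            simp only [hU', mem_erase]
            exact ⟨hx.1, hx.2.1, hS.1 hx.2.2⟩
          · rintro s hs ⟨h1, h2⟩
            exact hS.2 s (mem_insert_of_mem hs)
              ⟨mem_of_mem_erase (mem_of_mem_erase h1), mem_of_mem_erase (mem_of_mem_erase h2)⟩
      · ext x
        simp only [mem_union, mem_inter, mem_insert, mem_singleton, mem_erase]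
        tauto
    have h3 : ({∅, {a t}, {b t}} : Finset (Finset ℕ)).card ≤ 3 := card_le_three
    have hcard : (U.powerset.filter (fun S => ∀ s ∈ insert t T, ¬ (a s ∈ S ∧ b s ∈ S))).card ≤
        3 * (U'.powerset.filter (fun S => ∀ s ∈ T, ¬ (a s ∈ S ∧ b s ∈ S))).card := by
      refine (card_le_card hsub).trans (card_image_le.trans ?_)
      rw [card_product]
      exact Nat.mul_le_mul_right _ h3
    rw [card_insert_of_notMem ht, ← hcU]
    calc _ ≤ 3 * (U'.powerset.filter (fun S => ∀ s ∈ T, ¬ (a s ∈ S ∧ b s ∈ S))).card *
          4 ^ (T.card + 1) := Nat.mul_le_mul_right _ hcard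
      _ = 12 * ((U'.powerset.filter (fun S => ∀ s ∈ T, ¬ (a s ∈ S ∧ b s ∈ S))).card *
          4 ^ T.card) := by ring
      _ ≤ 12 * (3 ^ T.card * 2 ^ U'.card) := Nat.mul_le_mul_left _ hI
      _ = 3 ^ (T.card + 1) * 2 ^ (U'.card + 2) := by ring

theorem main : S_TAIL := by
  intro n j hj
  set d := n - 1 - j with hd
  have hd1 : 1 ≤ d := by omega
  set T := (range (j + 1)).filter (fun i => (i / d) % 2 = 0) with hT
  have hTc : (j + 1) / 2 ≤ T.card := by
    have h1 := card_filter_add_card_filter_not (s := range (j + 1)) (fun i => (i / d) % 2 = 0)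
    have h2 : ((range (j + 1)).filter (fun i => ¬ (i / d) % 2 = 0)).card ≤ T.card := by
      have key : ∀ i, ¬ (i / d) % 2 = 0 → d ≤ i ∧ ((i - d) / d) % 2 = 0 := by
        intro i hi
        have hle : d ≤ i := by
          by_contra h
          push Not at h
          rw [Nat.div_eq_of_lt h] at hi
          exact hi rfl
        refine ⟨hle, ?_⟩
        have h1 : (i - d + d) / d = (i - d) / d + 1 := Nat.add_div_right _ (by omega)
        rw [Nat.sub_add_cancel hle] at h1
        omega
      refine card_le_card_of_injOn (fun i => i - d) ?_ ?_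
      · intro i hi
        simp only [coe_filter, mem_range, Set.mem_ofPred_eq] at hi
        have := key i hi.2
        simp only [hT, coe_filter, mem_range, Set.mem_ofPred_eq]
        exact ⟨by omega, this.2⟩
      · intro i hi i' hi' h
        simp only [coe_filter, mem_range, Set.mem_ofPred_eq] at hi hi'
        have h1 := (key i hi.2).1
        have h2 := (key i' hi'.2).1
        simp only at h
        omega
    rw [card_range, ← hT] at h1
    omega
  have hg := gen (fun t => t) (fun t => t + d) T (range n) (by
      intro t ht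
      simp only [hT, mem_filter, mem_range] at ht
      simp only [mem_range]
      omega) (by
      intro t ht
      show t ≠ t + d
      omega) (by
      intro t ht t' ht' hne
      simp only [hT, mem_filter, mem_range] at ht ht'
      show t ≠ t' ∧ t ≠ t' + d ∧ t + d ≠ t' + d
      refine ⟨hne, ?_, by omega⟩
      rintro rfl
      have : (t' + d) / d = t' / d + 1 := Nat.add_div_right _ (by omega)
      omega)
  rw [card_range] at hg
  have hle : ((range n).powerset.filter (fun S => Md n S j)).card ≤
      ((range n).powerset.filter (fun S => ∀ t ∈ T, ¬ (t ∈ S ∧ t + d ∈ S))).card := by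
    apply card_le_card
    intro S hS
    simp only [mem_filter] at hS ⊢
    refine ⟨hS.1, fun t ht h => ?_⟩
    simp only [hT, mem_filter, mem_range] at ht
    refine hS.2 t (mem_range.2 ht.1) ⟨h.1, ?_⟩
    rw [show n - 1 - (j - t) = t + d by omega]
    exact h.2
  have hR : ((((range n).powerset.filter
      (fun S => ∀ t ∈ T, ¬ (t ∈ S ∧ t + d ∈ S))).card : ℕ) : ℝ) ≤ (3 / 4 : ℝ) ^ T.card * 2 ^ n := by
    rw [div_pow, div_mul_eq_mul_div, le_div_iff₀ (by positivity)]
    exact_mod_cast hg
  calc ((((range n).powerset.filter (fun S => Md n S j)).card : ℕ) : ℝ)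
      ≤ ((((range n).powerset.filter
      (fun S => ∀ t ∈ T, ¬ (t ∈ S ∧ t + d ∈ S))).card : ℕ) : ℝ) := by exact_mod_cast hle
    _ ≤ (3 / 4 : ℝ) ^ T.card * 2 ^ n := hR
    _ ≤ (3 / 4 : ℝ) ^ ((j + 1) / 2) * 2 ^ n := by
      apply mul_le_mul_of_nonneg_right _ (by positivity)
      exact pow_le_pow_of_le_one (by norm_num) (by norm_num) hTc

end Pool.Agent.R169.MD.Tail
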