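import Pool.Agent.R169.MD.Lim
import Pool.Agent.R169.MD.RunA
import Pool.Agent.R169.MD.RunB
import Pool.Agent.R169.MD.RunC
import Pool.Agent.R169.MD.RunD
import Pool.Agent.R169.MD.RunF
import Pool.Agent.R169.MD.RunS
import Pool.Agent.R169.MD.SA
import Pool.Agent.R169.MD.SB
import Pool.Agent.R169.MD.SC
import Pool.Agent.R169.MD.RA
import Pool.Agent.R169.MD.RB
import Pool.Agent.R169.MD.RC
import Pool.Agent.R169.MD.RD
import Pool.Agent.R169.MD.Diff
import Pool.Agent.R169.MD.Tail
import Pool.Agent.R169.MD.Link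
import Pool.Agent.R169.MD.Odd

/-!
# The chain of inequalities
-/

namespace Pool.Agent.R169.MD.Fin
open Finset Filter Topology Pool.Agent.R169.MD Pool.Agent.R169.MD.Cert
open Pool.Agent.R169.MD.Lim

theorem cA : 0 < 16 * ql 2 - 4 * ql 0 := by
  have h := lim_cert (v := 4) (by norm_num) (by decide +kernel) (by decide +kernel)
    (by decide +kernel) RunA.run
  have e0 : cd 1228115118338670907703552 0 = 0 := by decide +kernel
  have e1 : cd 1228115118338670907703552 1 = 4 := by decide +kernel
  have e2 : cd 1228115118338670907703552 2 = 20 := by decide +kernel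
  have e3 : cd 1228115118338670907703552 3 = 4 := by decide +kernel
  have e4 : cd 1228115118338670907703552 4 = 4 := by decide +kernel
  simp only [sum_range_succ, sum_range_zero, e0, e1, e2, e3, e4] at h
  norm_num at h
  linarith

theorem cB : 0 < 8 * ql 0 + 4 * ql 1 - 16 * ql 2 - 16 * ql 3 := by
  have h := lim_cert (v := 16) (by norm_num) (by decide +kernel) (by decide +kernel)
    (by decide +kernel) RunB.run
  have e0 : cd 4912460473354683626292504 0 = 24 := by decide +kernel
  have e1 : cd 4912460473354683626292504 1 = 20 := by decide +kernel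
  have e2 : cd 4912460473354683626292504 2 = 0 := by decide +kernel
  have e3 : cd 4912460473354683626292504 3 = 0 := by decide +kernel
  have e4 : cd 4912460473354683626292504 4 = 16 := by decide +kernel
  simp only [sum_range_succ, sum_range_zero, e0, e1, e2, e3, e4] at h
  norm_num at h
  linarith

theorem cC : 0 < 12 * ql 1 + 16 * ql 2 + 16 * ql 3 - 8 * ql 0 := by
  have h := lim_cert (v := 8) (by norm_num) (by decide +kernel) (by decide +kernel)
    (by decide +kernel) RunC.run
  have e0 : cd 2456230236677341819536640 0 = 0 := by decide +kernel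
  have e1 : cd 2456230236677341819536640 1 = 20 := by decide +kernel
  have e2 : cd 2456230236677341819536640 2 = 24 := by decide +kernel
  have e3 : cd 2456230236677341819536640 3 = 24 := by decide +kernel
  have e4 : cd 2456230236677341819536640 4 = 8 := by decide +kernel
  simp only [sum_range_succ, sum_range_zero, e0, e1, e2, e3, e4] at h
  norm_num at h
  linarith

theorem cDD : 0 < 11 * ql 0 - 8 * ql 1 - 12 * ql 2 - 16 * ql 3 - 16 * ql 4 := by
  have h := lim_cert (v := 16) (by norm_num) (by decide +kernel) (by decide +kernel)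
    (by decide +kernel) RunD.run
  have e0 : cd 4912460473354683357872667 0 = 27 := by decide +kernel
  have e1 : cd 4912460473354683357872667 1 = 8 := by decide +kernel
  have e2 : cd 4912460473354683357872667 2 = 4 := by decide +kernel
  have e3 : cd 4912460473354683357872667 3 = 0 := by decide +kernel
  have e4 : cd 4912460473354683357872667 4 = 0 := by decide +kernel
  simp only [sum_range_succ, sum_range_zero, e0, e1, e2, e3, e4] at h
  norm_num at h
  linarith

theorem cF : 4658 / 1000 ≤ 4 * ql 0 + 6 * ql 1 + 8 * ql 2 + 8 * ql 3 := by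
  have h := lim_cert (v := 0) (by norm_num) (by decide +kernel) (by decide +kernel)
    (by decide +kernel) RunF.run
  have e0 : cd 2130308 0 = 4 := by decide +kernel
  have e1 : cd 2130308 1 = 6 := by decide +kernel
  have e2 : cd 2130308 2 = 8 := by decide +kernel
  have e3 : cd 2130308 3 = 8 := by decide +kernel
  have e4 : cd 2130308 4 = 0 := by decide +kernel
  simp only [sum_range_succ, sum_range_zero, e0, e1, e2, e3, e4] at h
  norm_num at h
  linarith

theorem cS : 2183 / 1000 ≤ ql 0 + 2 * ql 1 + 4 * ql 2 + 8 * ql 3 + 16 * ql 4 := by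
  have h := lim_cert (v := 0) (by norm_num) (by decide +kernel) (by decide +kernel)
    (by decide +kernel) RunS.run
  have e0 : cd 811647363 0 = 3 := by decide +kernel
  have e1 : cd 811647363 1 = 6 := by decide +kernel
  have e2 : cd 811647363 2 = 12 := by decide +kernel
  have e3 : cd 811647363 3 = 24 := by decide +kernel
  have e4 : cd 811647363 4 = 48 := by decide +kernel
  simp only [sum_range_succ, sum_range_zero, e0, e1, e2, e3, e4] at h
  norm_num at h
  linarith

theorem a1 : pl 1 < pl 2 := by
  have h := cA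
  simp only [pl, rl]
  linarith

theorem a2 : pl 3 < pl 1 := by
  have h := cB
  simp only [pl, rl]
  linarith

theorem a3 : pl 0 < pl 3 := by
  have h := cC
  simp only [pl, rl]
  linarith

theorem a4 : pl 4 < pl 0 := by
  have h := cDD
  simp only [pl, rl]
  linarith

/-! ### the tail -/

theorem V_le : ∀ k : ℕ, V k ≤ 1026 / 1000 * (557 / 1000) ^ k ∧
    V (k + 1) ≤ 1026 / 1000 * (557 / 1000) ^ (k + 1) := by
  intro k
  induction k with
  | zero => constructor <;> norm_num [V]
  | succ k ih =>
    refine ⟨ih.2, ?_⟩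
    have e : V (k + 1 + 1) = (6 * V (k + 1) + V k) / 14 := rfl
    rw [e]
    have h0 : (0 : ℝ) ≤ (557 / 1000) ^ k := by positivity
    calc (6 * V (k + 1) + V k) / 14
        ≤ (6 * (1026 / 1000 * (557 / 1000) ^ (k + 1)) + 1026 / 1000 * (557 / 1000) ^ k) / 14 := by
          have := ih.1
          have := ih.2
          gcongr
      _ ≤ 1026 / 1000 * (557 / 1000) ^ (k + 1 + 1) := by
          rw [pow_succ (557 / 1000 : ℝ) (k + 1), pow_succ (557 / 1000 : ℝ) k]
          linarith

theorem ql_sim (k : ℕ) : ql (k + 1) ≤ V k := by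
  apply le_of_tendsto' (ql_spec (k + 1))
  intro M
  exact (SA.main M k).trans (SC.main SB.main M k)

theorem ql_ref (k : ℕ) (hk : 1 ≤ k) : ql k * 2 ^ k ≤ 64 := by
  apply le_of_tendsto' ((ql_spec k).mul_const _)
  intro M
  exact (RA.main M k hk).trans (RD.main RB.main RC.main M)

theorem step (m : ℕ) : ql (m + 5) < pl (m + 3) := by
  have ha := a_ge cS cF m
  have hpos : (0 : ℝ) < 2 ^ (m + 3 + 2) := by positivity
  have key : ql (m + 5) * 2 ^ (m + 5) < 4658 / 1000 + m * (2183 / 1000) := by
    by_cases hm : m < 28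
    · have h1 := ql_sim (m + 4)
      have h2 := (V_le (m + 4)).1
      have h3 : ql (m + 5) ≤ 1026 / 1000 * (557 / 1000) ^ (m + 4) := h1.trans h2
      have h4 : ql (m + 5) * 2 ^ (m + 5) ≤ 1026 / 1000 * (557 / 1000) ^ (m + 4) * 2 ^ (m + 5) := by
        gcongr
      refine lt_of_le_of_lt h4 ?_
      clear h1 h2 h3 h4 ha hpos
      interval_cases m <;> norm_num
    · have h1 := ql_ref (m + 5) (by omega)
      refine lt_of_le_of_lt h1 ?_
      have : (28 : ℝ) ≤ m := by exact_mod_cast (not_lt.1 hm)
      linarith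
  have e : m + 3 + 2 = m + 5 := by ring
  rw [e] at ha hpos
  have h5 : 2 ^ (m + 5) * ql (m + 5) < 2 ^ (m + 5) * pl (m + 3) := by linarith
  exact lt_of_mul_lt_mul_left h5 hpos.le

theorem a5 (k : ℕ) (hk : 4 ≤ k) : pl (k + 1) < pl k := by
  obtain ⟨m, rfl⟩ : ∃ m, k = m + 4 := ⟨k - 4, by omega⟩
  have h := step m
  have e1 : pl (m + 4 + 1) = rl (m + 5) / 2 + pl (m + 4) / 2 := rfl
  have e2 : rl (m + 5) = ql (m + 5) / 2 + rl (m + 4) / 2 := rfl
  have e3 : pl (m + 4) = rl (m + 4) / 2 + pl (m + 3) / 2 := rfl
  rw [e1, e2]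
  linarith

/-! ### the finite problem -/

theorem P_even (k : ℕ) : Tendsto (fun n => P n (2 * k)) atTop (𝓝 (pl k)) := by
  rw [Metric.tendsto_atTop]
  intro ε hε
  obtain ⟨M0, hM0⟩ := Link.main Diff.main Tail.main k (ε / 2) (by positivity)
  obtain ⟨M1, hM1⟩ := (Metric.tendsto_atTop.1 (pl_spec k)) (ε / 2) (by positivity)
  obtain ⟨n0, hn0⟩ := hM0 (max M0 M1) (le_max_left _ _)
  refine ⟨n0, fun n hn => ?_⟩
  have h1 := hn0 n hn
  have h2 := hM1 (max M0 M1) (le_max_right _ _)
  rw [Real.dist_eq] at h2 ⊢
  calc |P n (2 * k) - pl k| = |(P n (2 * k) - p (max M0 M1) k) + (p (max M0 M1) k - pl k)| := by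
        congr 1; ring
    _ ≤ |P n (2 * k) - p (max M0 M1) k| + |p (max M0 M1) k - pl k| := abs_add_le _ _
    _ < ε / 2 + ε / 2 := by linarith
    _ = ε := by ring

theorem P_odd (k : ℕ) : Tendsto (fun n => P n (2 * k + 1)) atTop (𝓝 0) := Odd.main Diff.main k

end Pool.Agent.R169.MD.Fin
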