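import Pool.Agent.R169.MD.Avg
import Pool.Agent.R169.MD.Cert

/-!
# The bound for the expected number of future misses
-/

namespace Pool.Agent.R169.MD.Fut
open Finset Pool.Agent.R169.MD Pool.Agent.R169.MD.Avg Pool.Agent.R169.MD.Cert

noncomputable def ha (A : Finset ℕ) (v : ℕ) : ℝ := if v ∈ A then 1 / 2 else 1

theorem ha_nonneg (A : Finset ℕ) (v : ℕ) : 0 ≤ ha A v := by unfold ha; split_ifs <;> norm_num

def CC (n : ℕ) (A B : Finset ℕ) (t : ℕ) : Prop :=
  ∀ x ∈ range (n - t - 1), ¬ (t + 1 + x ∈ A ∧ n - 1 - x ∈ B)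

instance (n : ℕ) (A B : Finset ℕ) (t : ℕ) : Decidable (CC n A B t) := by
  unfold CC; infer_instance

theorem xv_lt_half {n : ℕ} (A : Finset ℕ) {v : ℕ} (h : v < n) :
    1 - xv n A v * (1 / 2) = ha A v := by
  unfold xv ha
  by_cases h1 : v ∈ A <;> simp [h, h1]
  norm_num

theorem xv_ge {n : ℕ} (A : Finset ℕ) {v : ℕ} (h : n ≤ v) : xv n A v = 1 / 2 := by
  unfold xv
  simp [Nat.not_lt.2 h]

theorem bet_lt {n : ℕ} (A B : Finset ℕ) {t : ℕ} (ht : t < n) :
    bet n A B (n + t) = (if CC n A B t then 1 else 0)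
      * (∏ v ∈ range (t + 1), ha A v) * (∏ v ∈ range (t + 1), ha B v) := by
  unfold bet
  have e : n + t + 1 = (t + 1) + ((n - t - 1) + (t + 1)) := by omega
  rw [e, prod_range_add _ (t + 1), prod_range_add _ (n - t - 1)]
  have h1 : ∏ i ∈ range (t + 1), (1 - xv n A i * xv n B (n + t - i))
      = ∏ v ∈ range (t + 1), ha A v := by
    apply prod_congr rfl
    intro i hi
    rw [mem_range] at hi
    rw [xv_ge B (by omega : n ≤ n + t - i), xv_lt_half A (by omega : i < n)]
  have h3 : ∏ x ∈ range (t + 1), (1 - xv n A (t + 1 + (n - t - 1 + x))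
      * xv n B (n + t - (t + 1 + (n - t - 1 + x)))) = ∏ v ∈ range (t + 1), ha B v := by
    rw [← prod_range_reflect (fun v => ha B v) (t + 1)]
    apply prod_congr rfl
    intro x hx
    rw [mem_range] at hx
    rw [xv_ge A (by omega : n ≤ t + 1 + (n - t - 1 + x))]
    have : n + t - (t + 1 + (n - t - 1 + x)) = t + 1 - 1 - x := by omega
    rw [this, mul_comm, xv_lt_half B (by omega : t + 1 - 1 - x < n)]
  have h2 : ∏ x ∈ range (n - t - 1), (1 - xv n A (t + 1 + x) * xv n B (n + t - (t + 1 + x)))
      = (if CC n A B t then 1 else 0) := by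
    by_cases h : CC n A B t
    · simp only [h, if_true]
      apply prod_eq_one
      intro x hx
      have h4 := h x hx
      rw [mem_range] at hx
      have e1 : n + t - (t + 1 + x) = n - 1 - x := by omega
      rw [e1]
      have e2 : t + 1 + x < n := by omega
      have e3 : n - 1 - x < n := by omega
      simp only [xv, e2, e3, if_true]
      by_cases h5 : t + 1 + x ∈ A
      · have : n - 1 - x ∉ B := fun h6 => h4 ⟨h5, h6⟩
        simp [this]
      · simp [h5]
    · simp only [h, if_false]
      unfold CC at h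
      push Not at h
      obtain ⟨x, hx, h5, h6⟩ := h
      apply prod_eq_zero hx
      rw [mem_range] at hx
      have e1 : n + t - (t + 1 + x) = n - 1 - x := by omega
      rw [e1]
      have e2 : t + 1 + x < n := by omega
      have e3 : n - 1 - x < n := by omega
      simp [xv, e2, e3, h5, h6]
  rw [h1, h2, h3]
  ring

theorem bet_ge {n : ℕ} (A B : Finset ℕ) {t : ℕ} (ht : n ≤ t) :
    bet n A B (n + t) = (∏ v ∈ range n, ha A v) * (∏ v ∈ range n, ha B v)
      * (3 / 4) ^ (t - n + 1) := by
  unfold bet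
  have e : n + t + 1 = n + ((t - n + 1) + n) := by omega
  rw [e, prod_range_add, prod_range_add]
  have h1 : ∏ i ∈ range n, (1 - xv n A i * xv n B (n + t - i))
      = ∏ v ∈ range n, ha A v := by
    apply prod_congr rfl
    intro i hi
    rw [mem_range] at hi
    rw [xv_ge B (by omega : n ≤ n + t - i), xv_lt_half A (by omega : i < n)]
  have h2 : ∏ x ∈ range (t - n + 1), (1 - xv n A (n + x) * xv n B (n + t - (n + x)))
      = (3 / 4) ^ (t - n + 1) := by
    rw [prod_congr rfl (g := fun _ => (3 / 4 : ℝ)), prod_const, card_range]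
    intro x hx
    rw [mem_range] at hx
    rw [xv_ge A (by omega : n ≤ n + x), xv_ge B (by omega : n ≤ n + t - (n + x))]
    norm_num
  have h3 : ∏ x ∈ range n, (1 - xv n A (n + (t - n + 1 + x))
      * xv n B (n + t - (n + (t - n + 1 + x)))) = ∏ v ∈ range n, ha B v := by
    rw [← prod_range_reflect (fun v => ha B v) n]
    apply prod_congr rfl
    intro x hx
    rw [mem_range] at hx
    rw [xv_ge A (by omega : n ≤ n + (t - n + 1 + x))]
    have : n + t - (n + (t - n + 1 + x)) = n - 1 - x := by omega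
    rw [this, mul_comm, xv_lt_half B (by omega : n - 1 - x < n)]
  rw [h1, h2, h3]
  ring

theorem bet_nonneg (n : ℕ) (A B : Finset ℕ) (N : ℕ) : 0 ≤ bet n A B N := by
  unfold bet
  apply prod_nonneg
  intro i _
  have h : ∀ (A : Finset ℕ) (j : ℕ), 0 ≤ xv n A j ∧ xv n A j ≤ 1 := by
    intro A j
    unfold xv
    split_ifs <;> norm_num
  have := h A i
  have := h B (N - i)
  nlinarith

/-- the upper bound for the expected number of future misses -/
theorem fu_le {n : ℕ} {A B : Finset ℕ} (hA : A ⊆ range n) (hB : B ⊆ range n) (m : ℕ) :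
    fu m n A B ≤ ∑ t ∈ range n, (if CC n A B t then 1 else 0)
        * (∏ v ∈ range (t + 1), ha A v * ha B v)
      + 3 * ∏ v ∈ range n, (ha A v * ha B v) := by
  rw [fu_eq m n A B hA hB]
  calc ∑ t ∈ range m, bet n A B (n + t) ≤ ∑ t ∈ range (n + m), bet n A B (n + t) := by
        apply sum_le_sum_of_subset_of_nonneg
        · apply range_subset_range.2; omega
        · intro i _ _; exact bet_nonneg _ _ _ _
    _ = ∑ t ∈ range n, bet n A B (n + t) + ∑ t ∈ range m, bet n A B (n + (n + t)) := by
        rw [sum_range_add]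
    _ ≤ _ := by
        gcongr ?_ + ?_
        · apply le_of_eq
          apply sum_congr rfl
          intro t ht
          rw [mem_range] at ht
          rw [bet_lt A B ht, prod_mul_distrib]
          ring
        · have : ∀ t ∈ range m, bet n A B (n + (n + t))
              = (∏ v ∈ range n, (ha A v * ha B v)) * ((3 / 4) ^ t * (3 / 4)) := by
            intro t _
            rw [bet_ge A B (by omega : n ≤ n + t), prod_mul_distrib]
            have : n + t - n + 1 = t + 1 := by omega
            rw [this, pow_succ]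
          rw [sum_congr rfl this, ← mul_sum, ← sum_mul]
          have hg : ∑ i ∈ range m, (3 / 4 : ℝ) ^ i ≤ 4 := by
            have := geom_sum_eq (by norm_num : (3 / 4 : ℝ) ≠ 1) m
            rw [this]
            have h0 : (0 : ℝ) ≤ (3 / 4) ^ m := by positivity
            have : ((3 / 4 : ℝ) ^ m - 1) / (3 / 4 - 1) = 4 * (1 - (3 / 4) ^ m) := by ring
            rw [this]; linarith
          have hp : 0 ≤ ∏ v ∈ range n, (ha A v * ha B v) :=
            prod_nonneg (fun v _ => mul_nonneg (ha_nonneg _ _) (ha_nonneg _ _))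
          nlinarith

/-! ### relation to bit masks -/

structure Rel (n : ℕ) (A B : Finset ℕ) (a b r : ℕ) : Prop where
  hA : A ⊆ range n
  hB : B ⊆ range n
  ta : ∀ i, a.testBit i = decide (i ∈ A)
  tb : ∀ i, b.testBit i = decide (i ∈ B)
  tr : ∀ i, r.testBit i = decide (i < n ∧ n - 1 - i ∈ B)

theorem land_zero_iff (x y : ℕ) : x &&& y = 0 ↔ ∀ i, ¬ (x.testBit i = true ∧ y.testBit i = true) := by
  constructor
  · intro h i hi
    have : (x &&& y).testBit i = true := by rw [Nat.testBit_and, hi.1, hi.2]; rfl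
    rw [h] at this
    simp at this
  · intro h
    apply Nat.eq_of_testBit_eq
    intro i
    rw [Nat.testBit_and, Nat.zero_testBit]
    by_contra h2
    rw [Bool.not_eq_false, Bool.and_eq_true] at h2
    exact h i h2

theorem cc_iff {n : ℕ} {A B : Finset ℕ} {a b r : ℕ} (h : Rel n A B a b r) (t : ℕ) :
    (a >>> (t + 1)) &&& r = 0 ↔ CC n A B t := by
  rw [land_zero_iff]
  unfold CC
  constructor
  · intro h1 x hx hc
    rw [mem_range] at hx
    apply h1 x
    rw [Nat.testBit_shiftRight, h.ta, h.tr]
    refine ⟨decide_eq_true hc.1, decide_eq_true ⟨by omega, hc.2⟩⟩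
  · intro h1 x hx
    rw [Nat.testBit_shiftRight, h.ta, h.tr] at hx
    have h2 := of_decide_eq_true hx.1
    have h3 := of_decide_eq_true hx.2
    have h4 := h.hA h2
    rw [mem_range] at h4
    exact h1 x (by rw [mem_range]; omega) ⟨h2, h3.2⟩

theorem bit_val (a : ℕ) (A : Finset ℕ) (h : ∀ i, a.testBit i = decide (i ∈ A)) (t : ℕ) :
    (a >>> t) &&& 1 = if t ∈ A then 1 else 0 := by
  have h1 := h t
  rw [Nat.testBit_eq_decide_div_mod_eq] at h1
  rw [Nat.and_one_is_mod, Nat.shiftRight_eq_div_pow]
  by_cases h2 : t ∈ A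
  · simp only [h2, decide_true] at h1
    simp only [h2, if_true]
    simpa using h1
  · simp only [h2, decide_false] at h1
    simp only [h2, if_false]
    have := of_decide_eq_false h1
    omega

theorem eloop_spec {n : ℕ} {A B : Finset ℕ} {a b r : ℕ} (h : Rel n A B a b r) :
    ∀ (f t E acc : ℕ), f + t = n → 2 * f ≤ E →
    (eloop f (a >>> t) (b >>> t) r (2 ^ E) acc : ℝ) = acc
      + 2 ^ E * (∑ u ∈ range f, (if CC n A B (t + u) then 1 else 0)
          * ∏ v ∈ range (u + 1), (ha A (t + v) * ha B (t + v))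
        + 3 * ∏ v ∈ range f, (ha A (t + v) * ha B (t + v))) := by
  intro f
  induction f with
  | zero =>
    intro t E acc _ _
    have : eloop 0 (a >>> t) (b >>> t) r (2 ^ E) acc = acc + 3 * 2 ^ E := rfl
    rw [this]
    push_cast
    simp
    ring
  | succ f ih =>
    intro t E acc hf hE
    have hstep : eloop (f + 1) (a >>> t) (b >>> t) r (2 ^ E) acc
      = bif Nat.beq (((a >>> t) >>> 1) &&& r) 0 then
          eloop f ((a >>> t) >>> 1) ((b >>> t) >>> 1) r
            (2 ^ E >>> (((a >>> t) &&& 1) + ((b >>> t) &&& 1)))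
            (acc + 2 ^ E >>> (((a >>> t) &&& 1) + ((b >>> t) &&& 1)))
        else eloop f ((a >>> t) >>> 1) ((b >>> t) >>> 1) r
            (2 ^ E >>> (((a >>> t) &&& 1) + ((b >>> t) &&& 1))) acc := rfl
    rw [hstep, bit_val a A h.ta t, bit_val b B h.tb t]
    have hsh : (a >>> t) >>> 1 = a >>> (t + 1) := by rw [← Nat.shiftRight_add]
    have hsh2 : (b >>> t) >>> 1 = b >>> (t + 1) := by rw [← Nat.shiftRight_add]
    rw [hsh, hsh2]
    set k : ℕ := (if t ∈ A then 1 else 0) + (if t ∈ B then 1 else 0) with hk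
    have hk2 : k ≤ 2 := by rw [hk]; split_ifs <;> omega
    have hW : 2 ^ E >>> k = 2 ^ (E - k) := by
      rw [Nat.shiftRight_eq_div_pow, Nat.pow_div (by omega) (by norm_num)]
    rw [hW]
    have hg : (2 : ℝ) ^ (E - k) = 2 ^ E * (ha A t * ha B t) := by
      have : (2 : ℝ) ^ E = 2 ^ (E - k) * 2 ^ k := by rw [← pow_add]; congr 1; omega
      rw [this, hk]
      unfold ha
      split_ifs <;> ring
    have ihA := ih (t + 1) (E - k)
    have hsum : ∑ u ∈ range (f + 1), (if CC n A B (t + u) then (1 : ℝ) else 0)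
          * ∏ v ∈ range (u + 1), (ha A (t + v) * ha B (t + v))
        = (ha A t * ha B t) * (∑ u ∈ range f, (if CC n A B (t + 1 + u) then 1 else 0)
          * ∏ v ∈ range (u + 1), (ha A (t + 1 + v) * ha B (t + 1 + v)))
          + (if CC n A B t then 1 else 0) * (ha A t * ha B t) := by
      rw [sum_range_succ', mul_sum]
      congr 1
      · apply sum_congr rfl
        intro u _
        rw [prod_range_succ']
        have e1 : t + (u + 1) = t + 1 + u := by omega
        have e2 : ∏ v ∈ range (u + 1), (ha A (t + (v + 1)) * ha B (t + (v + 1)))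
            = ∏ v ∈ range (u + 1), (ha A (t + 1 + v) * ha B (t + 1 + v)) := by
          apply prod_congr rfl
          intro v _
          have : t + (v + 1) = t + 1 + v := by omega
          rw [this]
        rw [e1, e2, add_zero]
        ring
      · simp
    have hprod : ∏ v ∈ range (f + 1), (ha A (t + v) * ha B (t + v))
        = (∏ v ∈ range f, (ha A (t + 1 + v) * ha B (t + 1 + v))) * (ha A t * ha B t) := by
      rw [prod_range_succ', add_zero]
      congr 1
      apply prod_congr rfl
      intro v _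
      have : t + (v + 1) = t + 1 + v := by omega
      rw [this]
    rw [hsum, hprod]
    by_cases hc : CC n A B t
    · have hb : Nat.beq (a >>> (t + 1) &&& r) 0 = true := by
        rw [Nat.beq_eq]; exact (cc_iff h t).2 hc
      rw [hb, cond_true, ihA _ (by omega) (by omega), if_pos hc]
      push_cast
      rw [hg]
      ring
    · have hb : Nat.beq (a >>> (t + 1) &&& r) 0 = false := by
        rw [← Bool.not_eq_true, Nat.beq_eq]
        intro h5
        exact hc ((cc_iff h t).1 h5)
      rw [hb, cond_false, ihA _ (by omega) (by omega), if_neg hc]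
      rw [hg]
      ring

theorem fu_le_eloop {n : ℕ} {A B : Finset ℕ} {a b r : ℕ} (h : Rel n A B a b r) (m : ℕ) :
    fu m n A B ≤ (eloop n a b r (Nat.shiftLeft 1 (Nat.mul 2 n)) 0 : ℝ) / 4 ^ n := by
  have h1 := eloop_spec h n 0 (2 * n) 0 (by omega) (by omega)
  have e0 : Nat.shiftLeft 1 (Nat.mul 2 n) = 2 ^ (2 * n) := by
    show 1 <<< (2 * n) = _
    rw [Nat.shiftLeft_eq, one_mul]
  simp only [Nat.shiftRight_zero, zero_add, Nat.cast_zero] at h1
  rw [e0, h1]
  have : (2 : ℝ) ^ (2 * n) = 4 ^ n := by rw [pow_mul]; norm_num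
  rw [this, mul_comm, mul_div_assoc, div_self (by positivity), mul_one]
  exact fu_le h.hA h.hB m

end Pool.Agent.R169.MD.Fut
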