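import Pool.Agent.R169.MD.Stm

/-! MD-REC (MP_7c207a_co): recursions by removing `0`. -/

namespace Pool.Agent.R169.MD.Rec

open Finset Pool.Agent.R169.MD

lemma miss_comm (A B : Finset ℕ) (j : ℕ) : Miss A B j ↔ Miss B A j := by
  have : ∀ A B : Finset ℕ, Miss A B j → Miss B A j := by
    intro A B h i hi hc
    have hi' := mem_range.1 hi
    refine h (j - i) (by rw [mem_range]; omega) ⟨hc.2, ?_⟩
    have : j - (j - i) = i := by omega
    rw [this]
    exact hc.1
  exact ⟨this A B, this B A⟩

lemma X_comm (M : ℕ) (A B : Finset ℕ) : X M A B = X M B A := by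
  unfold X
  congr 1
  exact filter_congr fun j _ => miss_comm A B j

def sh : ℕ ↪ ℕ := ⟨fun i => i + 1, fun _ _ h => Nat.succ_injective h⟩

lemma mem_sh (B : Finset ℕ) (i : ℕ) : i + 1 ∈ B.map sh ↔ i ∈ B := by
  rw [mem_map]
  constructor
  · rintro ⟨a, ha, h⟩
    have : a = i := Nat.succ_injective h
    rwa [← this]
  · intro h
    exact ⟨i, h, rfl⟩

lemma zero_sh (B : Finset ℕ) : 0 ∉ B.map sh := by
  rw [mem_map]
  rintro ⟨a, _, h⟩
  exact Nat.succ_ne_zero a h

lemma miss_zero (A B : Finset ℕ) (h : 0 ∉ B) : Miss A B 0 := by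
  intro i hi hc
  have : i = 0 := by have := mem_range.1 hi; omega
  subst this
  exact h (by simpa using hc.2)

lemma miss_sh (A B : Finset ℕ) (j : ℕ) : Miss A (B.map sh) (j + 1) ↔ Miss A B j := by
  constructor
  · intro h i hi hc
    have hi' := mem_range.1 hi
    refine h i (by rw [mem_range]; omega) ⟨hc.1, ?_⟩
    have : j + 1 - i = (j - i) + 1 := by omega
    rw [this, mem_sh]
    exact hc.2
  · intro h i hi hc
    have hi' := mem_range.1 hi
    rcases Nat.lt_or_ge i (j + 1) with h1 | h1
    · refine h i (by rw [mem_range]; omega) ⟨hc.1, ?_⟩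
      have : j + 1 - i = (j - i) + 1 := by omega
      rw [this, mem_sh] at hc
      exact hc.2
    · have : j + 1 - i = 0 := by omega
      rw [this] at hc
      exact zero_sh B hc.2

lemma X_sh (M : ℕ) (A B : Finset ℕ) : X (M + 1) A (B.map sh) = X M A B + 1 := by
  unfold X
  rw [range_add_one', filter_insert, if_pos (miss_zero A _ (zero_sh B)), card_insert_of_notMem]
  · congr 1
    rw [filter_map, card_map]
    congr 1
    refine filter_congr fun j _ => ?_
    exact miss_sh A B j
  · intro h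
    have := (mem_filter.1 h).1
    rw [mem_map] at this
    obtain ⟨a, _, h'⟩ := this
    exact Nat.succ_ne_zero a h'

lemma X_insert_left (M : ℕ) (A B : Finset ℕ) : X M (insert M A) B = X M A B := by
  unfold X
  congr 1
  refine filter_congr fun j hj => ?_
  unfold Miss
  refine forall₂_congr fun i hi => ?_
  have : i ≠ M := by have := mem_range.1 hi; have := mem_range.1 hj; omega
  rw [mem_insert]
  tauto

lemma sum_sh (M : ℕ) (f : Finset ℕ → ℕ) :
    ∑ B ∈ ((range M).map sh).powerset, f B = ∑ B ∈ (range M).powerset, f (B.map sh) := by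
  symm
  refine sum_bij (fun B _ => B.map sh) ?_ ?_ ?_ (fun _ _ => rfl)
  · intro B hB
    rw [mem_powerset] at hB ⊢
    exact map_subset_map.2 hB
  · intro B _ C _ h
    exact map_injective _ h
  · intro C hC
    rw [mem_powerset, subset_map_iff] at hC
    obtain ⟨u, hu, rfl⟩ := hC
    exact ⟨u, mem_powerset.2 hu, rfl⟩

lemma gen (P : Finset ℕ → Prop) [DecidablePred P] (M k : ℕ)
    (hP : ∀ A, P (insert M A) ↔ P A) :
    ((Om (M + 1)).filter (fun c => P c.1 ∧ 0 ∉ c.2 ∧ X (M + 1) c.1 c.2 = k + 1)).card =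
      2 * ((Om M).filter (fun c => P c.1 ∧ X M c.1 c.2 = k)).card := by
  unfold Om
  rw [card_filter, card_filter, sum_product, sum_product]
  simp only
  have h1 : ∀ A : Finset ℕ, ∑ B ∈ (range (M + 1)).powerset,
      (if P A ∧ 0 ∉ B ∧ X (M + 1) A B = k + 1 then 1 else 0) =
      ∑ B ∈ (range M).powerset, (if P A ∧ X M A B = k then 1 else 0) := by
    intro A
    have e : range (M + 1) = insert 0 ((range M).map sh) := range_add_one' M
    rw [e, sum_powerset_insert (zero_sh _)]
    have h2 : ∑ t ∈ ((range M).map sh).powerset,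
        (if P A ∧ 0 ∉ insert 0 t ∧ X (M + 1) A (insert 0 t) = k + 1 then 1 else 0) = 0 := by
      refine sum_eq_zero fun t _ => ?_
      rw [if_neg]
      intro h
      exact h.2.1 (mem_insert_self _ _)
    rw [h2, add_zero, sum_sh]
    refine sum_congr rfl fun B _ => ?_
    rw [X_sh]
    have h3 := zero_sh B
    simp [h3]
  simp_rw [h1]
  rw [range_add_one (n := M), sum_powerset_insert (by simp)]
  have h4 : ∀ A ∈ (range M).powerset,
      ∑ B ∈ (range M).powerset, (if P (insert M A) ∧ X M (insert M A) B = k then 1 else 0) =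
      ∑ B ∈ (range M).powerset, (if P A ∧ X M A B = k then 1 else 0) := by
    intro A _
    refine sum_congr rfl fun B _ => ?_
    rw [X_insert_left]
    simp only [hP]
  rw [sum_congr rfl h4]
  ring

lemma X_pos (M : ℕ) (A B : Finset ℕ) (h : 0 ∉ B) : X (M + 1) A B ≠ 0 := by
  unfold X
  rw [Ne, card_eq_zero]
  intro h'
  have : 0 ∈ (range (M + 1)).filter (fun j => Miss A B j) :=
    mem_filter.2 ⟨by simp, miss_zero A B h⟩
  rw [h'] at this
  exact absurd this (notMem_empty _)

lemma swap_card (M : ℕ) (P : Finset ℕ → Finset ℕ → Prop) [∀ A B, Decidable (P A B)] :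
    ((Om M).filter (fun c => P c.1 c.2)).card = ((Om M).filter (fun c => P c.2 c.1)).card := by
  unfold Om
  rw [card_filter, card_filter, sum_product, sum_product, sum_comm]

lemma split_card (S : Finset (Finset ℕ × Finset ℕ)) (P Q : Finset ℕ × Finset ℕ → Prop)
    [DecidablePred P] [DecidablePred Q] :
    (S.filter P).card = (S.filter (fun c => Q c ∧ P c)).card +
      (S.filter (fun c => ¬ Q c ∧ P c)).card := by
  rw [card_filter, card_filter, card_filter, ← sum_add_distrib]
  refine sum_congr rfl fun c _ => ?_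
  by_cases h1 : P c <;> by_cases h2 : Q c <;> simp [h1, h2]

lemma recp (M k : ℕ) : cp (M + 1) (k + 1) = cr (M + 1) (k + 1) + 2 * cp M k := by
  unfold cp cr
  rw [split_card (Om (M + 1)) (fun c => X (M + 1) c.1 c.2 = k + 1) (fun c => 0 ∈ c.1)]
  congr 1
  have h := gen (fun _ => True) M k (fun _ => Iff.rfl)
  simp only [true_and] at h
  rw [← h, swap_card (M + 1) (fun A B => 0 ∉ A ∧ X (M + 1) A B = k + 1)]
  congr 1
  refine filter_congr fun c _ => ?_
  rw [X_comm]

lemma recr (M k : ℕ) (hM : 1 ≤ M) : cr (M + 1) (k + 1) = cq (M + 1) (k + 1) + 2 * cr M k := by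
  unfold cr cq
  rw [split_card (Om (M + 1)) (fun c => 0 ∈ c.1 ∧ X (M + 1) c.1 c.2 = k + 1) (fun c => 0 ∈ c.2)]
  have h := gen (fun A => 0 ∈ A) M k (fun A => by
    rw [mem_insert]
    have : (0 : ℕ) ≠ M := by omega
    simp [this])
  rw [← h]
  congr 1
  · congr 1
    refine filter_congr fun c _ => ?_
    tauto
  · congr 1
    refine filter_congr fun c _ => ?_
    tauto

lemma recp0 (M : ℕ) : cp (M + 1) 0 = cr (M + 1) 0 := by
  unfold cp cr
  congr 1
  refine filter_congr fun c _ => ?_
  constructor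
  · intro h
    refine ⟨?_, h⟩
    by_contra h0
    rw [X_comm] at h
    exact X_pos M _ _ h0 h
  · exact fun h => h.2

lemma recr0 (M : ℕ) : cr (M + 1) 0 = cq (M + 1) 0 := by
  unfold cr cq
  congr 1
  refine filter_congr fun c _ => ?_
  constructor
  · rintro ⟨h1, h⟩
    refine ⟨h1, ?_, h⟩
    by_contra h0
    exact X_pos M _ _ h0 h
  · exact fun h => ⟨h.1, h.2.2⟩

theorem main : S_REC := by
  intro M k hM
  unfold p r q
  rw [recp M k, recr M k hM, recp0 M, recr0 M]
  push_cast
  rw [pow_succ]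
  refine ⟨?_, ?_, ?_, ?_⟩ <;> field_simp <;> ring

end Pool.Agent.R169.MD.Rec
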