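import Pool.Agent.R169.MD.Top
import Pool.Agent.R169.MD.Rec
import Pool.Agent.R169.MD.Cau

/-!
# The limits
-/

namespace Pool.Agent.R169.MD.Lim
open Finset Filter Topology Pool.Agent.R169.MD Pool.Agent.R169.MD.Avg Pool.Agent.R169.MD.Cert
open Pool.Agent.R169.MD.Sound Pool.Agent.R169.MD.Top

theorem q_tendsto (k : ℕ) : ∃ L : ℝ, Tendsto (fun M => q M k) atTop (𝓝 L) := by
  have hc : CauchySeq (fun M => q (M + 1) k) := by
    apply cauchySeq_of_le_geometric (3 / 4 : ℝ) 1 (by norm_num)
    intro M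
    have h := Cau.main (M + 1) k (by omega)
    rw [dist_comm, Real.dist_eq]
    refine h.trans ?_
    rw [pow_succ, one_mul]
    have : (0 : ℝ) ≤ (3 / 4) ^ M := by positivity
    linarith
  obtain ⟨L, hL⟩ := cauchySeq_tendsto_of_complete hc
  exact ⟨L, (tendsto_add_atTop_iff_nat (f := fun M => q M k) 1).1 hL⟩

noncomputable def ql (k : ℕ) : ℝ := (q_tendsto k).choose

theorem ql_spec (k : ℕ) : Tendsto (fun M => q M k) atTop (𝓝 (ql k)) := (q_tendsto k).choose_spec

noncomputable def rl : ℕ → ℝ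
  | 0 => ql 0 / 2
  | k + 1 => ql (k + 1) / 2 + rl k / 2

noncomputable def pl : ℕ → ℝ
  | 0 => rl 0 / 2
  | k + 1 => rl (k + 1) / 2 + pl k / 2

theorem shift {f : ℕ → ℝ} {L : ℝ} (h : Tendsto (fun M => f (M + 1)) atTop (𝓝 L)) :
    Tendsto f atTop (𝓝 L) := (tendsto_add_atTop_iff_nat (f := f) 1).1 h

theorem rl_spec : ∀ k : ℕ, Tendsto (fun M => r M k) atTop (𝓝 (rl k)) := by
  intro k
  induction k with
  | zero =>
    apply shift
    have h : Tendsto (fun M => q (M + 1) 0 / 2) atTop (𝓝 (ql 0 / 2)) :=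
      ((tendsto_add_atTop_iff_nat 1).2 (ql_spec 0)).div_const 2
    refine h.congr' ?_
    filter_upwards [eventually_ge_atTop 1] with M hM
    exact ((Rec.main M 0 hM).2.2.2).symm
  | succ k ih =>
    apply shift
    have h : Tendsto (fun M => q (M + 1) (k + 1) / 2 + r M k / 2) atTop
        (𝓝 (ql (k + 1) / 2 + rl k / 2)) :=
      (((tendsto_add_atTop_iff_nat 1).2 (ql_spec (k + 1))).div_const 2).add (ih.div_const 2)
    refine h.congr' ?_
    filter_upwards [eventually_ge_atTop 1] with M hM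
    exact ((Rec.main M k hM).2.1).symm

theorem pl_spec : ∀ k : ℕ, Tendsto (fun M => p M k) atTop (𝓝 (pl k)) := by
  intro k
  induction k with
  | zero =>
    apply shift
    have h : Tendsto (fun M => r (M + 1) 0 / 2) atTop (𝓝 (rl 0 / 2)) :=
      ((tendsto_add_atTop_iff_nat 1).2 (rl_spec 0)).div_const 2
    refine h.congr' ?_
    filter_upwards [eventually_ge_atTop 1] with M hM
    exact ((Rec.main M 0 hM).2.2.1).symm
  | succ k ih =>
    apply shift
    have h : Tendsto (fun M => r (M + 1) (k + 1) / 2 + p M k / 2) atTop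
        (𝓝 (rl (k + 1) / 2 + pl k / 2)) :=
      (((tendsto_add_atTop_iff_nat 1).2 (rl_spec (k + 1))).div_const 2).add (ih.div_const 2)
    refine h.congr' ?_
    filter_upwards [eventually_ge_atTop 1] with M hM
    exact ((Rec.main M k hM).1).symm

theorem q_nonneg (M k : ℕ) : 0 ≤ q M k := by unfold q; positivity

theorem ql_nonneg (k : ℕ) : 0 ≤ ql k := ge_of_tendsto' (ql_spec k) (fun M => q_nonneg M k)

/-! ### certificates in the limit -/

theorem cd_big {w c : ℕ} (hw : w < 64 ^ 14) (hc : 14 ≤ c) : cd w c = 0 := by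
  show (w >>> (6 * c)) &&& 63 = 0
  rw [Nat.shiftRight_eq_div_pow, Nat.div_eq_of_lt]
  · simp
  · calc w < 64 ^ 14 := hw
      _ = 2 ^ (6 * 14) := by norm_num
      _ ≤ 2 ^ (6 * c) := Nat.pow_le_pow_right (by norm_num) (by omega)

theorem ok_of {w s r : ℕ} (hw : w < 64 ^ 14)
    (h1 : ∀ c ∈ range 14, ∀ j ∈ range 14, cd w c ≤ cd w (min (c + j) 13) + cd s c * j)
    (h2 : ∀ c ∈ range 14, cd r c = 0 → ∀ j ∈ range 14, cd w c ≤ cd w (min (c + j) 13)) :
    Ok (fun c => (cd w (min c 13) : ℝ)) w s r := by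
  refine ⟨fun c => Nat.cast_nonneg _, ?_, ?_⟩
  · intro c j
    have h : cd w c ≤ cd w (min (c + j) 13) + cd s c * j := by
      by_cases hc : c < 14
      · by_cases hj : j < 14
        · exact h1 c (mem_range.2 hc) j (mem_range.2 hj)
        · have h3 := h1 c (mem_range.2 hc) 13 (by simp)
          have e1 : min (c + 13) 13 = 13 := by omega
          have e2 : min (c + j) 13 = 13 := by omega
          rw [e1] at h3
          rw [e2]
          refine h3.trans ?_
          have : cd s c * 13 ≤ cd s c * j := Nat.mul_le_mul_left _ (by omega)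
          omega
      · rw [cd_big hw (by omega)]
        exact Nat.zero_le _
    have h' : (cd w c : ℝ) ≤ cd w (min (c + j) 13) + cd s c * j := by exact_mod_cast h
    show (cd w c : ℝ) - cd s c * j ≤ (cd w (min (c + j) 13) : ℝ)
    linarith
  · intro c hr j
    have h : cd w c ≤ cd w (min (c + j) 13) := by
      by_cases hc : c < 14
      · by_cases hj : j < 14
        · exact h2 c (mem_range.2 hc) hr j (mem_range.2 hj)
        · have h3 := h2 c (mem_range.2 hc) hr 13 (by simp)
          have e1 : min (c + 13) 13 = 13 := by omega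
          have e2 : min (c + j) 13 = 13 := by omega
          rw [e1] at h3
          rw [e2]
          exact h3
      · rw [cd_big hw (by omega)]
        exact Nat.zero_le _
    show (cd w c : ℝ) ≤ (cd w (min (c + j) 13) : ℝ)
    exact_mod_cast h

theorem lim_cert {w s r T K v : ℕ} (hw : w < 64 ^ 14)
    (h1 : ∀ c ∈ range 14, ∀ j ∈ range 14, cd w c ≤ cd w (min (c + j) 13) + cd s c * j)
    (h2 : ∀ c ∈ range 14, cd r c = 0 → ∀ j ∈ range 14, cd w c ≤ cd w (min (c + j) 13))
    (hv : ∀ c ∈ range 14, 5 ≤ c → cd w c = v)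
    (hK : Nat.ble K (goS w s r T 14 20 1 1 1 0) = true) :
    (K : ℝ) / 4 ^ 27 ≤ v + ∑ k ∈ range 5, ((cd w k : ℝ) - v) * ql k := by
  have ok := ok_of hw h1 h2
  have key : ∀ M : ℕ, 14 ≤ M → (K : ℝ) / 4 ^ 27 ≤ v + ∑ k ∈ range 5, ((cd w k : ℝ) - v) * q M k := by
    intro M hM
    have h := cert ok T 14 20 K (by norm_num) hK hM
    have e : ∑ k ∈ range (M + 1), (cd w (min k 13) : ℝ) * q M k
        = v + ∑ k ∈ range 5, ((cd w k : ℝ) - v) * q M k := by
      have e1 : ∑ k ∈ range (M + 1), (cd w (min k 13) : ℝ) * q M k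
          = ∑ k ∈ range (M + 1), ((v : ℝ) * q M k + ((cd w (min k 13) : ℝ) - v) * q M k) := by
        apply sum_congr rfl
        intro k _
        ring
      rw [e1, sum_add_distrib, ← mul_sum, q_total (by omega), mul_one]
      congr 1
      have hsub : range 5 ⊆ range (M + 1) := range_subset_range.2 (by omega)
      rw [← sum_subset hsub]
      · apply sum_congr rfl
        intro k hk
        rw [mem_range] at hk
        have : min k 13 = k := by omega
        rw [this]
      · intro k _ hk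
        rw [mem_range] at hk
        have : cd w (min k 13) = v := by
          apply hv
          · rw [mem_range]; omega
          · omega
        rw [this, sub_self, zero_mul]
    rw [e] at h
    rw [div_le_iff₀ (by positivity)]
    have e3 : 2 * 14 - 1 = 27 := by norm_num
    rw [e3] at h
    linarith
  have ht : Tendsto (fun M => (v : ℝ) + ∑ k ∈ range 5, ((cd w k : ℝ) - v) * q M k) atTop
      (𝓝 (v + ∑ k ∈ range 5, ((cd w k : ℝ) - v) * ql k)) := by
    apply Tendsto.add tendsto_const_nhds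
    apply tendsto_finsetSum
    intro k _
    exact (ql_spec k).const_mul _
  apply ge_of_tendsto ht
  filter_upwards [eventually_ge_atTop 14] with M hM
  exact key M hM

/-! ### scaled sequences -/

theorem b_eq (k : ℕ) : (2 : ℝ) ^ (k + 1) * rl k = ∑ j ∈ range (k + 1), 2 ^ j * ql j := by
  induction k with
  | zero => simp [rl]; ring
  | succ k ih =>
    rw [sum_range_succ, ← ih]
    simp only [rl]
    ring

theorem a_succ (k : ℕ) : (2 : ℝ) ^ (k + 3) * pl (k + 1)
    = 2 ^ (k + 2) * rl (k + 1) + 2 ^ (k + 2) * pl k := by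
  simp only [pl]
  ring

theorem b_ge {S : ℝ} (hS : S ≤ ql 0 + 2 * ql 1 + 4 * ql 2 + 8 * ql 3 + 16 * ql 4) (k : ℕ)
    (hk : 4 ≤ k) : S ≤ 2 ^ (k + 1) * rl k := by
  rw [b_eq]
  have hsub : range 5 ⊆ range (k + 1) := range_subset_range.2 (by omega)
  refine le_trans ?_ (sum_le_sum_of_subset_of_nonneg hsub
    (fun i _ _ => mul_nonneg (by positivity) (ql_nonneg i)))
  simp only [sum_range_succ, sum_range_zero]
  norm_num
  linarith

theorem a_ge {S F : ℝ} (hS : S ≤ ql 0 + 2 * ql 1 + 4 * ql 2 + 8 * ql 3 + 16 * ql 4)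
    (hF : F ≤ 4 * ql 0 + 6 * ql 1 + 8 * ql 2 + 8 * ql 3) (m : ℕ) :
    F + m * S ≤ 2 ^ (m + 3 + 2) * pl (m + 3) := by
  induction m with
  | zero =>
    simp only [pl, rl]
    norm_num
    linarith
  | succ m ih =>
    have e : m + 1 + 3 + 2 = (m + 3) + 3 := by ring
    have e2 : m + 1 + 3 = (m + 3) + 1 := by ring
    rw [e, e2, a_succ]
    have hb := b_ge hS (m + 3 + 1) (by omega)
    push_cast
    have e3 : m + 3 + 1 + 1 = m + 3 + 2 := by ring
    rw [e3] at hb
    linarith

end Pool.Agent.R169.MD.Lim
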