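import Pool.Agent.R169.MD.Stm

namespace Pool.Agent.R169.MD.Link
open Finset Filter Topology
open Pool.Agent.R169.MD

/-- the two windows of `S` -/
def Phi (n M : ℕ) (S : Finset ℕ) : Finset ℕ × Finset ℕ :=
  ((range M).filter (fun i => i ∈ S), (range M).filter (fun j => n - 1 - j ∈ S))

theorem count (n M : ℕ) (h : 2 * M ≤ n) (Q : Finset ℕ × Finset ℕ → Prop) [DecidablePred Q] :
    ((range n).powerset.filter (fun S => Q (Phi n M S))).card
      = ((Om M).filter Q).card * 2 ^ (n - 2 * M) := by
  classical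
  have h2 : (Ico M (n - M)).powerset.card = 2 ^ (n - 2 * M) := by
    rw [card_powerset, Nat.card_Ico]
    congr 1
    omega
  rw [← h2, ← card_product]
  refine card_nbij' (fun S => (Phi n M S, (Ico M (n - M)).filter (fun i => i ∈ S)))
    (fun c => (range n).filter (fun i => (i < M ∧ i ∈ c.1.1) ∨ (n - M ≤ i ∧ n - 1 - i ∈ c.1.2)
      ∨ (M ≤ i ∧ i < n - M ∧ i ∈ c.2))) ?_ ?_ ?_ ?_
  · intro S hS
    simp only [coe_filter, mem_powerset, Set.mem_ofPred_eq] at hS
    simp only [coe_product, Set.mem_prod, mem_coe, mem_filter, mem_powerset, filter_subset, and_true]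
    refine ⟨?_, hS.2⟩
    simp [Om, Phi]
  · intro c hc
    obtain ⟨⟨A, B⟩, C⟩ := c
    simp only [coe_product, Set.mem_prod, mem_coe, mem_filter, mem_powerset, Om, mem_product] at hc
    obtain ⟨⟨⟨hA, hB⟩, hQ⟩, hC⟩ := hc
    simp only [coe_filter, mem_powerset, Set.mem_ofPred_eq, filter_subset, true_and]
    have e : Phi n M ((range n).filter (fun i => (i < M ∧ i ∈ A) ∨ (n - M ≤ i ∧ n - 1 - i ∈ B)
      ∨ (M ≤ i ∧ i < n - M ∧ i ∈ C))) = (A, B) := by
      unfold Phi
      refine Prod.ext ?_ ?_
      · ext i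
        simp only [mem_filter, mem_range]
        constructor
        · rintro ⟨h1, h3, h4 | h4 | h4⟩
          · exact h4.2
          · omega
          · omega
        · intro hi
          have := mem_range.1 (hA hi)
          exact ⟨this, by omega, Or.inl ⟨this, hi⟩⟩
      · ext j
        simp only [mem_filter, mem_range]
        constructor
        · rintro ⟨h1, h3, h4 | h4 | h4⟩
          · omega
          · have : n - 1 - (n - 1 - j) = j := by omega
            rw [this] at h4
            exact h4.2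
          · omega
        · intro hj
          have h5 := mem_range.1 (hB hj)
          refine ⟨h5, by omega, Or.inr (Or.inl ⟨by omega, ?_⟩)⟩
          have : n - 1 - (n - 1 - j) = j := by omega
          rw [this]
          exact hj
    rw [e]
    exact hQ
  · intro S hS
    simp only [coe_filter, mem_powerset, Set.mem_ofPred_eq] at hS
    ext i
    simp only [Phi, mem_filter, mem_range, mem_Ico]
    constructor
    · rintro ⟨h1, h3 | h3 | h3⟩
      · exact h3.2.2
      · have : n - 1 - (n - 1 - i) = i := by omega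
        rw [this] at h3
        exact h3.2.2
      · exact h3.2.2.2
    · intro hi
      have h5 := mem_range.1 (hS.1 hi)
      refine ⟨h5, ?_⟩
      by_cases h6 : i < M
      · exact Or.inl ⟨h6, h6, hi⟩
      · by_cases h7 : n - M ≤ i
        · refine Or.inr (Or.inl ⟨h7, by omega, ?_⟩)
          have : n - 1 - (n - 1 - i) = i := by omega
          rw [this]
          exact hi
        · exact Or.inr (Or.inr ⟨by omega, by omega, ⟨by omega, by omega⟩, hi⟩)
  · intro c hc
    obtain ⟨⟨A, B⟩, C⟩ := c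
    simp only [coe_product, Set.mem_prod, mem_coe, mem_filter, mem_powerset, Om, mem_product] at hc
    obtain ⟨⟨⟨hA, hB⟩, hQ⟩, hC⟩ := hc
    simp only
    unfold Phi
    refine Prod.ext (Prod.ext ?_ ?_) ?_
    · ext i
      simp only [mem_filter, mem_range]
      constructor
      · rintro ⟨h1, h3, h4 | h4 | h4⟩
        · exact h4.2
        · omega
        · omega
      · intro hi
        have := mem_range.1 (hA hi)
        exact ⟨this, by omega, Or.inl ⟨this, hi⟩⟩
    · ext j
      simp only [mem_filter, mem_range]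
      constructor
      · rintro ⟨h1, h3, h4 | h4 | h4⟩
        · omega
        · have : n - 1 - (n - 1 - j) = j := by omega
          rw [this] at h4
          exact h4.2
        · omega
      · intro hj
        have h5 := mem_range.1 (hB hj)
        refine ⟨h5, by omega, Or.inr (Or.inl ⟨by omega, ?_⟩)⟩
        have : n - 1 - (n - 1 - j) = j := by omega
        rw [this]
        exact hj
    · ext i
      simp only [mem_filter, mem_range, mem_Ico]
      constructor
      · rintro ⟨h1, h3, h4 | h4 | h4⟩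
        · omega
        · omega
        · exact h4.2.2
      · intro hi
        have := mem_Ico.1 (hC hi)
        exact ⟨this, by omega, Or.inr (Or.inr ⟨this.1, this.2, hi⟩)⟩

theorem md_iff (n M : ℕ) (S : Finset ℕ) (j : ℕ) (hj : j < M) :
    Md n S j ↔ Miss (Phi n M S).1 (Phi n M S).2 j := by
  unfold Md Miss Phi
  refine forall₂_congr fun i hi => ?_
  have hi' := mem_range.1 hi
  simp only [mem_filter, mem_range]
  constructor
  · rintro h1 ⟨⟨_, h2⟩, _, h3⟩
    exact h1 ⟨h2, h3⟩
  · rintro h1 ⟨h2, h3⟩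
    exact h1 ⟨⟨by omega, h2⟩, by omega, h3⟩

theorem filt_eq (n M : ℕ) (h : 2 * M ≤ n) (hn : M ≤ n - 1) (S : Finset ℕ)
    (hS : ∀ j ∈ Ico M (n - 1), ¬ Md n S j) :
    ((range (n - 1)).filter (fun j => Md n S j)).card = X M (Phi n M S).1 (Phi n M S).2 := by
  unfold X
  congr 1
  ext j
  simp only [mem_filter, mem_range]
  constructor
  · rintro ⟨h1, h2⟩
    have h3 : j < M := by
      by_contra h4
      exact hS j (mem_Ico.2 ⟨by omega, h1⟩) h2
    exact ⟨h3, (md_iff n M S j h3).1 h2⟩
  · rintro ⟨h1, h2⟩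
    exact ⟨by omega, (md_iff n M S j h1).2 h2⟩

theorem pow_le (j : ℕ) : (3 / 4 : ℝ) ^ ((j + 1) / 2) ≤ (7 / 8 : ℝ) ^ j := by
  rcases Nat.even_or_odd' j with ⟨m, rfl | rfl⟩
  · have : (2 * m + 1) / 2 = m := by omega
    rw [this, pow_mul]
    exact pow_le_pow_left₀ (by norm_num) (by norm_num) m
  · have : (2 * m + 1 + 1) / 2 = m + 1 := by omega
    rw [this, pow_succ, pow_succ, pow_mul]
    exact mul_le_mul (pow_le_pow_left₀ (by norm_num) (by norm_num) m) (by norm_num) (by norm_num)
      (by positivity)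

/-- the bad sets -/
noncomputable def Bad (n M : ℕ) : Finset (Finset ℕ) :=
  open Classical in (range n).powerset.filter (fun S => ∃ j ∈ Ico M (n - 1), Md n S j)

theorem bad_card (hT : S_TAIL) (n M : ℕ) :
    ((Bad n M).card : ℝ) ≤ 8 * (7 / 8 : ℝ) ^ M * 2 ^ n := by
  classical
  have h1 : Bad n M ⊆ (Ico M (n - 1)).biUnion
      (fun j => (range n).powerset.filter (fun S => Md n S j)) := by
    intro S hS
    simp only [Bad, mem_filter] at hS
    obtain ⟨h0, j, hj, hm⟩ := hS
    exact mem_biUnion.2 ⟨j, hj, mem_filter.2 ⟨h0, hm⟩⟩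
  have h2 : (Bad n M).card ≤ ∑ j ∈ Ico M (n - 1),
      ((range n).powerset.filter (fun S => Md n S j)).card :=
    (card_le_card h1).trans card_biUnion_le
  have h3 : ((Bad n M).card : ℝ) ≤ ∑ j ∈ Ico M (n - 1),
      (((range n).powerset.filter (fun S => Md n S j)).card : ℝ) := by
    exact_mod_cast h2
  refine h3.trans ?_
  have h4 : ∑ j ∈ Ico M (n - 1), (((range n).powerset.filter (fun S => Md n S j)).card : ℝ)
      ≤ ∑ j ∈ Ico M (n - 1), (7 / 8 : ℝ) ^ j * 2 ^ n := by
    refine sum_le_sum fun j hj => ?_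
    refine (hT n j (mem_Ico.1 hj).2).trans ?_
    exact mul_le_mul_of_nonneg_right (pow_le j) (by positivity)
  refine h4.trans ?_
  rw [← sum_mul]
  refine mul_le_mul_of_nonneg_right ?_ (by positivity)
  have h5 := geom_sum_Ico_le_of_lt_one (x := (7 / 8 : ℝ)) (m := M) (n := n - 1) (by norm_num)
    (by norm_num)
  refine h5.trans (le_of_eq ?_)
  norm_num
  ring

theorem sub_card_le {α : Type*} [DecidableEq α] (s t b : Finset α)
    (h : ∀ x, x ∉ b → (x ∈ s ↔ x ∈ t)) : |(s.card : ℝ) - t.card| ≤ b.card := by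
  have h1 : s ⊆ t ∪ b := by
    intro x hx
    by_cases hb : x ∈ b
    · exact mem_union_right _ hb
    · exact mem_union_left _ ((h x hb).1 hx)
  have h2 : t ⊆ s ∪ b := by
    intro x hx
    by_cases hb : x ∈ b
    · exact mem_union_right _ hb
    · exact mem_union_left _ ((h x hb).2 hx)
  have h3 : (s.card : ℝ) ≤ t.card + b.card := by
    exact_mod_cast (card_le_card h1).trans (card_union_le _ _)
  have h4 : (t.card : ℝ) ≤ s.card + b.card := by
    exact_mod_cast (card_le_card h2).trans (card_union_le _ _)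
  rw [abs_le]
  constructor <;> linarith

theorem main_ineq (hD : S_DIFF) (hT : S_TAIL) (n M k : ℕ) (h : 2 * M ≤ n) (hn : 2 ≤ n) :
    |P n (2 * k) - p M k| ≤ (1 / 2 : ℝ) ^ n + 8 * (7 / 8 : ℝ) ^ M := by
  classical
  have hMn : M ≤ n - 1 := by omega
  have hc := count n M h (fun c => X M c.1 c.2 = k)
  have key : |(((range n).powerset.filter (fun S => 2 * n - 1 - (diffs S).card = 2 * k)).card : ℝ)
      - (((range n).powerset.filter (fun S => X M (Phi n M S).1 (Phi n M S).2 = k)).card : ℝ)|
      ≤ ((insert ∅ (Bad n M)).card : ℝ) := by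
    refine sub_card_le _ _ _ ?_
    intro S hS
    simp only [mem_insert, not_or] at hS
    obtain ⟨hne, hb⟩ := hS
    simp only [mem_filter]
    refine and_congr_right fun hSn => ?_
    have hSn' := mem_powerset.1 hSn
    have hne' : S.Nonempty := nonempty_iff_ne_empty.2 hne
    have hb' : ∀ j ∈ Ico M (n - 1), ¬ Md n S j := by
      intro j hj hm
      exact hb (by simp only [Bad, mem_filter]; exact ⟨hSn, j, hj, hm⟩)
    rw [hD n S hSn' hne', filt_eq n M h hMn S hb']
    omega
  have hins : ((insert ∅ (Bad n M)).card : ℝ) ≤ (Bad n M).card + 1 := by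
    exact_mod_cast card_insert_le _ _
  have hbad := bad_card hT n M
  have hcp : ((((range n).powerset.filter (fun S => X M (Phi n M S).1 (Phi n M S).2 = k)).card : ℕ) : ℝ)
      = (cp M k : ℝ) * 2 ^ (n - 2 * M) := by
    rw [hc]
    push_cast
    rfl
  have h2n : (0 : ℝ) < 2 ^ n := by positivity
  have e1 : P n (2 * k) - p M k = ((((range n).powerset.filter
      (fun S => 2 * n - 1 - (diffs S).card = 2 * k)).card : ℝ)
      - (cp M k : ℝ) * 2 ^ (n - 2 * M)) / 2 ^ n := by
    unfold P p cP
    rw [sub_div]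
    congr 1
    have h4 : (4 : ℝ) ^ M = 2 ^ (2 * M) := by
      rw [pow_mul]; norm_num
    have h5 : (2 : ℝ) ^ n = 2 ^ (n - 2 * M) * 2 ^ (2 * M) := by
      rw [← pow_add]; congr 1; omega
    rw [h4, h5]
    field_simp
  rw [e1, abs_div, abs_of_pos h2n, div_le_iff₀ h2n, ← hcp]
  refine key.trans (hins.trans ?_)
  have e2 : ((1 / 2 : ℝ) ^ n + 8 * (7 / 8 : ℝ) ^ M) * 2 ^ n = 1 + 8 * (7 / 8 : ℝ) ^ M * 2 ^ n := by
    rw [add_mul, ← mul_pow]
    norm_num
  rw [e2]
  linarith

/-- comparison of the finite problem with the two-sided model -/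
theorem main : S_DIFF → S_TAIL → S_LINK := by
  intro hD hT k ε hε
  have h1 : Tendsto (fun M : ℕ => 8 * (7 / 8 : ℝ) ^ M) atTop (𝓝 (8 * 0)) :=
    (tendsto_pow_atTop_nhds_zero_of_lt_one (by norm_num) (by norm_num)).const_mul 8
  rw [mul_zero] at h1
  have h2 : Tendsto (fun n : ℕ => (1 / 2 : ℝ) ^ n) atTop (𝓝 0) :=
    tendsto_pow_atTop_nhds_zero_of_lt_one (by norm_num) (by norm_num)
  obtain ⟨M0, hM0⟩ := (h1.eventually (gt_mem_nhds (half_pos hε))).exists_forall_of_atTop
  obtain ⟨n1, hn1⟩ := (h2.eventually (gt_mem_nhds (half_pos hε))).exists_forall_of_atTop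
  refine ⟨M0, fun M hM => ⟨max n1 (2 * M + 2), fun n hn => ?_⟩⟩
  have a1 := hM0 M hM
  have a2 := hn1 n (le_trans (le_max_left _ _) hn)
  have a3 : 2 * M + 2 ≤ n := le_trans (le_max_right _ _) hn
  have a4 := main_ineq hD hT n M k (by omega) (by omega)
  linarith

end Pool.Agent.R169.MD.Link
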