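import Pool.Agent.R169.MD.Fut

/-!
# Soundness of the certified computation
-/

namespace Pool.Agent.R169.MD.Sound
open Finset Pool.Agent.R169.MD Pool.Agent.R169.MD.Avg Pool.Agent.R169.MD.Cert
open Pool.Agent.R169.MD.Fut

structure Ok (W : ℕ → ℝ) (w s r : ℕ) : Prop where
  nn : ∀ c, 0 ≤ W c
  h1 : ∀ c j : ℕ, (cd w c : ℝ) - (cd s c : ℝ) * j ≤ W (c + j)
  h2 : ∀ c, cd r c = 0 → ∀ j : ℕ, (cd w c : ℝ) ≤ W (c + j)

theorem tb_or {n : ℕ} {A : Finset ℕ} {a : ℕ} (ta : ∀ i, a.testBit i = decide (i ∈ A)) (i : ℕ) :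
    (Nat.lor a (Nat.shiftLeft 1 n)).testBit i = decide (i ∈ insert n A) := by
  show (a ||| 1 <<< n).testBit i = _
  rw [Nat.testBit_or, Nat.shiftLeft_eq, one_mul, Nat.testBit_two_pow, ta i]
  by_cases h1 : i = n
  · subst h1; simp
  · have : ¬ n = i := fun h => h1 h.symm
    simp [h1, this]

theorem sub_succ {n : ℕ} {A : Finset ℕ} (h : A ⊆ range n) : A ⊆ range (n + 1) :=
  h.trans (range_subset_range.2 (Nat.le_succ n))

theorem ins_succ {n : ℕ} {A : Finset ℕ} (h : A ⊆ range n) : insert n A ⊆ range (n + 1) :=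
  insert_subset (by simp) (sub_succ h)

theorem tr_zero {n : ℕ} {B : Finset ℕ} {r : ℕ} (hB : B ⊆ range n)
    (tr : ∀ i, r.testBit i = decide (i < n ∧ n - 1 - i ∈ B)) (i : ℕ) :
    (Nat.mul 2 r).testBit i = decide (i < n + 1 ∧ n + 1 - 1 - i ∈ B) := by
  show (2 * r).testBit i = _
  cases i with
  | zero =>
    have hn : n ∉ B := fun h => by simpa using hB h
    simp [hn]
  | succ i =>
    rw [Nat.testBit_succ]
    have e : 2 * r / 2 = r := by omega
    rw [e, tr i]
    have e2 : n + 1 - 1 - (i + 1) = n - 1 - i := by omega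
    rw [e2]
    by_cases h : i < n <;> simp [h]

theorem tr_one {n : ℕ} {B : Finset ℕ} {r : ℕ} (_hB : B ⊆ range n)
    (tr : ∀ i, r.testBit i = decide (i < n ∧ n - 1 - i ∈ B)) (i : ℕ) :
    (Nat.succ (Nat.mul 2 r)).testBit i = decide (i < n + 1 ∧ n + 1 - 1 - i ∈ insert n B) := by
  show (2 * r + 1).testBit i = _
  cases i with
  | zero => simp [Nat.testBit_zero, Nat.add_mod]
  | succ i =>
    rw [Nat.testBit_succ]
    have e : (2 * r + 1) / 2 = r := by omega
    rw [e, tr i]
    have e2 : n + 1 - 1 - (i + 1) = n - 1 - i := by omega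
    rw [e2]
    by_cases h : i < n
    · have h3 : ¬ n - 1 - i = n := by omega
      simp [h, h3]
    · simp [h]

theorem rel00 {n : ℕ} {A B : Finset ℕ} {a b r : ℕ} (h : Rel n A B a b r) :
    Rel (n + 1) A B a b (Nat.mul 2 r) :=
  ⟨sub_succ h.hA, sub_succ h.hB, h.ta, h.tb, tr_zero h.hB h.tr⟩

theorem rel10 {n : ℕ} {A B : Finset ℕ} {a b r : ℕ} (h : Rel n A B a b r) :
    Rel (n + 1) (insert n A) B (Nat.lor a (Nat.shiftLeft 1 n)) b (Nat.mul 2 r) :=
  ⟨ins_succ h.hA, sub_succ h.hB, tb_or h.ta, h.tb, tr_zero h.hB h.tr⟩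

theorem rel01 {n : ℕ} {A B : Finset ℕ} {a b r : ℕ} (h : Rel n A B a b r) :
    Rel (n + 1) A (insert n B) a (Nat.lor b (Nat.shiftLeft 1 n)) (Nat.succ (Nat.mul 2 r)) :=
  ⟨sub_succ h.hA, ins_succ h.hB, h.ta, tb_or h.tb, tr_one h.hB h.tr⟩

theorem rel11 {n : ℕ} {A B : Finset ℕ} {a b r : ℕ} (h : Rel n A B a b r) :
    Rel (n + 1) (insert n A) (insert n B) (Nat.lor a (Nat.shiftLeft 1 n))
      (Nat.lor b (Nat.shiftLeft 1 n)) (Nat.succ (Nat.mul 2 r)) :=
  ⟨ins_succ h.hA, ins_succ h.hB, tb_or h.ta, tb_or h.tb, tr_one h.hB h.tr⟩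

theorem st_eq {n : ℕ} {A B : Finset ℕ} {a b r : ℕ} (h : Rel (n + 1) A B a b r)
    (ih : ℕ → ℕ → ℕ → ℕ → ℕ → ℕ) (c : ℕ) :
    st ih n a b r c = ih (n + 1) a b r (c + mi A B n) := by
  unfold st mi
  have key : a &&& r = 0 ↔ Miss A B n := by
    rw [land_zero_iff]
    unfold Miss
    constructor
    · intro h1 i hi hc
      rw [mem_range] at hi
      apply h1 i
      rw [h.ta, h.tr]
      refine ⟨decide_eq_true hc.1, decide_eq_true ⟨hi, ?_⟩⟩
      have : n + 1 - 1 - i = n - i := by omega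
      rw [this]; exact hc.2
    · intro h1 i hi
      rw [h.ta, h.tr] at hi
      have h2 := of_decide_eq_true hi.1
      have h3 := of_decide_eq_true hi.2
      have : n + 1 - 1 - i = n - i := by omega
      rw [this] at h3
      exact h1 i (by rw [mem_range]; exact h3.1) ⟨h2, h3.2⟩
  by_cases hm : Miss A B n
  · have hb : Nat.beq (Nat.land a r) 0 = true := by
      rw [Nat.beq_eq]; exact key.2 hm
    rw [hb, cond_true, if_pos hm]
  · have hb : Nat.beq (Nat.land a r) 0 = false := by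
      rw [← Bool.not_eq_true, Nat.beq_eq]
      intro h5
      exact hm (key.1 h5)
    rw [hb, cond_false, if_neg hm]
    rfl

theorem leaf0_le {W : ℕ → ℝ} {w s r : ℕ} (ok : Ok W w s r) {c : ℕ} (hr : cd r c = 0)
    (D n m : ℕ) (A B : Finset ℕ) :
    ((Nat.shiftLeft (cd w c) (Nat.mul 2 (Nat.sub (Nat.mul 2 D) n)) : ℕ) : ℝ)
      ≤ 4 ^ (2 * D - n) * ev W m n A B c := by
  have h := ev_lower W c (cd w c) 0 (by intro j; simpa using ok.h2 c hr j) m n A B 0
  simp only [zero_mul, sub_zero, add_zero] at h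
  have e : ((Nat.shiftLeft (cd w c) (Nat.mul 2 (Nat.sub (Nat.mul 2 D) n)) : ℕ) : ℝ)
      = 4 ^ (2 * D - n) * cd w c := by
    show ((cd w c <<< (2 * (2 * D - n)) : ℕ) : ℝ) = _
    rw [Nat.shiftLeft_eq, pow_mul]
    push_cast
    norm_num
    ring
  rw [e]
  gcongr

theorem leaf_le {W : ℕ → ℝ} {w s r : ℕ} (ok : Ok W w s r) {n : ℕ} {A B : Finset ℕ}
    {a b rr : ℕ} (h : Rel n A B a b rr) (c D m : ℕ) (hn : n ≤ D) :
    ((leaf w s D n (eloop n a b rr (Nat.shiftLeft 1 (Nat.mul 2 n)) 0) c : ℕ) : ℝ)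
      ≤ 4 ^ (2 * D - n) * ev W m n A B c := by
  set e := eloop n a b rr (Nat.shiftLeft 1 (Nat.mul 2 n)) 0 with he
  have hfu := fu_le_eloop h m
  rw [← he] at hfu
  have h1 := ev_lower W c (cd w c) (cd s c) (fun j => ok.h1 c j) m n A B 0
  simp only [add_zero, Nat.cast_zero, zero_add] at h1
  have hx : ((Nat.shiftLeft (cd w c) (Nat.mul 2 (Nat.sub (Nat.mul 2 D) n)) : ℕ) : ℝ)
      = 4 ^ (2 * D - n) * cd w c := by
    show ((cd w c <<< (2 * (2 * D - n)) : ℕ) : ℝ) = _
    rw [Nat.shiftLeft_eq, pow_mul]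
    push_cast
    norm_num
    ring
  have hy : ((Nat.shiftLeft (Nat.mul (cd s c) e) (Nat.mul 4 (Nat.sub D n)) : ℕ) : ℝ)
      = 4 ^ (2 * D - n) * (cd s c * (e / 4 ^ n)) := by
    show (((cd s c * e) <<< (4 * (D - n)) : ℕ) : ℝ) = _
    rw [Nat.shiftLeft_eq]
    push_cast
    have : (4 : ℝ) ^ (2 * D - n) = 2 ^ (4 * (D - n)) * 4 ^ n := by
      have : (2 : ℝ) ^ (4 * (D - n)) = 4 ^ (2 * (D - n)) := by
        have : 4 * (D - n) = 2 * (2 * (D - n)) := by ring
        rw [this, pow_mul]; norm_num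
      rw [this, ← pow_add]
      congr 1
      omega
    rw [this]
    field_simp
  unfold leaf
  set x := Nat.shiftLeft (cd w c) (Nat.mul 2 (Nat.sub (Nat.mul 2 D) n)) with hxd
  set y := Nat.shiftLeft (Nat.mul (cd s c) e) (Nat.mul 4 (Nat.sub D n)) with hyd
  have hgoal : (x : ℝ) - y ≤ 4 ^ (2 * D - n) * ev W m n A B c := by
    rw [hx, hy, ← mul_sub]
    apply mul_le_mul_of_nonneg_left _ (by positivity)
    refine le_trans ?_ h1
    have : (cd s c : ℝ) * fu m n A B ≤ cd s c * (e / 4 ^ n) := by gcongr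
    linarith
  have hnn : 0 ≤ 4 ^ (2 * D - n) * ev W m n A B c :=
    mul_nonneg (by positivity) (ev_nonneg W ok.nn _ _ _ _ _)
  show ((x - y : ℕ) : ℝ) ≤ _
  rcases le_total y x with hyx | hyx
  · rw [Nat.cast_sub hyx]; exact hgoal
  · rw [Nat.sub_eq_zero_of_le hyx]; simpa using hnn

theorem go_sound {W : ℕ → ℝ} {w s r : ℕ} (ok : Ok W w s r) (T D : ℕ) :
    ∀ (f n : ℕ) (A B : Finset ℕ) (a b rr c m : ℕ), Rel n A B a b rr → n ≤ D → D ≤ n + m →
    ((go w s r T D f n a b rr c : ℕ) : ℝ) ≤ 4 ^ (2 * D - n) * ev W m n A B c := by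
  intro f
  induction f with
  | zero =>
    intro n A B a b rr c m _ _ _
    have : go w s r T D 0 n a b rr c = 0 := rfl
    rw [this, Nat.cast_zero]
    exact mul_nonneg (by positivity) (ev_nonneg W ok.nn _ _ _ _ _)
  | succ f ih =>
    intro n A B a b rr c m h hn hm
    have hgo : go w s r T D (f + 1) n a b rr c
      = bif Nat.beq (cd r c) 0 then
          Nat.shiftLeft (cd w c) (Nat.mul 2 (Nat.sub (Nat.mul 2 D) n)) else
        bif stop r T D n (eloop n a b rr (Nat.shiftLeft 1 (Nat.mul 2 n)) 0) c then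
          leaf w s D n (eloop n a b rr (Nat.shiftLeft 1 (Nat.mul 2 n)) 0) c
        else
          (st (go w s r T D f) n a b (Nat.mul 2 rr) c
            + st (go w s r T D f) n (Nat.lor a (Nat.shiftLeft 1 n)) b (Nat.mul 2 rr) c)
          + (st (go w s r T D f) n a (Nat.lor b (Nat.shiftLeft 1 n)) (Nat.succ (Nat.mul 2 rr)) c
            + st (go w s r T D f) n (Nat.lor a (Nat.shiftLeft 1 n)) (Nat.lor b (Nat.shiftLeft 1 n))
              (Nat.succ (Nat.mul 2 rr)) c) := rfl
    rw [hgo]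
    cases hb : Nat.beq (cd r c) 0 with
    | true =>
      rw [cond_true]
      exact leaf0_le ok (Nat.eq_of_beq_eq_true hb) D n m A B
    | false =>
      rw [cond_false]
      cases hs : stop r T D n (eloop n a b rr (Nat.shiftLeft 1 (Nat.mul 2 n)) 0) c with
      | true =>
        rw [cond_true]
        exact leaf_le ok h c D m hn
      | false =>
        rw [cond_false]
        have hlt : n < D := by
          unfold stop at hs
          rw [Bool.or_eq_false_iff] at hs
          by_contra hcon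
          have : Nat.ble D n = true := Nat.ble_eq_true_of_le (by omega)
          rw [this] at hs
          exact absurd hs.2 (by simp)
        obtain ⟨m', rfl⟩ : ∃ m', m = m' + 1 := ⟨m - 1, by omega⟩
        rw [st_eq (rel00 h), st_eq (rel10 h), st_eq (rel01 h), st_eq (rel11 h)]
        have i1 := ih (n + 1) _ _ _ _ _ (c + mi A B n) m' (rel00 h) (by omega) (by omega)
        have i2 := ih (n + 1) _ _ _ _ _ (c + mi (insert n A) B n) m' (rel10 h) (by omega) (by omega)
        have i3 := ih (n + 1) _ _ _ _ _ (c + mi A (insert n B) n) m' (rel01 h) (by omega) (by omega)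
        have i4 := ih (n + 1) _ _ _ _ _ (c + mi (insert n A) (insert n B) n) m' (rel11 h)
          (by omega) (by omega)
        push_cast
        simp only [ev]
        have e : (4 : ℝ) ^ (2 * D - n) = 4 ^ (2 * D - (n + 1)) * 4 := by
          rw [← pow_succ]; congr 1; omega
        rw [e]
        calc _ ≤ (4 ^ (2 * D - (n + 1)) * ev W m' (n + 1) A B (c + mi A B n)
              + 4 ^ (2 * D - (n + 1)) * ev W m' (n + 1) (insert n A) B (c + mi (insert n A) B n))
              + (4 ^ (2 * D - (n + 1)) * ev W m' (n + 1) A (insert n B) (c + mi A (insert n B) n)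
              + 4 ^ (2 * D - (n + 1)) * ev W m' (n + 1) (insert n A) (insert n B)
                  (c + mi (insert n A) (insert n B) n)) := by gcongr
          _ = _ := by ring

theorem goS_sound {W : ℕ → ℝ} {w s r : ℕ} (ok : Ok W w s r) (T D : ℕ) :
    ∀ (f n : ℕ) (A : Finset ℕ) (a rr c m : ℕ), Rel n A A a a rr → n ≤ D → D ≤ n + m →
    ((goS w s r T D f n a rr c : ℕ) : ℝ) ≤ 4 ^ (2 * D - n) * ev W m n A A c := by
  intro f
  induction f with
  | zero =>
    intro n A a rr c m _ _ _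
    have : goS w s r T D 0 n a rr c = 0 := rfl
    rw [this, Nat.cast_zero]
    exact mul_nonneg (by positivity) (ev_nonneg W ok.nn _ _ _ _ _)
  | succ f ih =>
    intro n A a rr c m h hn hm
    have hgo : goS w s r T D (f + 1) n a rr c
      = bif Nat.beq (cd r c) 0 then
          Nat.shiftLeft (cd w c) (Nat.mul 2 (Nat.sub (Nat.mul 2 D) n)) else
        bif stop r T D n (eloop n a a rr (Nat.shiftLeft 1 (Nat.mul 2 n)) 0) c then
          leaf w s D n (eloop n a a rr (Nat.shiftLeft 1 (Nat.mul 2 n)) 0) c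
        else
          (st (fun n A _ R c => goS w s r T D f n A R c) n a a (Nat.mul 2 rr) c
            + st (fun n A _ R c => goS w s r T D f n A R c) n (Nat.lor a (Nat.shiftLeft 1 n)) a
              (Nat.succ (Nat.mul 2 rr)) c)
          + 2 * st (go w s r T D f) n (Nat.lor a (Nat.shiftLeft 1 n)) a (Nat.mul 2 rr) c := rfl
    rw [hgo]
    cases hb : Nat.beq (cd r c) 0 with
    | true =>
      rw [cond_true]
      exact leaf0_le ok (Nat.eq_of_beq_eq_true hb) D n m A A
    | false =>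
      rw [cond_false]
      cases hs : stop r T D n (eloop n a a rr (Nat.shiftLeft 1 (Nat.mul 2 n)) 0) c with
      | true =>
        rw [cond_true]
        exact leaf_le ok h c D m hn
      | false =>
        rw [cond_false]
        have hlt : n < D := by
          unfold stop at hs
          rw [Bool.or_eq_false_iff] at hs
          by_contra hcon
          have : Nat.ble D n = true := Nat.ble_eq_true_of_le (by omega)
          rw [this] at hs
          exact absurd hs.2 (by simp)
        obtain ⟨m', rfl⟩ : ∃ m', m = m' + 1 := ⟨m - 1, by omega⟩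
        have hst : st (fun n A _ R c => goS w s r T D f n A R c) n
            (Nat.lor a (Nat.shiftLeft 1 n)) a (Nat.succ (Nat.mul 2 rr)) c
            = st (fun n A _ R c => goS w s r T D f n A R c) n
            (Nat.lor a (Nat.shiftLeft 1 n)) (Nat.lor a (Nat.shiftLeft 1 n))
            (Nat.succ (Nat.mul 2 rr)) c := rfl
        rw [hst, st_eq (rel00 h), st_eq (rel10 h), st_eq (rel11 h)]
        have i1 := ih (n + 1) _ _ _ (c + mi A A n) m' (rel00 h) (by omega) (by omega)
        have i2 := go_sound ok T D f (n + 1) _ _ _ _ _ (c + mi (insert n A) A n) m' (rel10 h)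
          (by omega) (by omega)
        have i4 := ih (n + 1) _ _ _ (c + mi (insert n A) (insert n A) n) m' (rel11 h)
          (by omega) (by omega)
        push_cast
        simp only [ev]
        have e : (4 : ℝ) ^ (2 * D - n) = 4 ^ (2 * D - (n + 1)) * 4 := by
          rw [← pow_succ]; congr 1; omega
        rw [e, mi_comm A (insert n A), ev_comm W m' (n + 1) A (insert n A)]
        calc _ ≤ (4 ^ (2 * D - (n + 1)) * ev W m' (n + 1) A A (c + mi A A n)
              + 4 ^ (2 * D - (n + 1)) * ev W m' (n + 1) (insert n A) (insert n A)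
                  (c + mi (insert n A) (insert n A) n))
              + 2 * (4 ^ (2 * D - (n + 1)) * ev W m' (n + 1) (insert n A) A
                  (c + mi (insert n A) A n)) := by gcongr
          _ = _ := by ring

end Pool.Agent.R169.MD.Sound
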