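import Mathlib

/-!
Project MD (MP_7c207a_co): ordering of the limiting distribution of missing differences.
Definitions and statements of the independent pieces.
-/

namespace Pool.Agent.R169.MD
open Finset Filter Topology

/-- `j` is not of the form `a + b` with `a ∈ A`, `b ∈ B`. -/
def Miss (A B : Finset ℕ) (j : ℕ) : Prop := ∀ i ∈ range (j + 1), ¬ (i ∈ A ∧ j - i ∈ B)

instance (A B : Finset ℕ) (j : ℕ) : Decidable (Miss A B j) := by unfold Miss; infer_instance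

/-- number of missed integers below `M` -/
def X (M : ℕ) (A B : Finset ℕ) : ℕ := ((range M).filter (fun j => Miss A B j)).card

/-- all pairs of subsets of `range M` -/
def Om (M : ℕ) : Finset (Finset ℕ × Finset ℕ) := (range M).powerset ×ˢ (range M).powerset

def cp (M k : ℕ) : ℕ := ((Om M).filter (fun c => X M c.1 c.2 = k)).card
def cr (M k : ℕ) : ℕ := ((Om M).filter (fun c => 0 ∈ c.1 ∧ X M c.1 c.2 = k)).card
def cq (M k : ℕ) : ℕ := ((Om M).filter (fun c => 0 ∈ c.1 ∧ 0 ∈ c.2 ∧ X M c.1 c.2 = k)).card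

noncomputable def p (M k : ℕ) : ℝ := (cp M k : ℝ) / 4 ^ M
noncomputable def r (M k : ℕ) : ℝ := 2 * (cr M k : ℝ) / 4 ^ M
noncomputable def q (M k : ℕ) : ℝ := 4 * (cq M k : ℝ) / 4 ^ M

/-- the difference set -/
def diffs (S : Finset ℕ) : Finset ℤ := (S ×ˢ S).image (fun x => (x.1 : ℤ) - (x.2 : ℤ))

/-- number of subsets of `{0,…,n-1}` with exactly `k` missing differences -/
def cP (n k : ℕ) : ℕ :=
  ((range n).powerset.filter (fun S => 2 * n - 1 - (diffs S).card = k)).card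

noncomputable def P (n k : ℕ) : ℝ := (cP n k : ℝ) / 2 ^ n

/-- the difference `n - 1 - j` is missing from `S ⊆ range n` -/
def Md (n : ℕ) (S : Finset ℕ) (j : ℕ) : Prop :=
  ∀ i ∈ range (j + 1), ¬ (i ∈ S ∧ n - 1 - (j - i) ∈ S)

instance (n : ℕ) (S : Finset ℕ) (j : ℕ) : Decidable (Md n S j) := by unfold Md; infer_instance

/-! ### pieces -/

/-- missing differences come in pairs -/
def S_DIFF : Prop := ∀ (n : ℕ) (S : Finset ℕ), S ⊆ range n → S.Nonempty →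
  2 * n - 1 - (diffs S).card = 2 * ((range (n - 1)).filter (fun j => Md n S j)).card

/-- probability that a difference is missing -/
def S_TAIL : Prop := ∀ (n j : ℕ), j < n - 1 →
  ((((range n).powerset.filter (fun S => Md n S j)).card : ℕ) : ℝ)
    ≤ (3 / 4 : ℝ) ^ ((j + 1) / 2) * 2 ^ n

/-- comparison of the finite problem with the two-sided model (uses S_DIFF and S_TAIL) -/
def S_LINK : Prop := ∀ (k : ℕ) (ε : ℝ), 0 < ε → ∃ M0 : ℕ, ∀ M ≥ M0, ∃ n0 : ℕ, ∀ n ≥ n0,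
  |P n (2 * k) - p M k| ≤ ε

/-- odd values (uses S_DIFF) -/
def S_ODD : Prop := ∀ k : ℕ, Tendsto (fun n => P n (2 * k + 1)) atTop (𝓝 0)

/-- recursions by removing `0` -/
def S_REC : Prop := ∀ M k : ℕ, 1 ≤ M →
  p (M + 1) (k + 1) = r (M + 1) (k + 1) / 2 + p M k / 2 ∧
  r (M + 1) (k + 1) = q (M + 1) (k + 1) / 2 + r M k / 2 ∧
  p (M + 1) 0 = r (M + 1) 0 / 2 ∧
  r (M + 1) 0 = q (M + 1) 0 / 2

/-- `q` is Cauchy -/
def S_CAU : Prop := ∀ M k : ℕ, 1 ≤ M → |q (M + 1) k - q M k| ≤ (3 / 4 : ℝ) ^ M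

/-- the simple upper bound -/
noncomputable def V : ℕ → ℝ
  | 0 => 1
  | 1 => 4 / 7
  | (k + 2) => (6 * V (k + 1) + V k) / 14

noncomputable def tau : ℕ → ℕ → ℝ
  | 0, k => if k = 0 then 1 else 0
  | (t + 1), k => (2 * tau t k + 6 * tau t (k - 1) + tau t (k - 2)) / 16

def cD (n k : ℕ) : ℕ := ((Om (n + 1)).filter (fun c => 0 ∈ c.1 ∧ 0 ∈ c.2 ∧ Miss c.1 c.2 n ∧
  k ≤ ((Ico 1 n).filter (fun j => j ∉ c.1 ∧ j ∉ c.2)).card)).card
noncomputable def D (n k : ℕ) : ℝ := (cD n k : ℝ) / 4 ^ n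

def S_SA : Prop := ∀ M k : ℕ, q M (k + 1) ≤ ∑ n ∈ Ico 1 M, D n k
def S_SB : Prop := ∀ t k : ℕ, D (2 * t + 1) k = tau t k / 4 ∧
  D (2 * t + 2) k = (2 * tau t k + tau t (k - 1)) / 16
def S_SC : Prop := S_SB → ∀ M k : ℕ, ∑ n ∈ Ico 1 M, D n k ≤ V k

/-- weighted count: gap `s`, `s ∈ A`, `n` missed -/
noncomputable def G (n s : ℕ) : ℝ := ∑ c ∈ Om (n + 1),
  if 0 ∈ c.1 ∧ 0 ∈ c.2 ∧ (∀ i ∈ Ico 1 s, i ∉ c.1 ∧ i ∉ c.2) ∧ s ∈ c.1 ∧ Miss c.1 c.2 n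
  then (2 : ℝ) ^ (X n c.1 c.2) else 0

def S_RA : Prop := ∀ M k : ℕ, 1 ≤ k → q M k * 2 ^ k ≤
  ∑ n ∈ Ico 1 M, 2 / (4 : ℝ) ^ n * (2 ^ (n - 1) + 2 * ∑ s ∈ Ico 1 n, G n s)
def S_RB : Prop := ∀ n s : ℕ, 1 ≤ s → s < n → n ≤ 2 * s →
  G n s ≤ 4 ^ n * ((1 / 8) * (1 / 2) ^ (s - 1) * (5 / 4) ^ (n - 1 - s))
def S_RC : Prop := ∀ n s : ℕ, 1 ≤ s → 2 * s < n →
  G n s ≤ 4 ^ n * ((1 / 4) * (563 / 800) ^ (s - 1) * (5 / 16) * (24 / 25) ^ ((n - 1) / 2 - s))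
def S_RD : Prop := S_RB → S_RC → ∀ M : ℕ,
  ∑ n ∈ Ico 1 M, 2 / (4 : ℝ) ^ n * (2 ^ (n - 1) + 2 * ∑ s ∈ Ico 1 n, G n s) ≤ 64

end Pool.Agent.R169.MD
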