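import Pool.Agent.R169.MD.Sound

/-!
# Averages of functions of the number of missed integers
-/

namespace Pool.Agent.R169.MD.Top
open Finset Pool.Agent.R169.MD Pool.Agent.R169.MD.Avg Pool.Agent.R169.MD.Cert
open Pool.Agent.R169.MD.Fut Pool.Agent.R169.MD.Sound

def Ext (N n : ℕ) (A : Finset ℕ) : Finset (Finset ℕ) :=
  (range N).powerset.filter (fun A' => A' ∩ range n = A)

theorem mem_Ext {N n : ℕ} {A A' : Finset ℕ} : A' ∈ Ext N n A ↔ A' ⊆ range N ∧ A' ∩ range n = A := by
  unfold Ext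
  rw [mem_filter, mem_powerset]

theorem Ext_self {N : ℕ} {A : Finset ℕ} (hA : A ⊆ range N) : Ext N N A = {A} := by
  ext A'
  rw [mem_Ext, mem_singleton]
  constructor
  · rintro ⟨h1, h2⟩
    rwa [inter_eq_left.2 h1] at h2
  · rintro rfl
    exact ⟨hA, inter_eq_left.2 hA⟩

theorem inter_succ (A' : Finset ℕ) (n : ℕ) :
    A' ∩ range (n + 1) = if n ∈ A' then insert n (A' ∩ range n) else A' ∩ range n := by
  split_ifs with h
  · ext i
    rw [mem_inter, mem_insert, mem_inter, mem_range, mem_range]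
    constructor
    · rintro ⟨h1, h2⟩
      by_cases h3 : i = n
      · exact Or.inl h3
      · exact Or.inr ⟨h1, by omega⟩
    · rintro (rfl | ⟨h1, h2⟩)
      · exact ⟨h, by omega⟩
      · exact ⟨h1, by omega⟩
  · ext i
    rw [mem_inter, mem_inter, mem_range, mem_range]
    constructor
    · rintro ⟨h1, h2⟩
      refine ⟨h1, ?_⟩
      have : i ≠ n := fun h3 => h (h3 ▸ h1)
      omega
    · rintro ⟨h1, h2⟩
      exact ⟨h1, by omega⟩

theorem sum_Ext {N n : ℕ} {A : Finset ℕ} (hA : A ⊆ range n) (g : Finset ℕ → ℝ) :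
    ∑ A' ∈ Ext N n A, g A' = ∑ A' ∈ Ext N (n + 1) A, g A' + ∑ A' ∈ Ext N (n + 1) (insert n A), g A' := by
  have hn : n ∉ A := fun h => by simpa using hA h
  have hdis : Disjoint (Ext N (n + 1) A) (Ext N (n + 1) (insert n A)) := by
    rw [disjoint_left]
    intro A' h1 h2
    rw [mem_Ext] at h1 h2
    apply hn
    rw [← h1.2, h2.2]
    exact mem_insert_self _ _
  rw [← sum_union hdis]
  apply sum_congr _ (fun _ _ => rfl)
  ext A'
  rw [mem_union, mem_Ext, mem_Ext, mem_Ext, inter_succ]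
  by_cases h : n ∈ A'
  · simp only [h, if_true]
    constructor
    · rintro ⟨h1, h2⟩
      right
      exact ⟨h1, by rw [h2]⟩
    · rintro (⟨h1, h2⟩ | ⟨h1, h2⟩)
      · exfalso
        apply hn
        rw [← h2]; exact mem_insert_self _ _
      · refine ⟨h1, ?_⟩
        have h3 : n ∉ A' ∩ range n := by simp
        rw [← erase_insert h3, h2, erase_insert hn]
  · simp only [h, if_false]
    constructor
    · rintro ⟨h1, h2⟩
      left
      exact ⟨h1, h2⟩
    · rintro (⟨h1, h2⟩ | ⟨h1, h2⟩)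
      · exact ⟨h1, h2⟩
      · exfalso
        have h3 : n ∈ A' ∩ range n := by rw [h2]; exact mem_insert_self _ _
        exact h (mem_inter.1 h3).1

def cnt (n N : ℕ) (A B : Finset ℕ) : ℕ := ((Ico n N).filter (fun j => Miss A B j)).card

theorem cnt_succ {n N : ℕ} (h : n < N) (A B : Finset ℕ) :
    cnt n N A B = mi A B n + cnt (n + 1) N A B := by
  unfold cnt mi
  have : Ico n N = insert n (Ico (n + 1) N) := by
    ext i
    simp only [mem_insert, mem_Ico]
    omega
  rw [this, filter_insert]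
  split_ifs with h1
  · rw [card_insert_of_notMem (by simp)]
    ring
  · simp

theorem mi_inter (A B : Finset ℕ) (n : ℕ) :
    mi A B n = mi (A ∩ range (n + 1)) (B ∩ range (n + 1)) n := by
  unfold mi
  have : Miss A B n ↔ Miss (A ∩ range (n + 1)) (B ∩ range (n + 1)) n := by
    unfold Miss
    constructor
    · intro h i hi hc
      exact h i hi ⟨(mem_inter.1 hc.1).1, (mem_inter.1 hc.2).1⟩
    · intro h i hi hc
      refine h i hi ⟨mem_inter.2 ⟨hc.1, hi⟩, mem_inter.2 ⟨hc.2, ?_⟩⟩
      rw [mem_range] at hi ⊢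
      omega
  simp only [this]

theorem ev_sum (w : ℕ → ℝ) : ∀ (m n : ℕ) (A B : Finset ℕ) (c : ℕ), A ⊆ range n → B ⊆ range n →
    ∑ A' ∈ Ext (n + m) n A, ∑ B' ∈ Ext (n + m) n B, w (c + cnt n (n + m) A' B')
      = 4 ^ m * ev w m n A B c := by
  intro m
  induction m with
  | zero =>
    intro n A B c hA hB
    rw [Nat.add_zero, Ext_self hA, Ext_self hB, sum_singleton, sum_singleton]
    simp [cnt, ev]
  | succ m ih =>
    intro n A B c hA hB
    have e : n + (m + 1) = n + 1 + m := by ring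
    rw [e]
    have key : ∀ (A₁ B₁ : Finset ℕ), A₁ ⊆ range (n + 1) → B₁ ⊆ range (n + 1) →
        ∑ A' ∈ Ext (n + 1 + m) (n + 1) A₁, ∑ B' ∈ Ext (n + 1 + m) (n + 1) B₁,
          w (c + cnt n (n + 1 + m) A' B')
        = 4 ^ m * ev w m (n + 1) A₁ B₁ (c + mi A₁ B₁ n) := by
      intro A₁ B₁ h1 h2
      rw [← ih (n + 1) A₁ B₁ _ h1 h2]
      apply sum_congr rfl
      intro A' hA'
      apply sum_congr rfl
      intro B' hB'
      rw [mem_Ext] at hA' hB'
      rw [cnt_succ (by omega), mi_inter, hA'.2, hB'.2, ← add_assoc c]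
    rw [sum_Ext hA]
    simp only [sum_Ext hB]
    rw [sum_add_distrib, sum_add_distrib, key A B (sub_succ hA) (sub_succ hB),
      key A (insert n B) (sub_succ hA) (ins_succ hB),
      key (insert n A) B (ins_succ hA) (sub_succ hB),
      key (insert n A) (insert n B) (ins_succ hA) (ins_succ hB)]
    simp only [ev]
    ring

theorem X_le (M : ℕ) (A B : Finset ℕ) : X M A B ≤ M := by
  unfold X
  exact (card_filter_le _ _).trans (by simp)

theorem X_eq_cnt {M : ℕ} (hM : 1 ≤ M) {A B : Finset ℕ} (hA : 0 ∈ A) (hB : 0 ∈ B) :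
    X M A B = cnt 1 M A B := by
  have h1 : X M A B = cnt 0 M A B := by
    unfold X cnt
    rw [range_eq_Ico]
  rw [h1, cnt_succ (by omega)]
  have : mi A B 0 = 0 := by
    unfold mi
    rw [if_neg]
    intro h
    exact h 0 (by simp) ⟨hA, hB⟩
  rw [this, zero_add]

theorem q_sum {M : ℕ} (hM : 1 ≤ M) (w : ℕ → ℝ) :
    ∑ k ∈ range (M + 1), w k * q M k = ev w (M - 1) 1 {0} {0} 0 := by
  obtain ⟨m, rfl⟩ : ∃ m, M = 1 + m := ⟨M - 1, by omega⟩
  have h := ev_sum w m 1 {0} {0} 0 (by simp) (by simp)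
  have e : 1 + m - 1 = m := by omega
  rw [e]
  have hE : Ext (1 + m) 1 {0} = (range (1 + m)).powerset.filter (fun A => 0 ∈ A) := by
    ext A
    rw [mem_Ext, mem_filter, mem_powerset]
    constructor
    · rintro ⟨h1, h2⟩
      refine ⟨h1, ?_⟩
      have : 0 ∈ A ∩ range 1 := by rw [h2]; simp
      exact (mem_inter.1 this).1
    · rintro ⟨h1, h2⟩
      refine ⟨h1, ?_⟩
      ext i
      simp only [mem_inter, mem_range, mem_singleton]
      constructor
      · rintro ⟨_, h3⟩; omega
      · rintro rfl; exact ⟨h2, by omega⟩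
  have h2 : ∑ k ∈ range (1 + m + 1), w k * (cq (1 + m) k : ℝ) = 4 ^ m * ev w m 1 {0} {0} 0 := by
    rw [← h, hE]
    have h3 : ∀ k, (cq (1 + m) k : ℝ) = ∑ c ∈ (Om (1 + m)).filter (fun c => 0 ∈ c.1 ∧ 0 ∈ c.2),
        if X (1 + m) c.1 c.2 = k then (1 : ℝ) else 0 := by
      intro k
      unfold cq
      rw [← sum_filter, filter_filter, card_eq_sum_ones]
      push_cast
      apply sum_congr _ (fun _ _ => rfl)
      ext c
      simp only [mem_filter, and_assoc]
    have h4 : ∑ k ∈ range (1 + m + 1), w k * (cq (1 + m) k : ℝ)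
        = ∑ c ∈ (Om (1 + m)).filter (fun c => 0 ∈ c.1 ∧ 0 ∈ c.2), w (X (1 + m) c.1 c.2) := by
      simp only [h3, mul_sum]
      rw [sum_comm]
      apply sum_congr rfl
      intro c _
      rw [sum_eq_single (X (1 + m) c.1 c.2)]
      · simp
      · intro b _ hb
        rw [if_neg (fun h => hb h.symm), mul_zero]
      · intro hb
        exfalso
        apply hb
        rw [mem_range]
        have := X_le (1 + m) c.1 c.2
        omega
    rw [h4]
    have h5 : (Om (1 + m)).filter (fun c => 0 ∈ c.1 ∧ 0 ∈ c.2)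
        = ((range (1 + m)).powerset.filter (fun A => 0 ∈ A)) ×ˢ
          ((range (1 + m)).powerset.filter (fun A => 0 ∈ A)) := by
      ext c
      unfold Om
      simp only [mem_filter, mem_product]
      tauto
    rw [h5, sum_product]
    apply sum_congr rfl
    intro A hA
    apply sum_congr rfl
    intro B hB
    rw [mem_filter] at hA hB
    rw [X_eq_cnt (by omega) hA.2 hB.2, zero_add]
  have h6 : ∑ k ∈ range (1 + m + 1), w k * q (1 + m) k
      = (∑ k ∈ range (1 + m + 1), w k * (cq (1 + m) k : ℝ)) * (4 / 4 ^ (1 + m)) := by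
    rw [sum_mul]
    apply sum_congr rfl
    intro k _
    unfold q
    ring
  rw [h6, h2, pow_add]
  field_simp

theorem ev_const (v : ℝ) : ∀ (m n : ℕ) (A B : Finset ℕ) (c : ℕ),
    ev (fun _ => v) m n A B c = v := by
  intro m
  induction m with
  | zero => intro n A B c; rfl
  | succ m ih =>
    intro n A B c
    simp only [ev, ih]
    ring

theorem q_total {M : ℕ} (hM : 1 ≤ M) : ∑ k ∈ range (M + 1), q M k = 1 := by
  have h := q_sum hM (fun _ => (1 : ℝ))
  rw [ev_const] at h
  simpa using h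

theorem rel0 : Rel 1 {0} {0} 1 1 1 := by
  refine ⟨by simp, by simp, ?_, ?_, ?_⟩
  · intro i
    cases i with
    | zero => simp
    | succ i => simp [Nat.testBit_succ]
  · intro i
    cases i with
    | zero => simp
    | succ i => simp [Nat.testBit_succ]
  · intro i
    cases i with
    | zero => simp
    | succ i => simp [Nat.testBit_succ]

/-- the certificate -/
theorem cert {W : ℕ → ℝ} {w s r : ℕ} (ok : Ok W w s r) (T D f K : ℕ) (hD : 1 ≤ D)
    (hK : Nat.ble K (goS w s r T D f 1 1 1 0) = true) {M : ℕ} (hM : D ≤ M) :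
    (K : ℝ) ≤ 4 ^ (2 * D - 1) * ∑ k ∈ range (M + 1), W k * q M k := by
  rw [q_sum (by omega)]
  have h := goS_sound ok T D f 1 {0} 1 1 0 (M - 1) rel0 hD (by omega)
  have h2 : (K : ℝ) ≤ (goS w s r T D f 1 1 1 0 : ℕ) := by
    exact_mod_cast Nat.le_of_ble_eq_true hK
  exact h2.trans h

end Pool.Agent.R169.MD.Top
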